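import Pool.Agent.H592R2.DefsW

set_option linter.unusedSectionVars false

/-! Basic facts on circuits. -/

namespace Pool.Agent.H592R2

open Finset Classical

noncomputable section

namespace Ckt

variable {G : Type} [Fintype G] {C : Ckt G}

lemma mem_ins {i j : G} : j ∈ C.ins i ↔ C.wire j i := by simp [ins]

lemma WF.no_wire (h : C.WF) {i : G} (hi : C.kind i = Kind.inp) (j : G) : ¬ C.wire j i := by
  intro hw
  have h1 := (h i).1 hi
  rw [Finset.card_eq_zero] at h1
  have h2 := mem_ins.2 hw
  rw [h1] at h2
  simp at h2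

lemma WF.exists_wire (h : C.WF) {i : G} (hi : C.kind i ≠ Kind.inp) : ∃ j, C.wire j i := by
  have h1 : 1 ≤ (C.ins i).card := by
    rcases hk : C.kind i with _ | _ | _ | _
    · exact absurd hk hi
    · exact ((h i).2.1 hk).ge
    · exact (h i).2.2 (Or.inl hk)
    · exact (h i).2.2 (Or.inr hk)
  obtain ⟨j, hj⟩ := Finset.card_pos.mp h1
  exact ⟨j, mem_ins.1 hj⟩

lemma WF.large_iff (h : C.WF) (i : G) : C.Large i ↔ 2 < (C.ins i).card := by
  constructor
  · exact fun hl => hl.2
  · intro hl
    refine ⟨?_, hl⟩
    rcases hk : C.kind i with _ | _ | _ | _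
    · have := (h i).1 hk; omega
    · have := (h i).2.1 hk; omega
    · exact Or.inl rfl
    · exact Or.inr rfl

/-- every gate is reached by a path from an input -/
lemma WF.exists_path (h : C.WF) (rank : G → ℕ) (hr : ∀ j i, C.wire j i → rank j < rank i) :
    ∀ i, ∃ l w, C.PathTo i l w := by
  have : ∀ n i, rank i < n → ∃ l w, C.PathTo i l w := by
    intro n
    induction n with
    | zero => intro i hi; exact absurd hi (Nat.not_lt_zero _)
    | succ n ih =>
      intro i hi
      by_cases hk : C.kind i = Kind.inp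
      · exact ⟨0, 0, PathTo.start i hk⟩
      · obtain ⟨j, hj⟩ := h.exists_wire hk
        have h1 := hr j i hj
        obtain ⟨l, w, hp⟩ := ih j (by omega)
        exact ⟨_, _, PathTo.step j i l w hp hj⟩
  intro i
  exact this (rank i + 1) i (Nat.lt_succ_self _)

/-- recursive form of (weft at most `t`, depth at most `r`) -/
def okR (C : Ckt G) : ℕ → ℕ → G → Prop
  | _, 0, g => C.kind g = Kind.inp
  | t, r + 1, g => C.kind g = Kind.inp ∨
      ((¬ 2 < (C.ins g).card) ∧ ∀ j, C.wire j g → okR C t r j) ∨
      (2 < (C.ins g).card ∧ 1 ≤ t ∧ ∀ j, C.wire j g → okR C (t - 1) r j)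

lemma path_inp (h : C.WF) {i : G} (hi : C.kind i = Kind.inp) {l w : ℕ} (hp : C.PathTo i l w) :
    l = 0 ∧ w = 0 := by
  cases hp with
  | start _ _ => exact ⟨rfl, rfl⟩
  | step j _ l w _ hw => exact absurd hw (h.no_wire hi j)

lemma ok_iff (h : C.WF) (rank : G → ℕ) (hr : ∀ j i, C.wire j i → rank j < rank i) :
    ∀ (r t : ℕ) (i : G), (∀ l w, C.PathTo i l w → w ≤ t ∧ l ≤ r) ↔ C.okR t r i := by
  intro r
  induction r with
  | zero =>
    intro t i
    simp only [okR]
    constructor
    · intro hp
      by_contra hk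
      obtain ⟨j, hj⟩ := h.exists_wire hk
      obtain ⟨l, w, hpj⟩ := h.exists_path rank hr j
      have := (hp _ _ (PathTo.step j i l w hpj hj)).2
      omega
    · intro hk l w hp
      obtain ⟨rfl, rfl⟩ := path_inp h hk hp
      exact ⟨Nat.zero_le _, le_rfl⟩
  | succ r ih =>
    intro t i
    simp only [okR]
    by_cases hk : C.kind i = Kind.inp
    · simp only [hk, true_or, iff_true]
      intro l w hp
      obtain ⟨rfl, rfl⟩ := path_inp h hk hp
      exact ⟨Nat.zero_le _, Nat.zero_le _⟩
    · simp only [hk, false_or]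
      by_cases hl : 2 < (C.ins i).card
      · have hL : C.Large i := (h.large_iff i).2 hl
        simp only [hl, not_true_eq_false, false_and, false_or, true_and]
        constructor
        · intro hp
          obtain ⟨j0, hj0⟩ := h.exists_wire hk
          obtain ⟨l0, w0, hp0⟩ := h.exists_path rank hr j0
          have h0 := (hp _ _ (PathTo.step j0 i l0 w0 hp0 hj0)).1
          rw [if_pos hL] at h0
          refine ⟨by omega, ?_⟩
          intro j hj
          rw [← ih]
          intro l w hpj
          have h1 := hp _ _ (PathTo.step j i l w hpj hj)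
          rw [if_pos hL] at h1
          omega
        · rintro ⟨ht, hall⟩ l w hp
          cases hp with
          | start _ hk' => exact absurd hk' hk
          | step j _ l w hpj hw =>
            have := (ih (t - 1) j).2 (hall j hw) l w hpj
            rw [if_pos hL]
            omega
      · have hL : ¬ C.Large i := fun hL => hl ((h.large_iff i).1 hL)
        simp only [hl, not_false_eq_true, true_and, false_and, or_false]
        constructor
        · intro hp j hj
          rw [← ih]
          intro l w hpj
          have h1 := hp _ _ (PathTo.step j i l w hpj hj)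
          rw [if_neg hL] at h1
          omega
        · intro hall l w hp
          cases hp with
          | start _ hk' => exact absurd hk' hk
          | step j _ l w hpj hw =>
            have := (ih t j).2 (hall j hw) l w hpj
            rw [if_neg hL]
            omega

/-- recursive evaluation, cut off at depth `r` and weft `t` -/
def valR (C : Ckt G) (S : Finset G) : ℕ → ℕ → G → Prop
  | _, 0, g => C.kind g = Kind.inp ∧ g ∈ S
  | t, r + 1, g => (C.kind g = Kind.inp ∧ g ∈ S) ∨
      (∃ c : {c : Finset G // c.card ≤ 2}, C.ins g = c.1 ∧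
        ((C.kind g = Kind.neg ∧ ¬ ∃ h ∈ c.1, valR C S t r h) ∨
        (C.kind g = Kind.conj ∧ ∀ h ∈ c.1, valR C S t r h) ∨
        (C.kind g = Kind.disj ∧ ∃ h ∈ c.1, valR C S t r h))) ∨
      (1 ≤ t ∧ 2 < (C.ins g).card ∧
        ((C.kind g = Kind.conj ∧ ¬ ∃ h, C.wire h g ∧ ¬ valR C S (t - 1) r h) ∨
        (C.kind g = Kind.disj ∧ ∃ h, C.wire h g ∧ valR C S (t - 1) r h)))

lemma val_eq_valR (h : C.WF) {v : G → Prop} (hv : C.IsVal v) {S : Finset G}
    (hS : ∀ g, C.kind g = Kind.inp → (g ∈ S ↔ v g)) :
    ∀ (r t : ℕ) (g : G), C.okR t r g → (C.valR S t r g ↔ v g) := by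
  intro r
  induction r with
  | zero =>
    intro t g hk
    simp only [okR] at hk
    simp only [valR, hk, true_and]
    exact hS g hk
  | succ r ih =>
    intro t g hok
    by_cases hk : C.kind g = Kind.inp
    · have h1 := (h g).1 hk
      simp only [valR, hk, true_and]
      simp only [reduceCtorEq, false_and, or_false, and_false, exists_false]
      exact hS g hk
    · simp only [okR, hk, false_or] at hok
      simp only [valR, hk, false_and, false_or]
      rcases hok with ⟨hsm, hall⟩ | ⟨hlg, ht, hall⟩
      · -- small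
        have hsel : ∀ P : {c : Finset G // c.card ≤ 2} → Prop,
            (∃ c : {c : Finset G // c.card ≤ 2}, C.ins g = c.1 ∧ P c) ↔
              P ⟨C.ins g, not_lt.mp hsm⟩ := by
          intro P
          constructor
          · rintro ⟨c, hc, hP⟩
            have : c = ⟨C.ins g, not_lt.mp hsm⟩ := Subtype.ext hc.symm
            rwa [this] at hP
          · intro hP
            exact ⟨_, rfl, hP⟩
        rw [hsel]
        simp only [hsm, false_and, and_false, or_false]
        have hih : ∀ j ∈ C.ins g, (C.valR S t r j ↔ v j) := fun j hj =>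
          ih t j (hall j (mem_ins.1 hj))
        have e1 : (∃ j ∈ C.ins g, C.valR S t r j) ↔ ∃ j, C.wire j g ∧ v j := by
          constructor
          · rintro ⟨j, hj, hvj⟩; exact ⟨j, mem_ins.1 hj, (hih j hj).1 hvj⟩
          · rintro ⟨j, hj, hvj⟩; exact ⟨j, mem_ins.2 hj, (hih j (mem_ins.2 hj)).2 hvj⟩
        have e2 : (∀ j ∈ C.ins g, C.valR S t r j) ↔ ∀ j, C.wire j g → v j := by
          constructor
          · intro hh j hj; exact (hih j (mem_ins.2 hj)).1 (hh j (mem_ins.2 hj))
          · intro hh j hj; exact (hih j hj).2 (hh j (mem_ins.1 hj))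
        rw [e1, e2]
        obtain ⟨v1, v2, v3⟩ := hv g
        rcases hkk : C.kind g with _ | _ | _ | _
        · exact absurd hkk hk
        · simp [v1 hkk]
        · simp [v2 hkk]
        · simp [v3 hkk]
      · -- large
        have hsel : ¬ ∃ c : {c : Finset G // c.card ≤ 2}, C.ins g = c.1 ∧
            ((C.kind g = Kind.neg ∧ ¬ ∃ h ∈ c.1, valR C S t r h) ∨
            (C.kind g = Kind.conj ∧ ∀ h ∈ c.1, valR C S t r h) ∨
            (C.kind g = Kind.disj ∧ ∃ h ∈ c.1, valR C S t r h)) := by
          rintro ⟨c, hc, -⟩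
          have := c.2
          rw [← hc] at this
          omega
        simp only [hsel, false_or, ht, hlg, true_and]
        have hih : ∀ j, C.wire j g → (C.valR S (t - 1) r j ↔ v j) := fun j hj =>
          ih (t - 1) j (hall j hj)
        have e1 : (∃ j, C.wire j g ∧ C.valR S (t - 1) r j) ↔ ∃ j, C.wire j g ∧ v j := by
          constructor
          · rintro ⟨j, hj, hvj⟩; exact ⟨j, hj, (hih j hj).1 hvj⟩
          · rintro ⟨j, hj, hvj⟩; exact ⟨j, hj, (hih j hj).2 hvj⟩
        have e2 : (¬ ∃ j, C.wire j g ∧ ¬ C.valR S (t - 1) r j) ↔ ∀ j, C.wire j g → v j := by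
          constructor
          · intro hh j hj
            by_contra hc
            exact hh ⟨j, hj, fun hv' => hc ((hih j hj).1 hv')⟩
          · rintro hh ⟨j, hj, hc⟩; exact hc ((hih j hj).2 (hh j hj))
        rw [e1, e2]
        obtain ⟨v1, v2, v3⟩ := hv g
        have hL := (h.large_iff g).2 hlg
        rcases hL.1 with hkk | hkk
        · simp [v2 hkk, hkk]
        · simp [v3 hkk, hkk]

/-- gate values exist for every assignment to the inputs, in a circuit with ordered gates -/
lemma exists_val {N : ℕ} (C : Ckt (Fin N)) (hw : ∀ j i, C.wire j i → j < i) (S : Finset (Fin N)) :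
    ∃ v : Fin N → Prop, C.IsVal v ∧ ∀ i, C.kind i = Kind.inp → (v i ↔ i ∈ S) := by
  let F : (i : Fin N) → ((j : Fin N) → j < i → Prop) → Prop := fun i rec =>
    match C.kind i with
    | .inp => i ∈ S
    | .neg => ¬ ∃ j, ∃ h : C.wire j i, rec j (hw j i h)
    | .conj => ∀ j, ∀ h : C.wire j i, rec j (hw j i h)
    | .disj => ∃ j, ∃ h : C.wire j i, rec j (hw j i h)
  let v : Fin N → Prop := (wellFounded_lt (α := Fin N)).fix F
  have hv : ∀ i, v i = F i (fun j _ => v j) := fun i => WellFounded.fix_eq _ F i
  refine ⟨v, ?_, ?_⟩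
  · intro i
    refine ⟨?_, ?_, ?_⟩
    · intro hk
      rw [hv i]
      simp only [F, hk, exists_prop]
    · intro hk
      rw [hv i]
      simp only [F, hk]
    · intro hk
      rw [hv i]
      simp only [F, hk, exists_prop]
  · intro i hk
    rw [hv i]
    simp only [F, hk]

lemma sat_iff {N : ℕ} (C : Ckt (Fin N)) (hw : ∀ j i, C.wire j i → j < i) (h : C.WF) (t d k : ℕ) :
    (C.InC t d ∧ C.Sat k) ↔ (C.okR t d C.out ∧ ∃ S : Finset (Fin N), S.card = k ∧
      (∀ i ∈ S, C.kind i = Kind.inp) ∧ C.valR S t d C.out) := by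
  have hok : C.InC t d ↔ C.okR t d C.out :=
    ok_iff h (fun i => i.val) (fun j i hji => hw j i hji) d t C.out
  rw [hok]
  apply and_congr_right
  intro hokR
  constructor
  · rintro ⟨v, hv, hcard, hout⟩
    refine ⟨Finset.univ.filter (fun i => C.kind i = Kind.inp ∧ v i), hcard, ?_, ?_⟩
    · intro i hi
      exact (Finset.mem_filter.mp hi).2.1
    · rw [val_eq_valR h hv (fun g hg => by simp [hg]) d t C.out hokR]
      exact hout
  · rintro ⟨S, hcard, hS, hval⟩
    obtain ⟨v, hv, hvS⟩ := exists_val C hw S
    refine ⟨v, hv, ?_, ?_⟩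
    · rw [← hcard]
      congr 1
      ext i
      rw [Finset.mem_filter]
      constructor
      · rintro ⟨-, hk, hvi⟩; exact (hvS i hk).1 hvi
      · intro hi; exact ⟨Finset.mem_univ _, hS i hi, (hvS i (hS i hi)).2 hi⟩
    · rw [← val_eq_valR h hv (fun g hg => (hvS g hg).symm) d t C.out hokR]
      exact hval

/-- transport along a bijection of gates -/
def map {G' : Type} (C : Ckt G) (e : G ≃ G') : Ckt G' where
  kind g := C.kind (e.symm g)
  wire a b := C.wire (e.symm a) (e.symm b)
  out := e C.out

variable {G' : Type} [Fintype G'] (e : G ≃ G')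

lemma card_ins_map (i : G') : ((C.map e).ins i).card = (C.ins (e.symm i)).card := by
  have : (C.map e).ins i = (C.ins (e.symm i)).map e.toEmbedding := by
    ext j
    simp only [ins, map, Finset.mem_filter, Finset.mem_univ, true_and, Finset.mem_map_equiv]
  rw [this, Finset.card_map]

lemma WF.map (h : C.WF) : (C.map e).WF := by
  intro i
  rw [card_ins_map]
  exact h (e.symm i)

lemma large_map (i : G') : (C.map e).Large i ↔ C.Large (e.symm i) := by
  unfold Large
  rw [card_ins_map]
  rfl

lemma path_map {i : G'} {l w : ℕ} (hp : (C.map e).PathTo i l w) : C.PathTo (e.symm i) l w := by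
  induction hp with
  | start i hk => exact PathTo.start _ hk
  | step j i l w _ hw ih =>
    have := PathTo.step (C := C) (e.symm j) (e.symm i) l w ih hw
    simp only [large_map]
    exact this

lemma InC.map {t d : ℕ} (h : C.InC t d) : (C.map e).InC t d := by
  intro l w hp
  have := path_map e hp
  have h2 : e.symm (C.map e).out = C.out := by simp [Ckt.map]
  rw [h2] at this
  exact h l w this

lemma sat_map (k : ℕ) : (C.map e).Sat k ↔ C.Sat k := by
  constructor
  · rintro ⟨v, hv, hcard, hout⟩
    refine ⟨fun g => v (e g), ?_, ?_, hout⟩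
    · intro i
      have hi := hv (e i)
      simp only [Ckt.map, Equiv.symm_apply_apply] at hi
      have hex : ∀ P : G' → Prop, (∃ j, C.wire (e.symm j) i ∧ P j) ↔ ∃ j, C.wire j i ∧ P (e j) := by
        intro P
        constructor
        · rintro ⟨j, hj, hP⟩; exact ⟨e.symm j, hj, by simpa using hP⟩
        · rintro ⟨j, hj, hP⟩; exact ⟨e j, by simpa using hj, hP⟩
      have hall : ∀ P : G' → Prop, (∀ j, C.wire (e.symm j) i → P j) ↔
          ∀ j, C.wire j i → P (e j) := by
        intro P
        constructor
        · intro h j hj; exact h (e j) (by simpa using hj)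
        · intro h j hj; simpa using h (e.symm j) hj
      refine ⟨fun hk => ?_, fun hk => ?_, fun hk => ?_⟩
      · change v (e i) ↔ ¬ ∃ j, C.wire j i ∧ v (e j)
        rw [hi.1 hk, hex]
      · change v (e i) ↔ ∀ j, C.wire j i → v (e j)
        rw [hi.2.1 hk, hall]
      · change v (e i) ↔ ∃ j, C.wire j i ∧ v (e j)
        rw [hi.2.2 hk, hex]
    · rw [← hcard]
      apply Finset.card_bij (fun g _ => e g)
      · intro g hg
        rw [Finset.mem_filter] at hg ⊢
        exact ⟨Finset.mem_univ _, by simpa [Ckt.map] using hg.2⟩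
      · intro g _ g' _ h
        exact e.injective h
      · intro g hg
        rw [Finset.mem_filter] at hg
        exact ⟨e.symm g, by
          rw [Finset.mem_filter]
          exact ⟨Finset.mem_univ _, by simpa [Ckt.map] using hg.2⟩, by simp⟩
  · rintro ⟨v, hv, hcard, hout⟩
    refine ⟨fun g => v (e.symm g), ?_, ?_, by simpa [Ckt.map] using hout⟩
    · intro i
      have hi := hv (e.symm i)
      have hex : ∀ P : G → Prop, (∃ j, C.wire (e.symm j) (e.symm i) ∧ P (e.symm j)) ↔
          ∃ j, C.wire j (e.symm i) ∧ P j := by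
        intro P
        constructor
        · rintro ⟨j, hj, hP⟩; exact ⟨e.symm j, hj, hP⟩
        · rintro ⟨j, hj, hP⟩; exact ⟨e j, by simpa using hj, by simpa using hP⟩
      have hall : ∀ P : G → Prop, (∀ j, C.wire (e.symm j) (e.symm i) → P (e.symm j)) ↔
          ∀ j, C.wire j (e.symm i) → P j := by
        intro P
        constructor
        · intro h j hj; simpa using h (e j) (by simpa using hj)
        · intro h j hj; exact h (e.symm j) hj
      refine ⟨fun hk => ?_, fun hk => ?_, fun hk => ?_⟩
      · change v (e.symm i) ↔ ¬ ∃ j, C.wire (e.symm j) (e.symm i) ∧ v (e.symm j)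
        rw [hex, hi.1 hk]
      · change v (e.symm i) ↔ ∀ j, C.wire (e.symm j) (e.symm i) → v (e.symm j)
        rw [hall, hi.2.1 hk]
      · change v (e.symm i) ↔ ∃ j, C.wire (e.symm j) (e.symm i) ∧ v (e.symm j)
        rw [hex, hi.2.2 hk]
    · rw [← hcard]
      apply Finset.card_bij (fun g _ => e.symm g)
      · intro g hg
        rw [Finset.mem_filter] at hg ⊢
        exact ⟨Finset.mem_univ _, hg.2⟩
      · intro g _ g' _ h
        exact e.symm.injective h
      · intro g hg
        rw [Finset.mem_filter] at hg
        exact ⟨e g, by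
          rw [Finset.mem_filter]
          exact ⟨Finset.mem_univ _, by simpa [Ckt.map] using hg.2⟩, by simp⟩

end Ckt

end

end Pool.Agent.H592R2
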