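import Pool.Agent.H592R2.Multi

set_option linter.unusedSectionVars false

/-! Choice of parameters, selection of alive vertices, independence. -/

namespace Pool.Agent.H592R2

open Finset Classical

noncomputable section

/-- σ = S + S² -/
def sg (S : ℕ) : ℕ := S + S ^ 2

/-- the alphabet of the coordinates -/
abbrev Tau (b S : ℕ) : Type := Fin (b ^ (2 * sg S))

instance tauNeZero (b S : ℕ) [NeZero b] : NeZero (b ^ (2 * sg S)) :=
  ⟨pow_ne_zero _ (NeZero.ne b)⟩

/-- outcome alive -/
def Aset (b S : ℕ) [NeZero b] : Finset (Tau b S) := {0}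

/-- outcome minority value -/
def Mset (b S : ℕ) : Finset (Tau b S) := Finset.univ.filter (fun x => x.val < b ^ (2 * sg S - 1))

lemma sg_pos {S : ℕ} (h : 3 ≤ S) : 1 ≤ sg S := by unfold sg; omega

lemma card_Mset (b S : ℕ) (hb : 1 ≤ b) : (Mset b S).card = b ^ (2 * sg S - 1) := by
  unfold Mset
  have h : b ^ (2 * sg S - 1) ≤ b ^ (2 * sg S) := Nat.pow_le_pow_right hb (by omega)
  rw [Fin.card_filter_val_lt]
  exact min_eq_right h

lemma P1_inst {b S : ℕ} [NeZero b] (hb : 2 ≤ b) (hS : 3 ≤ S) :
    P1 (Aset b S) (Mset b S) S (1 / (b : ℝ)) ((2 / (b : ℝ)) ^ sg S)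
      (1 / ((b : ℝ) ^ sg S * 2 ^ sg S)) := by
  have hb0 : (0 : ℝ) < b := by exact_mod_cast (by omega : 0 < b)
  have hb2 : (2 : ℝ) ≤ b := by exact_mod_cast hb
  have hsg := sg_pos hS
  have hcardτ : (Fintype.card (Tau b S) : ℝ) = (b : ℝ) ^ (2 * sg S) := by
    simp [Tau, Fintype.card_fin]
  have hpow : (b : ℝ) ^ (2 * sg S) = b ^ (2 * sg S - 1) * b := by
    rw [← pow_succ]; congr 1; omega
  have hMcard : ((Mset b S).card : ℝ) / Fintype.card (Tau b S) = 1 / b := by
    rw [card_Mset b S (by omega), hcardτ, hpow]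
    push_cast
    field_simp
  have hinv : (1 : ℝ) / b ≤ 1 / 2 := one_div_le_one_div_of_le (by norm_num) hb2
  have hcompl : ∀ X : Finset (Tau b S), ((Finset.univ \ X : Finset (Tau b S)).card : ℝ) /
      Fintype.card (Tau b S) = 1 - (X.card : ℝ) / Fintype.card (Tau b S) := by
    intro X
    rw [Finset.card_univ_sdiff]
    have h1 : X.card ≤ Fintype.card (Tau b S) := Finset.card_le_univ X
    rw [Nat.cast_sub h1, sub_div, div_self]
    rw [hcardτ]; positivity
  refine ⟨hS, by positivity, by linarith, ?_, hMcard.ge, ?_, by positivity, ?_, by positivity,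
    ?_, ?_, ?_⟩
  · rw [hcompl]
    have : ((Aset b S).card : ℝ) / Fintype.card (Tau b S) ≤ 1 / b := by
      rw [hcardτ]
      simp only [Aset, Finset.card_singleton, Nat.cast_one]
      apply one_div_le_one_div_of_le hb0
      calc (b : ℝ) = b ^ 1 := (pow_one _).symm
        _ ≤ b ^ (2 * sg S) := pow_le_pow_right₀ (by linarith) (by omega)
    linarith
  · rw [hcompl, hMcard]; linarith
  · apply pow_le_one₀ (by positivity)
    rw [div_le_one hb0]; exact hb2
  · rw [div_le_one (by positivity)]
    exact one_le_mul_of_one_le_of_one_le (one_le_pow₀ (by linarith)) (one_le_pow₀ (by norm_num))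
  · rw [hcardτ]
    simp only [Aset, Finset.card_singleton, Nat.cast_one]
    rw [div_pow, two_mul, pow_add]
    field_simp
  · rw [show sg S = S + S ^ 2 from rfl]
    rw [one_div_pow, pow_add (2 : ℝ) S (S ^ 2)]
    have h1 : (0:ℝ) < b ^ (S + S ^ 2) := by positivity
    have h2 : (0:ℝ) < 2 ^ S := by positivity
    have h3 : (0:ℝ) < 2 ^ (S ^ 2) := by positivity
    apply le_of_eq
    field_simp

section indep
variable {C : Type} [Fintype C] [DecidableEq C] {T : C → Type} [∀ c, Fintype (T c)]
  [∀ c, Nonempty (T c)]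

/-- independence of functions of disjoint sets of coordinates -/
lemma avg_mul_indep (R : Set C) (f g : (∀ c, T c) → ℝ)
    (hf : ∀ a a', (∀ c ∈ R, a c = a' c) → f a = f a')
    (hg : ∀ a a', (∀ c, c ∉ R → a c = a' c) → g a = g a') :
    avg (fun a => f a * g a) = avg f * avg g := by
  rw [← avg_mix R]
  have h : ∀ a b, f (mix R a b) * g (mix R a b) = f a * g b := by
    intro a b
    rw [hf (mix R a b) a (fun c hc => mix_mem hc), hg (mix R a b) b (fun c hc => mix_not_mem hc)]
  simp only [h]
  simp only [avg_const_mul]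
  rw [avg_mul_const]

lemma avg_prod_indep {J : Type} (s : Finset J) (Cs : J → Set C) (f : J → (∀ c, T c) → ℝ)
    (hdis : ∀ j ∈ s, ∀ j' ∈ s, j ≠ j' → Disjoint (Cs j) (Cs j'))
    (hf : ∀ j ∈ s, ∀ a a', (∀ c ∈ Cs j, a c = a' c) → f j a = f j a') :
    avg (fun a => ∏ j ∈ s, f j a) = ∏ j ∈ s, avg (f j) := by
  induction s using Finset.induction_on with
  | empty => simp [avg_const]
  | insert j s hj ih =>
    simp only [Finset.prod_insert hj]
    rw [avg_mul_indep (Cs j) (f j) (fun a => ∏ j ∈ s, f j a) (hf j (Finset.mem_insert_self _ _))]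
    · rw [ih (fun i hi i' hi' => hdis i (Finset.mem_insert_of_mem hi) i'
        (Finset.mem_insert_of_mem hi')) (fun i hi => hf i (Finset.mem_insert_of_mem hi))]
    · intro a a' haa'
      apply Finset.prod_congr rfl
      intro i hi
      apply hf i (Finset.mem_insert_of_mem hi)
      intro c hc
      apply haa'
      intro hcj
      have hne : j ≠ i := by rintro rfl; exact hj hi
      exact Set.disjoint_left.mp (hdis j (Finset.mem_insert_self _ _) i
        (Finset.mem_insert_of_mem hi) hne) hcj hc

end indep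

lemma ind_forall_eq_prod {J : Type} (s : Finset J) (p : J → Prop) :
    ind (∀ j ∈ s, p j) = ∏ j ∈ s, ind (p j) := by
  by_cases h : ∀ j ∈ s, p j
  · rw [ind_true h]
    exact (Finset.prod_eq_one fun j hj => ind_true (h j hj)).symm
  · rw [ind_false h]
    push Not at h
    obtain ⟨j, hj, hp⟩ := h
    exact (Finset.prod_eq_zero hj (ind_false hp)).symm

variable {D : ℕ} {V : Type} [Fintype V] [DecidableEq V] {τ : Type} [Fintype τ] [Nonempty τ]
  [DecidableEq τ]

/-- probability that a vertex set `W` contains no vertex alive after all rounds -/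
lemma avg_no_alive (A : Finset τ) (W : Finset V) :
    avg (fun ω : Crd D V → τ => ind (∀ v ∈ W, ¬ Al A D ω v)) =
      (1 - ((A.card : ℝ) / Fintype.card τ) ^ D) ^ W.card := by
  simp only [ind_forall_eq_prod]
  rw [avg_prod_indep (T := fun _ : Crd D V => τ) W (fun v => {c | ∃ i : Fin D, c = Sum.inl (i, v)})
    (fun v ω => ind (¬ Al A D ω v))]
  · rw [← Finset.prod_const]
    apply Finset.prod_congr rfl
    intro v hv
    have h1 : (fun ω : Crd D V → τ => ind (¬ Al A D ω v)) =
        fun ω => 1 - ind (∀ c ∈ (Finset.univ : Finset (Fin D)).image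
          (fun i => (Sum.inl (i, v) : Crd D V)), ω c ∈ (fun _ : Crd D V => A) c) := by
      funext ω
      by_cases h : Al A D ω v
      · rw [ind_false (not_not.mpr h), ind_true, sub_self]
        intro c hc
        rw [Finset.mem_image] at hc
        obtain ⟨i, -, rfl⟩ := hc
        exact h i i.2
      · rw [ind_true h, ind_false, sub_zero]
        intro h'
        apply h
        intro i hi
        exact h' _ (Finset.mem_image_of_mem _ (Finset.mem_univ i))
    rw [h1, avg_sub, avg_const, avg_box, Finset.prod_const, Finset.card_image_of_injective,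
      Finset.card_univ, Fintype.card_fin]
    intro i i' h
    simpa using h
  · intro v _ v' _ hne
    rw [Set.disjoint_left]
    rintro c ⟨i, rfl⟩ ⟨i', h⟩
    simp only [Sum.inl.injEq, Prod.mk.injEq] at h
    exact hne h.2
  · intro v _ a a' haa'
    have : Al A D a v ↔ Al A D a' v := by
      unfold Al
      constructor
      · intro h i hi; rw [← haa' _ ⟨i, rfl⟩]; exact h i hi
      · intro h i hi; rw [haa' _ ⟨i, rfl⟩]; exact h i hi
    rw [this]

/-- probability that all pairs of a set are minority pairs, given statuses -/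
lemma avg_all_minority (Mi : Finset τ) (P : Finset (V × V)) :
    avg (fun ω : Crd D V → τ => ind (∀ q ∈ P, ω (Sum.inr q) ∈ Mi)) =
      ((Mi.card : ℝ) / Fintype.card τ) ^ P.card := by
  have h1 : (fun ω : Crd D V → τ => ind (∀ q ∈ P, ω (Sum.inr q) ∈ Mi)) =
      fun ω => ind (∀ c ∈ P.image (fun q => (Sum.inr q : Crd D V)),
        ω c ∈ (fun _ : Crd D V => Mi) c) := by
    funext ω
    congr 1
    simp only [Finset.mem_image, forall_exists_index, and_imp]
    apply propext
    constructor
    · rintro h c q hq rfl; exact h q hq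
    · intro h q hq; exact h _ q hq rfl
  rw [h1, avg_box, Finset.prod_const, Finset.card_image_of_injective]
  intro q q' h
  simpa using h

end

end Pool.Agent.H592R2
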