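import Pool.Agent.H592R2.FmlTools
import Pool.Agent.H592R2.Params

set_option linter.unusedSectionVars false

/-! The multipartite clique instances. -/

namespace Pool.Agent.H592R2

open Finset Classical

noncomputable section

variable {k : ℕ} {V : Type} [Fintype V] [DecidableEq V]

/-- symmetrized adjacency of a `k`-partite graph -/
def fadj (gr : V → Fin k) (z : V → V → Bool) (v v' : V) : Bool :=
  if gr v < gr v' then z v v' else if gr v' < gr v then z v' v else false

/-- the adjacency bit of a pair of numbers -/
def pairBit (gr : V → Fin k) (z : V → V → Bool) (a c : ℕ) : Bool :=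
  if h : a < Fintype.card V ∧ c < Fintype.card V then
    fadj gr z ((Fintype.equivFin V).symm ⟨a, h.1⟩) ((Fintype.equivFin V).symm ⟨c, h.2⟩)
  else false

/-- the instance string -/
def encC (gr : V → Fin k) (z : V → V → Bool) :
    Fin (k + 1 + Fintype.card V * Fintype.card V) → Bool := fun p =>
  if p.val < k then true
  else if p.val = k then false
  else pairBit gr z ((p.val - (k + 1)) / Fintype.card V) ((p.val - (k + 1)) % Fintype.card V)

lemma fadj_symm (gr : V → Fin k) (z : V → V → Bool) (v v' : V) :
    fadj gr z v v' = fadj gr z v' v := by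
  unfold fadj
  rcases lt_trichotomy (gr v) (gr v') with h | h | h
  · simp [h, not_lt.mpr h.le]
  · simp [h]
  · simp [h, not_lt.mpr h.le]

lemma pairBit_loc [Nonempty V] (gr : V → Fin k) (a c : ℕ) :
    ∃ v v' : V, Loc {v, v'} (fun z => pairBit gr z a c = true) := by
  by_cases h : a < Fintype.card V ∧ c < Fintype.card V
  · refine ⟨(Fintype.equivFin V).symm ⟨a, h.1⟩, (Fintype.equivFin V).symm ⟨c, h.2⟩, ?_⟩
    intro z z' hzz' hz
    simp only [pairBit, dif_pos h] at hz ⊢
    rw [← hz]
    unfold fadj
    rw [hzz' _ (Finset.mem_insert_self _ _) _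
        (Finset.mem_insert_of_mem (Finset.mem_singleton_self _)),
      hzz' _ (Finset.mem_insert_of_mem (Finset.mem_singleton_self _)) _
        (Finset.mem_insert_self _ _)]
  · obtain ⟨v⟩ := (inferInstance : Nonempty V)
    refine ⟨v, v, ?_⟩
    intro z z' _ hz
    simp [pairBit, dif_neg h] at hz

lemma encC_henc [Nonempty V] (gr : V → Fin k) (p : Fin (k + 1 + Fintype.card V * Fintype.card V)) :
    ∃ v v' : V, Loc {v, v'} (fun z => encC gr z p = true) := by
  by_cases h1 : p.val < k
  · obtain ⟨v⟩ := (inferInstance : Nonempty V)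
    refine ⟨v, v, ?_⟩
    intro z z' _ _
    simp [encC, h1]
  · by_cases h2 : p.val = k
    · obtain ⟨v⟩ := (inferInstance : Nonempty V)
      refine ⟨v, v, ?_⟩
      intro z z' _ hz
      simp [encC, h2] at hz
    · obtain ⟨v, v', h⟩ := pairBit_loc gr ((p.val - (k + 1)) / Fintype.card V)
        ((p.val - (k + 1)) % Fintype.card V)
      refine ⟨v, v', ?_⟩
      intro z z' hzz' hz
      simp only [encC, if_neg h1, if_neg h2] at hz ⊢
      exact h z z' hzz' hz

lemma lead_encC (gr : V → Fin k) (z : V → V → Bool) : lead (encC gr z) = k := by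
  unfold lead
  rw [Nat.find_eq_iff]
  constructor
  · simp [bitN, encC]
  · intro p hp
    have hp' : p < k + 1 + Fintype.card V * Fintype.card V := by omega
    simp [bitN, encC, hp, hp']

lemma cliqueN_encC (gr : V → Fin k) (z : V → V → Bool) :
    cliqueN (encC gr z) = Fintype.card V := by
  unfold cliqueN
  rw [lead_encC, Nat.add_sub_cancel_left, Nat.sqrt_eq]

lemma bit_encC (gr : V → Fin k) (z : V → V → Bool) (v v' : V) :
    bitN (encC gr z) (k + 1 + ((Fintype.equivFin V v).val * Fintype.card V +
      (Fintype.equivFin V v').val)) = fadj gr z v v' := by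
  set i := Fintype.equivFin V v with hi
  set j := Fintype.equivFin V v' with hj
  have hlt : i.val * Fintype.card V + j.val < Fintype.card V * Fintype.card V := by
    have h1 := i.2
    have h2 := j.2
    calc i.val * Fintype.card V + j.val < i.val * Fintype.card V + Fintype.card V := by omega
      _ = (i.val + 1) * Fintype.card V := by ring
      _ ≤ _ := Nat.mul_le_mul_right _ h1
  have hN : 0 < Fintype.card V := lt_of_le_of_lt (Nat.zero_le _) i.2
  have hp : k + 1 + (i.val * Fintype.card V + j.val) < k + 1 + Fintype.card V * Fintype.card V := by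
    omega
  have e1 : (i.val * Fintype.card V + j.val) / Fintype.card V = i.val := by
    rw [mul_comm, Nat.mul_add_div hN, Nat.div_eq_of_lt j.2, add_zero]
  have e2 : (i.val * Fintype.card V + j.val) % Fintype.card V = j.val := by
    rw [mul_comm, Nat.mul_add_mod, Nat.mod_eq_of_lt j.2]
  unfold bitN
  rw [dif_pos hp]
  have h1 : ¬ (k + 1 + (i.val * Fintype.card V + j.val) < k) := by omega
  have h2 : ¬ (k + 1 + (i.val * Fintype.card V + j.val) = k) := by omega
  simp only [encC, if_neg h1, if_neg h2, Nat.add_sub_cancel_left]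
  rw [e1, e2]
  have h3 : i.val < Fintype.card V ∧ j.val < Fintype.card V := ⟨i.2, j.2⟩
  unfold pairBit
  rw [dif_pos h3]
  simp only [Fin.eta, hi, hj, Equiv.symm_apply_apply]

/-- bijection between the vertices -/
def phiC (gr : V → Fin k) (z : V → V → Bool) : V ≃ Fin (cliqueN (encC gr z)) :=
  (Fintype.equivFin V).trans (finCongr (cliqueN_encC gr z).symm)

lemma phiC_val (gr : V → Fin k) (z : V → V → Bool) (v : V) :
    (phiC gr z v).val = (Fintype.equivFin V v).val := by simp [phiC]

lemma adj_encC (gr : V → Fin k) (z : V → V → Bool) (v v' : V) :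
    (cliqueGraph (encC gr z)).Adj (phiC gr z v) (phiC gr z v') ↔ fadj gr z v v' = true := by
  have hb : ∀ v v', bitN (encC gr z) (lead (encC gr z) + 1 +
      ((phiC gr z v).val * cliqueN (encC gr z) + (phiC gr z v').val)) = fadj gr z v v' := by
    intro v v'
    rw [lead_encC, phiC_val, phiC_val]
    have := cliqueN_encC gr z
    rw [this, bit_encC]
  have hself : ∀ v, fadj gr z v v = false := by intro v; simp [fadj]
  change ((phiC gr z v < phiC gr z v' ∧ _) ∨ (phiC gr z v' < phiC gr z v ∧ _)) ↔ _
  rw [hb, hb, fadj_symm gr z v' v]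
  rcases lt_trichotomy (phiC gr z v) (phiC gr z v') with h | h | h
  · simp [h, not_lt.mpr h.le]
  · have : v = v' := (phiC gr z).injective h
    subst this
    simp [hself]
  · simp [h, not_lt.mpr h.le]

/-- correctness of the instance -/
theorem clique_encC (gr : V → Fin k) (z : V → V → Bool) :
    pCLIQUE.Q _ (encC gr z) ↔
      ∃ u : Fin k → V, (∀ i, gr (u i) = i) ∧ ∀ i i', i < i' → z (u i) (u i') = true := by
  have hQ : pCLIQUE.Q _ (encC gr z) ↔
      ∃ s : Finset (Fin (cliqueN (encC gr z))), (cliqueGraph (encC gr z)).IsNClique k s := by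
    simp only [pCLIQUE, lead_encC, SimpleGraph.CliqueFree, not_forall, not_not]
  rw [hQ]
  constructor
  · rintro ⟨s, hs⟩
    rw [SimpleGraph.isNClique_iff] at hs
    obtain ⟨hcl, hcard⟩ := hs
    have hadj : ∀ v v', phiC gr z v ∈ s → phiC gr z v' ∈ s → v ≠ v' → fadj gr z v v' = true := by
      intro v v' hv hv' hne
      rw [← adj_encC]
      exact hcl hv hv' (fun h => hne ((phiC gr z).injective h))
    have hne : ∀ v v', fadj gr z v v' = true → gr v ≠ gr v' := by
      intro v v' h heq
      simp [fadj, heq] at h
    have hinj : Set.InjOn (fun w => gr ((phiC gr z).symm w)) (s : Set (Fin (cliqueN (encC gr z)))) := by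
      intro w hw w' hw' heq
      by_contra hww
      have := hadj ((phiC gr z).symm w) ((phiC gr z).symm w') (by simpa using hw)
        (by simpa using hw') (fun h => hww ((phiC gr z).symm.injective h))
      exact hne _ _ this heq
    have himg : s.image (fun w => gr ((phiC gr z).symm w)) = Finset.univ := by
      apply Finset.eq_univ_of_card
      rw [Finset.card_image_of_injOn hinj, hcard, Fintype.card_fin]
    have hex : ∀ i : Fin k, ∃ v, phiC gr z v ∈ s ∧ gr v = i := by
      intro i
      have : i ∈ s.image (fun w => gr ((phiC gr z).symm w)) := by rw [himg]; exact Finset.mem_univ i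
      rw [Finset.mem_image] at this
      obtain ⟨w, hw, h⟩ := this
      exact ⟨(phiC gr z).symm w, by simpa using hw, h⟩
    choose u hu1 hu2 using hex
    refine ⟨u, hu2, ?_⟩
    intro i i' hii'
    have hne' : u i ≠ u i' := by
      intro h; rw [← hu2 i, ← hu2 i', h] at hii'; exact lt_irrefl _ hii'
    have := hadj _ _ (hu1 i) (hu1 i') hne'
    simpa [fadj, hu2, hii'] using this
  · rintro ⟨u, hu1, hu2⟩
    have hinj : Function.Injective (fun i => phiC gr z (u i)) := by
      intro i i' h
      have := (phiC gr z).injective h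
      rw [← hu1 i, ← hu1 i', this]
    refine ⟨Finset.univ.image (fun i => phiC gr z (u i)), ?_⟩
    rw [SimpleGraph.isNClique_iff]
    constructor
    · intro w hw w' hw' hne
      simp only [Finset.coe_image, Finset.coe_univ, Set.image_univ, Set.mem_range] at hw hw'
      obtain ⟨i, rfl⟩ := hw
      obtain ⟨i', rfl⟩ := hw'
      rw [adj_encC]
      rcases lt_trichotomy i i' with h | h | h
      · simp [fadj, hu1, h, hu2 i i' h]
      · subst h; exact absurd rfl hne
      · simp [fadj, hu1, h, not_lt.mpr h.le, hu2 i' i h]
    · rw [Finset.card_image_of_injective _ hinj, Finset.card_univ, Fintype.card_fin]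

end

end Pool.Agent.H592R2
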