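import Pool.Agent.H592R2.Fml

/-! p-CLIQUE and p-log-SAT(Gamma_{1,d}) as parameterized problems over binary strings. -/

namespace Pool.Agent.H592R2

open Classical

noncomputable section

/-- the `p`-th bit of `x` (`false` beyond the end) -/
def bitN {n : ℕ} (x : Fin n → Bool) (p : ℕ) : Bool := if h : p < n then x ⟨p, h⟩ else false

lemma exists_bitN_false {n : ℕ} (x : Fin n → Bool) : ∃ p, bitN x p = false :=
  ⟨n, by simp [bitN]⟩

/-- number of leading ones of `x` -/
def lead {n : ℕ} (x : Fin n → Bool) : ℕ := Nat.find (exists_bitN_false x)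

/-- number of vertices of the graph encoded by `x = 1^k 0 y`: the largest `N` with `N^2 ≤ |y|` -/
def cliqueN {n : ℕ} (x : Fin n → Bool) : ℕ := Nat.sqrt (n - (lead x + 1))

/-- the graph encoded by `x = 1^k 0 y`: for `i < j < N`, there is an edge between `i` and `j` iff
bit number `i * N + j` of `y` is one -/
def cliqueGraph {n : ℕ} (x : Fin n → Bool) : SimpleGraph (Fin (cliqueN x)) where
  Adj i j := (i < j ∧ bitN x (lead x + 1 + (i.val * cliqueN x + j.val)) = true) ∨
    (j < i ∧ bitN x (lead x + 1 + (j.val * cliqueN x + i.val)) = true)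
  symm := ⟨fun _ _ h => h.symm⟩
  loopless := ⟨fun i h => by rcases h with h | h <;> exact lt_irrefl _ h.1⟩

/-- p-CLIQUE: the string `1^k 0 y` encodes a graph and `k`; is there a clique on `k` vertices? -/
def pCLIQUE : ParamProblem where
  Q := fun _ x => ¬ (cliqueGraph x).CliqueFree (lead x)
  κ := fun _ x => lead x

/-- number of clause rows, and number of propositional variables, of a string of length `m`:
the largest `s` with `2 * s^2 ≤ m` -/
def satN (m : ℕ) : ℕ := Nat.sqrt (m / 2)

/-- the set of literals of clause row `i` of the string `x`; the literal `(j, true)` is the variable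
`X_j` and `(j, false)` is its negation (clause-literal incidence matrix with `s` rows and `2 s`
columns) -/
def clauseRow {m : ℕ} (x : Fin m → Bool) (i : Fin (satN m)) : Finset (Fin (satN m) × Bool) :=
  Finset.univ.filter (fun l =>
    bitN x (i.val * (2 * satN m) + (2 * l.1.val + (if l.2 then 0 else 1))) = true)

/-- the set of propositional variables that occur in the encoded formula -/
def occVars {m : ℕ} (x : Fin m → Bool) : Finset (Fin (satN m)) :=
  Finset.univ.filter (fun j => ∃ i b, (j, b) ∈ clauseRow x i)

/-- the size of the encoded formula: the number of occurrences of literals -/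
def cnfSize {m : ℕ} (x : Fin m → Bool) : ℕ := ∑ i, (clauseRow x i).card

/-- p-log-SAT(Gamma_{1,d}): the string encodes a CNF formula (the conjunction of the clauses given
by its nonempty rows); is it a CNF with at most `d` literals per clause, and satisfiable? The
parameter is `⌈n / log₂ m⌉`, where `n` is the number of variables that occur and `m` is the size
(and `n` itself in the degenerate case `m ≤ 1`, where `n ≤ 1`). -/
def pLogSAT (d : ℕ) : ParamProblem where
  Q := fun m x => (∀ i, (clauseRow x i).card ≤ d) ∧
    ∃ a : Fin (satN m) → Bool, ∀ i, (clauseRow x i).Nonempty → ∃ l ∈ clauseRow x i, a l.1 = l.2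
  κ := fun _ x => if cnfSize x ≤ 1 then (occVars x).card
    else ⌈((occVars x).card : ℝ) / Real.logb 2 (cnfSize x)⌉₊

/-- W[1] with respect to (nonuniform) para-AC0 reductions -/
def W1AC0 : Set ParamProblem := {P | ParaAC0Red P pCLIQUE}

/-- M[1] with respect to (nonuniform) para-AC0 reductions -/
def M1AC0 : Set ParamProblem := {P | ∃ d : ℕ, 1 ≤ d ∧ ParaAC0Red P (pLogSAT d)}

end

end Pool.Agent.H592R2
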