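import Pool.Agent.H592R2.DefsM1

/-! Circuits, depth, weft, and the weighted satisfiability problems p-WSAT(C_{t,d}). -/

namespace Pool.Agent.H592R2

open Classical

noncomputable section

/-- the kinds of gates: inputs, NOT, AND, OR -/
inductive Kind
  | inp | neg | conj | disj

/-- a (single-output) circuit with set of gates `G`; `wire j i` says that gate `j` is one of the
inputs of gate `i` -/
structure Ckt (G : Type) where
  kind : G → Kind
  wire : G → G → Prop
  out : G

namespace Ckt

variable {G : Type} [Fintype G] (C : Ckt G)

/-- the gates that feed gate `i` -/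
def ins (i : G) : Finset G := Finset.univ.filter (fun j => C.wire j i)

/-- fan-ins: inputs have none, NOT gates have one, AND and OR gates have at least one -/
def WF : Prop := ∀ i,
  (C.kind i = Kind.inp → (C.ins i).card = 0) ∧
  (C.kind i = Kind.neg → (C.ins i).card = 1) ∧
  (C.kind i = Kind.conj ∨ C.kind i = Kind.disj → 1 ≤ (C.ins i).card)

/-- an AND or OR gate is large if its fan-in is more than two -/
def Large (i : G) : Prop := (C.kind i = Kind.conj ∨ C.kind i = Kind.disj) ∧ 2 < (C.ins i).card

/-- there is a path of length `l` with `w` large gates from an input to gate `i` -/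
inductive PathTo : G → ℕ → ℕ → Prop
  | start (i : G) : C.kind i = Kind.inp → PathTo i 0 0
  | step (j i : G) (l w : ℕ) : PathTo j l w → C.wire j i →
      PathTo i (l + 1) (if C.Large i then w + 1 else w)

/-- weft at most `t` and depth at most `d` -/
def InC (t d : ℕ) : Prop := ∀ l w, C.PathTo C.out l w → w ≤ t ∧ l ≤ d

/-- `v` is the family of truth values of the gates, for some assignment to the inputs -/
def IsVal (v : G → Prop) : Prop := ∀ i,
  (C.kind i = Kind.neg → (v i ↔ ¬ ∃ j, C.wire j i ∧ v j)) ∧
  (C.kind i = Kind.conj → (v i ↔ ∀ j, C.wire j i → v j)) ∧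
  (C.kind i = Kind.disj → (v i ↔ ∃ j, C.wire j i ∧ v j))

/-- some assignment with exactly `k` true inputs satisfies the circuit -/
def Sat (k : ℕ) : Prop := ∃ v : G → Prop, C.IsVal v ∧
  (Finset.univ.filter (fun i => C.kind i = Kind.inp ∧ v i)).card = k ∧ v C.out

end Ckt

/-- the circuits encoded by strings `1^k 0 y` of length `n` have `gN n k + 1` gates:
`gN n k + 1` is the largest `M ≥ 1` with `M * (M + 2) ≤ |y|` (or `1` if there is none) -/
def gN (n k : ℕ) : ℕ := Nat.sqrt (n - (k + 1) + 1) - 2

/-- kind of a gate given by two bits -/
def kindOf : Bool → Bool → Kind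
  | false, false => Kind.inp
  | true, false => Kind.neg
  | false, true => Kind.conj
  | true, true => Kind.disj

/-- the circuit encoded by the string `x = 1^k 0 y`: with `M` gates, `y` is read as a matrix with
`M` rows and `M + 2` columns; for `j < i` the entry `(i, j)` tells whether gate `j` feeds gate `i`,
the last two entries of row `i` give the kind of gate `i`; the last gate is the output. -/
def circOf {n : ℕ} (x : Fin n → Bool) (k : ℕ) : Ckt (Fin (gN n k + 1)) where
  kind i := kindOf (bitN x (k + 1 + (i.val * (gN n k + 3) + (gN n k + 1))))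
    (bitN x (k + 1 + (i.val * (gN n k + 3) + (gN n k + 2))))
  wire j i := j < i ∧ bitN x (k + 1 + (i.val * (gN n k + 3) + j.val)) = true
  out := Fin.last _

/-- p-WSAT(C_{t,d}): the string `1^k 0 y` encodes a circuit of weft at most `t` and depth at most
`d` that has a satisfying assignment of weight exactly `k`; the parameter is `k` -/
def pWSAT (t d : ℕ) : ParamProblem where
  Q := fun _ x => (circOf x (lead x)).WF ∧ (circOf x (lead x)).InC t d ∧
    (circOf x (lead x)).Sat (lead x)
  κ := fun _ x => lead x

/-- W[t] with respect to (nonuniform) para-AC0 reductions -/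
def WAC0 (t : ℕ) : Set ParamProblem := {P | ∃ d : ℕ, 1 ≤ d ∧ ParaAC0Red P (pWSAT t d)}

end

end Pool.Agent.H592R2
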