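import Pool.Agent.H592R2.Phase1W

set_option linter.unusedSectionVars false

/-! Phase 1: the embedding of the reduced bits. -/

namespace Pool.Agent.H592R2

open Finset Classical Filter

noncomputable section

variable {D k s b b2 B : ℕ} {τ : Type} [Fintype τ] [Nonempty τ] [DecidableEq τ] [NeZero B]

/-- edges of the tree -/
abbrev EE (b b2 B : ℕ) : Type := Fin b × (Fin b2 × Fin B)

/-- index of the reduced bit read by a pair of vertices -/
def idx (i0 : (Lv (EE b b2 B) s × (Fin b × Fin b2)) × Fin k)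
    (v v' : Vt k (Fin B) (EE b b2 B) (s + 1)) :
    (Lv (EE b b2 B) s × (Fin b × Fin b2)) × Fin k :=
  match v, v' with
  | .inr c, .inl w => ((c.1, (c.2.1, c.2.2.1)), w.1)
  | _, _ => i0

/-- the input of the restricted instance given the reduced bits -/
def zq (us : Fin k → Fin B) (sel : Lv (EE b b2 B) s → Fin b × Fin b2 → Fin B)
    (q : (Lv (EE b b2 B) s × (Fin b × Fin b2)) × Fin k → Bool)
    (v v' : Vt k (Fin B) (EE b b2 B) (s + 1)) : Bool :=
  match v, v' with
  | .inl w, .inl w' => decide (w.2 = us w.1 ∧ w'.2 = us w'.1)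
  | .inr c, .inl w => if c.2.2.2 = sel c.1 (c.2.1, c.2.2.1)
      then q ((c.1, (c.2.1, c.2.2.1)), w.1) else true
  | _, .inr _ => false

theorem emb_junta {A : Finset τ} {S : ℕ} {ω : Crd D (Vt k (Fin B) (EE b b2 B) (s + 1)) → τ}
    (i0 : (Lv (EE b b2 B) s × (Fin b × Fin b2)) × Fin k)
    (us : Fin k → Fin B) (sel : Lv (EE b b2 B) s → Fin b × Fin b2 → Fin B)
    {G : (Vt k (Fin B) (EE b b2 B) (s + 1) → Vt k (Fin B) (EE b b2 B) (s + 1) → Bool) → Prop}
    (h : LocAt A S D ω G) : Jn (S ^ 2) (fun q => G (zq us sel q)) := by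
  obtain ⟨K, hK1, -, hK2⟩ := h
  refine ⟨(K ×ˢ K).image (fun p => idx i0 p.1 p.2), ?_, ?_⟩
  · refine Finset.card_image_le.trans ?_
    rw [Finset.card_product, pow_two]
    exact Nat.mul_le_mul hK1.le hK1.le
  · intro q q' hqq'
    apply hK2
    intro v hv v' hv'
    have h1 : q (idx i0 v v') = q' (idx i0 v v') :=
      hqq' _ (Finset.mem_image.mpr ⟨(v, v'), Finset.mem_product.mpr ⟨hv, hv'⟩, rfl⟩)
    rcases v with w | c <;> rcases v' with w' | c' <;> simp only [zq]
    simp only [idx] at h1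
    rw [h1]

theorem emb_correct {A Mi : Finset τ} {ω : Crd D (Vt k (Fin B) (EE b b2 B) (s + 1)) → τ}
    (hk : 1 ≤ k) (sel : Lv (EE b b2 B) s → Fin b × Fin b2 → Fin B)
    (hcol : ∀ i : Fin k, ∃ j : Fin B, Al A D ω (Sum.inl (i, j)))
    (hsel : ∀ (c : Lv (EE b b2 B) s) (p : Fin b × Fin b2),
      Al A D ω (Sum.inr ((c, (p.1, (p.2, sel c p))) : Lv (EE b b2 B) (s + 1))))
    (h1 : ¬ bad1 Mi (pick (Al A D ω)) ω) (h2 : ¬ bad2 Mi (pick (Al A D ω)) ω)
    (q : (Lv (EE b b2 B) s × (Fin b × Fin b2)) × Fin k → Bool) :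
    SrcSat (s + 1) (rho A Mi majW D ω (zq (pick (Al A D ω)) sel q)) ↔
      ¬ SipP s (fun c => ∃ e : Fin b × Fin b2, ¬ ∃ i, q ((c, e), i) = true) := by
  set us := pick (Al A D ω) with hus
  have husal : ∀ i, Al A D ω (Sum.inl (i, us i)) := fun i => pick_spec (hcol i)
  set Z := rho A Mi majW D ω (zq us sel q) with hZ
  -- pairs of columns
  have hpair : ∀ i i' j j', Z (Sum.inl (i, j)) (Sum.inl (i', j')) = true →
      (j = us i ∧ j' = us i') ∨ ω (Sum.inr (Sum.inl (i, j), Sum.inl (i', j'))) ∈ Mi := by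
    intro i i' j j' h
    rw [hZ] at h
    unfold rho at h
    split_ifs at h with hal
    · left
      simpa [zq] using h
    · right
      simpa [rv, majW] using h
  have hpair' : ∀ i i', Z (Sum.inl (i, us i)) (Sum.inl (i', us i')) = true := by
    intro i i'
    rw [hZ]
    unfold rho
    rw [if_pos ⟨husal i, husal i'⟩]
    simp [zq]
  -- leaves
  have hleaf : ∀ (c : Lv (EE b b2 B) s) (e : EE b b2 B),
      (¬ ∃ i, Z (Sum.inr ((c, e) : Lv (EE b b2 B) (s + 1))) (Sum.inl (i, us i)) = true) ↔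
        e.2.2 = sel c (e.1, e.2.1) ∧ ¬ ∃ i, q ((c, (e.1, e.2.1)), i) = true := by
    intro c e
    by_cases hal : Al A D ω (Sum.inr ((c, e) : Lv (EE b b2 B) (s + 1)))
    · have hz : ∀ i, Z (Sum.inr ((c, e) : Lv (EE b b2 B) (s + 1))) (Sum.inl (i, us i)) =
          if e.2.2 = sel c (e.1, e.2.1) then q ((c, (e.1, e.2.1)), i) else true := by
        intro i
        rw [hZ]
        unfold rho
        rw [if_pos ⟨hal, husal i⟩]
        rfl
      simp only [hz]
      by_cases he : e.2.2 = sel c (e.1, e.2.1)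
      · simp only [if_pos he]
        simp only [he, true_and]
      · simp only [if_neg he, he, false_and, iff_false, not_not]
        exact ⟨⟨0, hk⟩, rfl⟩
    · have he : e.2.2 ≠ sel c (e.1, e.2.1) := by
        intro he
        apply hal
        have := hsel c (e.1, e.2.1)
        rw [← he] at this
        exact this
      simp only [he, false_and, iff_false, not_not]
      by_contra hno
      apply h2
      refine ⟨((c, e) : Lv (EE b b2 B) (s + 1)), ?_⟩
      intro i
      by_contra hi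
      apply hno
      refine ⟨i, ?_⟩
      rw [hZ]
      unfold rho
      rw [if_neg (fun h => hal h.1)]
      simp [rv, majW, hi]
  have hsip : SipP (s + 1) (fun c : Lv (EE b b2 B) (s + 1) =>
      ∃ i, Z (Sum.inr c) (Sum.inl (i, us i)) = true) ↔
      SipP s (fun c => ∃ e : Fin b × Fin b2, ¬ ∃ i, q ((c, e), i) = true) := by
    change SipP s (fun c => ∃ e, ¬ ∃ i, Z (Sum.inr ((c, e) : Lv (EE b b2 B) (s + 1)))
      (Sum.inl (i, us i)) = true) ↔ _
    apply SipP_congr
    intro c
    constructor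
    · rintro ⟨e, he⟩
      obtain ⟨-, h⟩ := (hleaf c e).1 he
      exact ⟨(e.1, e.2.1), h⟩
    · rintro ⟨p, hp⟩
      exact ⟨(p.1, (p.2, sel c p)), (hleaf c _).2 ⟨rfl, hp⟩⟩
  constructor
  · rintro ⟨u, hu1, hu2⟩
    have : u = us := by
      by_contra hne
      apply h1
      refine ⟨u, hne, ?_⟩
      intro i i' hii' hor
      rcases hpair i i' _ _ (hu1 i i' hii') with ⟨h3, h4⟩ | h3
      · rcases hor with h5 | h5
        · exact absurd h3 h5
        · exact absurd h4 h5
      · exact h3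
    subst this
    rw [← hsip]
    exact hu2
  · intro h
    refine ⟨us, fun i i' _ => hpair' i i', ?_⟩
    rw [hsip]
    exact h

end

end Pool.Agent.H592R2
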