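import Mathlib

/-! Unbounded fan-in formulas, parameterized problems, para-AC0 reductions. -/

namespace Pool.Agent.H592R2

/-- Boolean formulas in `n` input bits with AND and OR gates of arbitrary finite fan-in; negations
occur only at the leaves: `lit i b` is the literal `x_i` (if `b = true`) or `¬ x_i`
(if `b = false`). -/
inductive Fml (n : ℕ) : Type
  | lit (i : Fin n) (b : Bool) : Fml n
  | and (m : ℕ) (f : Fin m → Fml n) : Fml n
  | or (m : ℕ) (f : Fin m → Fml n) : Fml n

namespace Fml

variable {n : ℕ}

/-- truth of a formula under an input -/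
def Holds (x : Fin n → Bool) : Fml n → Prop
  | lit i b => x i = b
  | and _ f => ∀ j, (f j).Holds x
  | or _ f => ∃ j, (f j).Holds x

/-- depth: maximal number of nested gates -/
def depth : Fml n → ℕ
  | lit _ _ => 0
  | and _ f => (Finset.univ.sup fun j => (f j).depth) + 1
  | or _ f => (Finset.univ.sup fun j => (f j).depth) + 1

/-- size: number of gates and leaves -/
def size : Fml n → ℕ
  | lit _ _ => 1
  | and _ f => (∑ j, (f j).size) + 1
  | or _ f => (∑ j, (f j).size) + 1

/-- negation by De Morgan -/
def neg : Fml n → Fml n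
  | lit i b => lit i (!b)
  | and m f => or m fun j => (f j).neg
  | or m f => and m fun j => (f j).neg

@[simp] lemma holds_lit (x : Fin n → Bool) (i : Fin n) (b : Bool) :
    (lit i b).Holds x ↔ x i = b := Iff.rfl
@[simp] lemma holds_and (x : Fin n → Bool) (m : ℕ) (f : Fin m → Fml n) :
    (and m f).Holds x ↔ ∀ j, (f j).Holds x := Iff.rfl
@[simp] lemma holds_or (x : Fin n → Bool) (m : ℕ) (f : Fin m → Fml n) :
    (or m f).Holds x ↔ ∃ j, (f j).Holds x := Iff.rfl

@[simp] lemma holds_neg (x : Fin n → Bool) (φ : Fml n) : φ.neg.Holds x ↔ ¬ φ.Holds x := by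
  induction φ with
  | lit i b => cases b <;> simp [neg]
  | and m f ih => simp [neg, ih]
  | or m f ih => simp [neg, ih]

@[simp] lemma depth_neg (φ : Fml n) : φ.neg.depth = φ.depth := by
  induction φ with
  | lit i b => rfl
  | and m f ih => simp [neg, depth, ih]
  | or m f ih => simp [neg, depth, ih]

@[simp] lemma size_neg (φ : Fml n) : φ.neg.size = φ.size := by
  induction φ with
  | lit i b => rfl
  | and m f ih => simp [neg, size, ih]
  | or m f ih => simp [neg, size, ih]

lemma one_le_size (φ : Fml n) : 1 ≤ φ.size := by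
  cases φ <;> simp [size]

end Fml

/-- A parameterized problem over `{0,1}`: a set `Q` of strings and a parameterization `κ`. -/
structure ParamProblem where
  Q : ∀ n : ℕ, (Fin n → Bool) → Prop
  κ : ∀ n : ℕ, (Fin n → Bool) → ℕ

open Classical in
/-- the string computed by a tuple of formulas -/
noncomputable def applyF {n m : ℕ} (out : Fin m → Fml n) (x : Fin n → Bool) : Fin m → Bool :=
  fun i => decide ((out i).Holds x)

/-- Nonuniform para-AC0 many-one reductions: for every length `n` and parameter `k` there is a
tuple of AND/OR-formulas of depth at most `D` and size at most `f k * (n+1)^c` computing the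
reduction on all inputs of length `n` and parameter `k`; the parameter of the output is bounded
by `g k`. -/
def ParaAC0Red (P P' : ParamProblem) : Prop :=
  ∃ (D c : ℕ) (f g : ℕ → ℕ), ∀ n k : ℕ, ∃ (m : ℕ) (out : Fin m → Fml n),
    m ≤ f k * (n + 1) ^ c ∧
    (∀ i, (out i).depth ≤ D ∧ (out i).size ≤ f k * (n + 1) ^ c) ∧
    ∀ x : Fin n → Bool, P.κ n x = k →
      (P.Q n x ↔ P'.Q m (applyF out x)) ∧ P'.κ m (applyF out x) ≤ g k

end Pool.Agent.H592R2
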