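import Pool.Agent.H592R2.DefsM1

/-! Tools to build formulas. -/

namespace Pool.Agent.H592R2

open Classical

noncomputable section

variable {n : ℕ}

/-- conjunction over a finite type -/
def andF {ι : Type} [Fintype ι] (f : ι → Fml n) : Fml n :=
  Fml.and (Fintype.card ι) (fun j => f ((Fintype.equivFin ι).symm j))

/-- disjunction over a finite type -/
def orF {ι : Type} [Fintype ι] (f : ι → Fml n) : Fml n :=
  Fml.or (Fintype.card ι) (fun j => f ((Fintype.equivFin ι).symm j))

@[simp] lemma holds_andF {ι : Type} [Fintype ι] (f : ι → Fml n) (x : Fin n → Bool) :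
    (andF f).Holds x ↔ ∀ i, (f i).Holds x := by
  simp only [andF, Fml.holds_and]
  constructor
  · intro h i
    have := h (Fintype.equivFin ι i)
    simpa using this
  · intro h j; exact h _

@[simp] lemma holds_orF {ι : Type} [Fintype ι] (f : ι → Fml n) (x : Fin n → Bool) :
    (orF f).Holds x ↔ ∃ i, (f i).Holds x := by
  simp only [orF, Fml.holds_or]
  constructor
  · rintro ⟨j, h⟩; exact ⟨_, h⟩
  · rintro ⟨i, h⟩; exact ⟨Fintype.equivFin ι i, by simpa using h⟩

lemma depth_andF_le {ι : Type} [Fintype ι] {f : ι → Fml n} {d : ℕ} (h : ∀ i, (f i).depth ≤ d) :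
    (andF f).depth ≤ d + 1 := by
  simp only [andF, Fml.depth]
  exact Nat.succ_le_succ (Finset.sup_le fun j _ => h _)

lemma depth_orF_le {ι : Type} [Fintype ι] {f : ι → Fml n} {d : ℕ} (h : ∀ i, (f i).depth ≤ d) :
    (orF f).depth ≤ d + 1 := by
  simp only [orF, Fml.depth]
  exact Nat.succ_le_succ (Finset.sup_le fun j _ => h _)

lemma size_andF {ι : Type} [Fintype ι] (f : ι → Fml n) :
    (andF f).size = ∑ i, (f i).size + 1 := by
  simp only [andF, Fml.size]
  congr 1
  exact Equiv.sum_comp (Fintype.equivFin ι).symm (fun i => (f i).size)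

lemma size_orF {ι : Type} [Fintype ι] (f : ι → Fml n) :
    (orF f).size = ∑ i, (f i).size + 1 := by
  simp only [orF, Fml.size]
  congr 1
  exact Equiv.sum_comp (Fintype.equivFin ι).symm (fun i => (f i).size)

lemma size_andF_le {ι : Type} [Fintype ι] {f : ι → Fml n} {s : ℕ} (h : ∀ i, (f i).size ≤ s) :
    (andF f).size ≤ Fintype.card ι * s + 1 := by
  rw [size_andF]
  have := Finset.sum_le_card_nsmul Finset.univ (fun i => (f i).size) s (fun i _ => h i)
  rw [Finset.card_univ, smul_eq_mul] at this
  omega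

lemma size_orF_le {ι : Type} [Fintype ι] {f : ι → Fml n} {s : ℕ} (h : ∀ i, (f i).size ≤ s) :
    (orF f).size ≤ Fintype.card ι * s + 1 := by
  rw [size_orF]
  have := Finset.sum_le_card_nsmul Finset.univ (fun i => (f i).size) s (fun i _ => h i)
  rw [Finset.card_univ, smul_eq_mul] at this
  omega

/-- the constant false -/
def falseF : Fml n := Fml.or 0 Fin.elim0
/-- the constant true -/
def trueF : Fml n := Fml.and 0 Fin.elim0

@[simp] lemma holds_falseF (x : Fin n → Bool) : ¬ (falseF : Fml n).Holds x := by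
  rintro ⟨j, -⟩; exact j.elim0
@[simp] lemma holds_trueF (x : Fin n → Bool) : (trueF : Fml n).Holds x := fun j => j.elim0
lemma depth_falseF : (falseF : Fml n).depth = 1 := by simp [falseF, Fml.depth]
lemma depth_trueF : (trueF : Fml n).depth = 1 := by simp [trueF, Fml.depth]
lemma size_falseF : (falseF : Fml n).size = 1 := by simp [falseF, Fml.size]
lemma size_trueF : (trueF : Fml n).size = 1 := by simp [trueF, Fml.size]

/-- the `p`-th output bit -/
def bitF {m : ℕ} (out : Fin m → Fml n) (p : ℕ) : Fml n :=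
  if h : p < m then out ⟨p, h⟩ else falseF

lemma holds_bitF {m : ℕ} (out : Fin m → Fml n) (p : ℕ) (x : Fin n → Bool) :
    (bitF out p).Holds x ↔ bitN (applyF out x) p = true := by
  unfold bitF bitN
  split_ifs with h
  · simp [applyF]
  · simp

lemma depth_bitF_le {m D : ℕ} {out : Fin m → Fml n} (h : ∀ i, (out i).depth ≤ D) (p : ℕ) :
    (bitF out p).depth ≤ D + 1 := by
  unfold bitF
  split_ifs
  · exact (h _).trans (Nat.le_succ _)
  · rw [depth_falseF]; omega

lemma size_bitF_le {m s : ℕ} {out : Fin m → Fml n} (hs : 1 ≤ s) (h : ∀ i, (out i).size ≤ s)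
    (p : ℕ) : (bitF out p).size ≤ s := by
  unfold bitF
  split_ifs
  · exact h _
  · rw [size_falseF]; exact hs

end

end Pool.Agent.H592R2
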