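import Pool.Agent.H592R2.CliqueEnc

set_option linter.unusedSectionVars false

/-! Predicates on the output formula of a reduction to p-log-SAT. -/

namespace Pool.Agent.H592R2

open Finset Classical

noncomputable section

variable {n m : ℕ}

/-- literal `l` occurs in row `i` -/
def litF (out : Fin m → Fml n) (i : Fin (satN m)) (l : Fin (satN m) × Bool) : Fml n :=
  bitF out (i.val * (2 * satN m) + (2 * l.1.val + (if l.2 then 0 else 1)))

lemma holds_litF (out : Fin m → Fml n) (i : Fin (satN m)) (l : Fin (satN m) × Bool)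
    (x : Fin n → Bool) : (litF out i l).Holds x ↔ l ∈ clauseRow (applyF out x) i := by
  unfold litF clauseRow
  rw [holds_bitF]
  simp

/-- row `i` is exactly `C` -/
def eqRowF (out : Fin m → Fml n) (i : Fin (satN m)) (C : Finset (Fin (satN m) × Bool)) : Fml n :=
  andF (fun l : Fin (satN m) × Bool => if l ∈ C then litF out i l else (litF out i l).neg)

lemma holds_eqRowF (out : Fin m → Fml n) (i : Fin (satN m)) (C : Finset (Fin (satN m) × Bool))
    (x : Fin n → Bool) : (eqRowF out i C).Holds x ↔ clauseRow (applyF out x) i = C := by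
  unfold eqRowF
  rw [holds_andF]
  constructor
  · intro h
    ext l
    have := h l
    by_cases hl : l ∈ C
    · rw [if_pos hl, holds_litF] at this
      exact ⟨fun _ => hl, fun _ => this⟩
    · rw [if_neg hl, Fml.holds_neg, holds_litF] at this
      exact ⟨fun h => absurd h this, fun h => absurd h hl⟩
  · intro h l
    by_cases hl : l ∈ C
    · rw [if_pos hl, holds_litF, h]; exact hl
    · rw [if_neg hl, Fml.holds_neg, holds_litF, h]; exact hl

/-- some row is exactly `C` -/
def PF (out : Fin m → Fml n) (C : Finset (Fin (satN m) × Bool)) : Fml n :=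
  orF (fun i => eqRowF out i C)

lemma holds_PF (out : Fin m → Fml n) (C : Finset (Fin (satN m) × Bool)) (x : Fin n → Bool) :
    (PF out C).Holds x ↔ ∃ i, clauseRow (applyF out x) i = C := by
  unfold PF; simp only [holds_orF, holds_eqRowF]

/-- variable `j` occurs -/
def usedF (out : Fin m → Fml n) (j : Fin (satN m)) : Fml n :=
  orF (fun p : Fin (satN m) × Bool => litF out p.1 (j, p.2))

lemma holds_usedF (out : Fin m → Fml n) (j : Fin (satN m)) (x : Fin n → Bool) :
    (usedF out j).Holds x ↔ j ∈ occVars (applyF out x) := by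
  unfold usedF occVars
  simp only [holds_orF, holds_litF, Finset.mem_filter, Finset.mem_univ, true_and, Prod.exists]

/-- all rows have at most `d` literals -/
def WF (out : Fin m → Fml n) (d : ℕ) : Fml n :=
  andF (fun i : Fin (satN m) => andF (fun t : Fin (d + 1) → Fin (satN m) × Bool =>
    if Function.Injective t then orF (fun a : Fin (d + 1) => (litF out i (t a)).neg) else trueF))

lemma card_le_iff {α : Type} (C : Finset α) (d : ℕ) :
    C.card ≤ d ↔ ∀ t : Fin (d + 1) → α, Function.Injective t → ∃ a, t a ∉ C := by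
  constructor
  · intro h t ht
    by_contra hc
    push Not at hc
    have h1 : (Finset.univ.map ⟨t, ht⟩) ⊆ C := by
      intro y hy
      rw [Finset.mem_map] at hy
      obtain ⟨a, -, rfl⟩ := hy
      exact hc a
    have h2 := Finset.card_le_card h1
    rw [Finset.card_map, Finset.card_univ, Fintype.card_fin] at h2
    omega
  · intro h
    by_contra hc
    push Not at hc
    have h1 : Fintype.card (Fin (d + 1)) ≤ Fintype.card C := by
      rw [Fintype.card_fin, Fintype.card_coe]; exact hc
    obtain ⟨e⟩ := Function.Embedding.nonempty_of_card_le h1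
    obtain ⟨a, ha⟩ := h (fun a => (e a).1) (fun a a' haa' => e.injective (Subtype.ext haa'))
    exact ha (e a).2

lemma holds_WF (out : Fin m → Fml n) (d : ℕ) (x : Fin n → Bool) :
    (WF out d).Holds x ↔ ∀ i, (clauseRow (applyF out x) i).card ≤ d := by
  unfold WF
  simp only [holds_andF, card_le_iff]
  apply forall_congr'
  intro i
  apply forall_congr'
  intro t
  by_cases ht : Function.Injective t
  · simp [ht, holds_litF]
  · simp [ht]

section bounds
variable {D X : ℕ} {out : Fin m → Fml n}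

lemma satN_le (m : ℕ) : satN m ≤ m :=
  (Nat.sqrt_le_self _).trans (Nat.div_le_self _ _)

lemma depth_litF (hD : ∀ i, (out i).depth ≤ D) (i l) : (litF out i l).depth ≤ D + 1 :=
  depth_bitF_le hD _

lemma size_litF (hX1 : 1 ≤ X) (hX : ∀ i, (out i).size ≤ X) (i l) : (litF out i l).size ≤ X :=
  size_bitF_le hX1 hX _

lemma depth_PF (hD : ∀ i, (out i).depth ≤ D) (C) : (PF out C).depth ≤ D + 4 := by
  have h1 : ∀ i, (eqRowF out i C).depth ≤ D + 2 := by
    intro i
    apply depth_andF_le
    intro l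
    split_ifs
    · exact depth_litF hD i l
    · rw [Fml.depth_neg]; exact depth_litF hD i l
  exact (depth_orF_le h1).trans (by omega)

lemma size_PF (hX1 : 1 ≤ X) (hX : ∀ i, (out i).size ≤ X) (hm : m ≤ X) (C) :
    (PF out C).size ≤ 4 * X ^ 3 := by
  have hs := (satN_le m).trans hm
  have h1 : ∀ i, (eqRowF out i C).size ≤ 3 * X ^ 2 := by
    intro i
    have : (eqRowF out i C).size ≤ Fintype.card (Fin (satN m) × Bool) * X + 1 := by
      apply size_andF_le
      intro l
      split_ifs
      · exact size_litF hX1 hX i l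
      · rw [Fml.size_neg]; exact size_litF hX1 hX i l
    rw [Fintype.card_prod, Fintype.card_fin, Fintype.card_bool] at this
    have h2 : satN m * 2 * X ≤ X * 2 * X := Nat.mul_le_mul_right _ (Nat.mul_le_mul_right _ hs)
    have h3 : 1 ≤ X ^ 2 := Nat.one_le_pow _ _ hX1
    nlinarith
  have h2 := size_orF_le h1
  rw [Fintype.card_fin] at h2
  have h3 : satN m * (3 * X ^ 2) ≤ X * (3 * X ^ 2) := Nat.mul_le_mul_right _ hs
  have h4 : 1 ≤ X ^ 3 := Nat.one_le_pow _ _ hX1
  calc (PF out C).size ≤ satN m * (3 * X ^ 2) + 1 := h2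
    _ ≤ X * (3 * X ^ 2) + X ^ 3 := by omega
    _ = 4 * X ^ 3 := by ring

lemma depth_usedF (hD : ∀ i, (out i).depth ≤ D) (j) : (usedF out j).depth ≤ D + 4 :=
  (depth_orF_le (fun _ => depth_litF hD _ _)).trans (by omega)

lemma size_usedF (hX1 : 1 ≤ X) (hX : ∀ i, (out i).size ≤ X) (hm : m ≤ X) (j) :
    (usedF out j).size ≤ 4 * X ^ 3 := by
  have hs := (satN_le m).trans hm
  have h1 : (usedF out j).size ≤ Fintype.card (Fin (satN m) × Bool) * X + 1 :=
    size_orF_le (fun _ => size_litF hX1 hX _ _)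
  rw [Fintype.card_prod, Fintype.card_fin, Fintype.card_bool] at h1
  have h2 : satN m * 2 * X ≤ X * 2 * X := Nat.mul_le_mul_right _ (Nat.mul_le_mul_right _ hs)
  have h3 : 1 ≤ X ^ 2 := Nat.one_le_pow _ _ hX1
  have h4 : X ^ 2 ≤ X ^ 3 := Nat.pow_le_pow_right hX1 (by norm_num)
  nlinarith

lemma depth_WF (hD : ∀ i, (out i).depth ≤ D) (d : ℕ) : (WF out d).depth ≤ D + 4 := by
  unfold WF
  apply depth_andF_le
  intro i
  apply depth_andF_le
  intro t
  split_ifs
  · apply depth_orF_le
    intro a
    rw [Fml.depth_neg]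
    exact depth_litF hD i _
  · rw [depth_trueF]; omega

lemma size_WF (hX1 : 1 ≤ X) (hX : ∀ i, (out i).size ≤ X) (hm : m ≤ X) (d : ℕ) :
    (WF out d).size ≤ (d + 4) * (2 * X) ^ (d + 3) := by
  have hs := (satN_le m).trans hm
  have h1 : ∀ (i) (t : Fin (d + 1) → Fin (satN m) × Bool),
      (if Function.Injective t then orF (fun a : Fin (d + 1) => (litF out i (t a)).neg)
        else trueF).size ≤ (d + 1) * X + 1 := by
    intro i t
    split_ifs
    · have := size_orF_le (f := fun a : Fin (d + 1) => (litF out i (t a)).neg) (s := X)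
        (fun a => by rw [Fml.size_neg]; exact size_litF hX1 hX i _)
      rwa [Fintype.card_fin] at this
    · rw [size_trueF]; omega
  have h2 : ∀ i : Fin (satN m), (andF (fun t : Fin (d + 1) → Fin (satN m) × Bool =>
      if Function.Injective t then orF (fun a : Fin (d + 1) => (litF out i (t a)).neg)
        else trueF)).size ≤ (2 * X) ^ (d + 1) * ((d + 1) * X + 1) + 1 := by
    intro i
    refine (size_andF_le (h1 i)).trans ?_
    rw [Fintype.card_fun, Fintype.card_prod, Fintype.card_fin, Fintype.card_bool, Fintype.card_fin]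
    apply Nat.add_le_add_right
    apply Nat.mul_le_mul_right
    apply Nat.pow_le_pow_left
    omega
  have h3 := size_andF_le h2
  rw [Fintype.card_fin] at h3
  have hY : 1 ≤ (2 * X) ^ (d + 1) := Nat.one_le_pow _ _ (by omega)
  set Y := (2 * X) ^ (d + 1) with hYdef
  have h4 : (WF out d).size ≤ X * (Y * ((d + 1) * X + 1) + 1) + 1 :=
    h3.trans (Nat.add_le_add_right (Nat.mul_le_mul_right _ hs) 1)
  have h5 : (2 * X) ^ (d + 3) = Y * (4 * X ^ 2) := by rw [hYdef, pow_add (2 * X) (d + 1) 2]; ring
  rw [h5]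
  have hX2 : X ≤ X ^ 2 := by nlinarith
  have hXX : 1 ≤ X ^ 2 := Nat.one_le_pow _ _ hX1
  calc (WF out d).size ≤ X * (Y * ((d + 1) * X + 1) + 1) + 1 := h4
    _ = Y * (d + 1) * X ^ 2 + X * Y + X + 1 := by ring
    _ ≤ Y * (d + 1) * X ^ 2 + Y * X ^ 2 + Y * X ^ 2 + Y * X ^ 2 := by
        have a1 : X * Y ≤ Y * X ^ 2 := by rw [mul_comm]; exact Nat.mul_le_mul_left _ hX2
        have a2 : X ≤ Y * X ^ 2 := hX2.trans (Nat.le_mul_of_pos_left _ hY)
        have a3 : 1 ≤ Y * X ^ 2 := Nat.mul_pos hY hXX
        omega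
    _ = (d + 4) * (Y * X ^ 2) := by ring
    _ ≤ (d + 4) * (Y * (4 * X ^ 2)) := by
        apply Nat.mul_le_mul_left; apply Nat.mul_le_mul_left; omega

end bounds

lemma exists_image_eq {α : Type} [DecidableEq α] {C : Finset α} (hC : C.Nonempty) {d : ℕ}
    (h : C.card ≤ d) :
    ∃ t : Fin d → α, Finset.univ.image t = C := by
  have h1 : Fintype.card C ≤ Fintype.card (Fin d) := by
    rw [Fintype.card_fin, Fintype.card_coe]; exact h
  obtain ⟨e⟩ := Function.Embedding.nonempty_of_card_le h1
  have : Nonempty C := ⟨⟨hC.choose, hC.choose_spec⟩⟩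
  have hs := Function.invFun_surjective e.injective
  refine ⟨fun a => (Function.invFun e a).1, ?_⟩
  ext y
  simp only [Finset.mem_image, Finset.mem_univ, true_and]
  constructor
  · rintro ⟨a, rfl⟩; exact (Function.invFun e a).2
  · intro hy
    obtain ⟨a, ha⟩ := hs ⟨y, hy⟩
    exact ⟨a, by rw [ha]⟩

/-- satisfiability only depends on the set of rows -/
lemma Q_of_rows {d : ℕ} (y1 y2 : Fin m → Bool)
    (hW : (∀ i, (clauseRow y1 i).card ≤ d) → (∀ i, (clauseRow y2 i).card ≤ d))
    (hP : ∀ t : Fin d → Fin (satN m) × Bool, (∃ i, clauseRow y2 i = Finset.univ.image t) →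
      (∃ i, clauseRow y1 i = Finset.univ.image t)) :
    (pLogSAT d).Q m y1 → (pLogSAT d).Q m y2 := by
  rintro ⟨h1, a, ha⟩
  refine ⟨hW h1, a, ?_⟩
  intro i hi
  obtain ⟨t, ht⟩ := exists_image_eq hi (hW h1 i)
  obtain ⟨i', hi'⟩ := hP t ⟨i, ht.symm⟩
  have : (clauseRow y1 i').Nonempty := by rw [hi', ht]; exact hi
  obtain ⟨l, hl, hal⟩ := ha i' this
  rw [hi', ht] at hl
  exact ⟨l, hl, hal⟩

lemma cnfSize_le (y : Fin m → Bool) : cnfSize y ≤ m := by
  unfold cnfSize
  calc ∑ i, (clauseRow y i).card ≤ ∑ _i : Fin (satN m), 2 * satN m := by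
        apply Finset.sum_le_sum
        intro i _
        calc (clauseRow y i).card ≤ (Finset.univ : Finset (Fin (satN m) × Bool)).card :=
              Finset.card_le_univ _
          _ = 2 * satN m := by
              rw [Finset.card_univ, Fintype.card_prod, Fintype.card_fin, Fintype.card_bool,
                mul_comm]
    _ = 2 * (satN m * satN m) := by
        rw [Finset.sum_const, Finset.card_univ, Fintype.card_fin, smul_eq_mul]; ring
    _ ≤ 2 * (m / 2) := Nat.mul_le_mul_left _ (Nat.sqrt_le _)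
    _ ≤ m := Nat.mul_div_le _ _

/-- few variables occur in an instance of small parameter -/
lemma occVars_le {d g : ℕ} (y : Fin m → Bool) (h : (pLogSAT d).κ m y ≤ g) {Y : ℝ} (hY : (m : ℝ) ≤ Y) :
    ((occVars y).card : ℝ) ≤ g * (Real.logb 2 (Y + 2)) := by
  have hY2 : (1:ℝ) ≤ Real.logb 2 (Y + 2) := by
    have hm : (0:ℝ) ≤ m := Nat.cast_nonneg m
    calc (1:ℝ) = Real.logb 2 2 := (Real.logb_self_eq_one (by norm_num)).symm
      _ ≤ _ := Real.logb_le_logb_of_le (by norm_num) (by norm_num) (by linarith)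
  simp only [pLogSAT] at h
  split_ifs at h with h1
  · have : ((occVars y).card : ℝ) ≤ g := by exact_mod_cast h
    calc ((occVars y).card : ℝ) ≤ g * 1 := by linarith
      _ ≤ _ := mul_le_mul_of_nonneg_left hY2 (Nat.cast_nonneg _)
  · have h2 : ((occVars y).card : ℝ) / Real.logb 2 (cnfSize y) ≤ g := Nat.ceil_le.mp h
    have h3 : (2:ℝ) ≤ cnfSize y := by exact_mod_cast (by omega : 2 ≤ cnfSize y)
    have h4 : 0 < Real.logb 2 (cnfSize y) := Real.logb_pos (by norm_num) (by linarith)
    rw [div_le_iff₀ h4] at h2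
    refine h2.trans (mul_le_mul_of_nonneg_left ?_ (Nat.cast_nonneg _))
    apply Real.logb_le_logb_of_le (by norm_num) (by linarith)
    have : (cnfSize y : ℝ) ≤ m := by exact_mod_cast cnfSize_le y
    linarith

variable {V : Type} [Fintype V] [DecidableEq V]

/-- a satisfiable local function is true with probability at least `2^{-S²}` -/
lemma avg_local_ge {K : Finset V} {S : ℕ} (hK : K.card < S) {G : (V → V → Bool) → Prop}
    (hG : Loc K G) (z0 : V → V → Bool) (hz0 : G z0) :
    (1 / 2 : ℝ) ^ (S ^ 2) ≤ avg (fun q : V × V → Bool => ind (G (fun v v' => q (v, v')))) := by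
  calc (1 / 2 : ℝ) ^ (S ^ 2) ≤ (1 / 2 : ℝ) ^ (K ×ˢ K).card := by
        apply pow_le_pow_of_le_one (by norm_num) (by norm_num)
        rw [Finset.card_product, pow_two]
        exact Nat.mul_le_mul hK.le hK.le
    _ = avg (fun q : V × V → Bool => ind (∀ e ∈ K ×ˢ K, q e ∈ ({z0 e.1 e.2} : Finset Bool))) := by
        rw [avg_box (T := fun _ : V × V => Bool) (K ×ˢ K) (fun e => {z0 e.1 e.2})]
        simp
    _ ≤ _ := by
        apply avg_mono
        intro q
        apply ind_mono
        intro h
        refine hG z0 _ ?_ hz0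
        intro v hv v' hv'
        exact (Finset.mem_singleton.mp (h (v, v') (Finset.mem_product.mpr ⟨hv, hv'⟩))).symm

/-- few local functions are satisfiable if few hold simultaneously -/
lemma card_sat_le {s S : ℕ} {L : ℝ} (G : Fin s → (V → V → Bool) → Prop)
    (hloc : ∀ j, ∃ K : Finset V, K.card < S ∧ Loc K (G j))
    (hL : ∀ z, ((Finset.univ.filter (fun j => G j z)).card : ℝ) ≤ L) :
    ((Finset.univ.filter (fun j => ∃ z, G j z)).card : ℝ) ≤ L * 2 ^ (S ^ 2) := by
  set J := Finset.univ.filter (fun j => ∃ z, G j z) with hJ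
  have h1 : (J.card : ℝ) * (1 / 2 : ℝ) ^ (S ^ 2) ≤
      ∑ j ∈ J, avg (fun q : V × V → Bool => ind (G j (fun v v' => q (v, v')))) := by
    rw [← nsmul_eq_mul]
    apply Finset.card_nsmul_le_sum
    intro j hj
    obtain ⟨K, hK, hlK⟩ := hloc j
    obtain ⟨z0, hz0⟩ := (Finset.mem_filter.mp hj).2
    exact avg_local_ge hK hlK z0 hz0
  have h2 : ∑ j ∈ J, avg (fun q : V × V → Bool => ind (G j (fun v v' => q (v, v')))) ≤ L := by
    rw [← avg_sum]
    apply avg_le_of_le
    intro q
    refine le_trans ?_ (hL (fun v v' => q (v, v')))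
    calc ∑ j ∈ J, ind (G j (fun v v' => q (v, v'))) ≤
          ∑ j, ind (G j (fun v v' => q (v, v'))) :=
          Finset.sum_le_sum_of_subset_of_nonneg (Finset.subset_univ _) (fun _ _ _ => ind_nonneg _)
      _ = _ := by
          unfold ind
          rw [Finset.sum_ite, Finset.sum_const_zero, add_zero, Finset.sum_const, nsmul_eq_mul,
            mul_one]
  have h3 := h1.trans h2
  rw [one_div, inv_pow] at h3
  rwa [mul_inv_le_iff₀ (by positivity)] at h3

end

end Pool.Agent.H592R2
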