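import Pool.Agent.H592R2.M1Main

set_option linter.unusedSectionVars false

/-! Final assembly: p-CLIQUE has no para-AC0 reduction to p-log-SAT(Gamma_{1,d}). -/

namespace Pool.Agent.H592R2

open Finset Classical Filter

noncomputable section

lemma ev_log (G a : ℝ) (ha : 0 ≤ a) (hG : 0 ≤ G) (E d S : ℕ) :
    ∀ᶠ b : ℕ in atTop, (2 * (G * Real.logb 2 (a * (b : ℝ) ^ E + 2))) ^ d * S + S < (b : ℝ) := by
  set C1 : ℝ := Real.logb 2 (a + 2) + E with hC1
  set C : ℝ := (2 * (G * (C1 / Real.log 2))) ^ d * S + S with hC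
  have hlog2 : 0 < Real.log 2 := Real.log_pos (by norm_num)
  have hC1n : 0 ≤ C1 := by
    have : 0 ≤ Real.logb 2 (a + 2) := Real.logb_nonneg (by norm_num) (by linarith)
    positivity
  have hCn : 0 ≤ C := by positivity
  have hlo := (Real.isLittleO_pow_log_id_atTop (n := d)).def (c := 1 / (2 * (C + 1)))
    (by positivity)
  have hlo' := tendsto_natCast_atTop_atTop (R := ℝ) |>.eventually hlo
  filter_upwards [hlo', eventually_ge_atTop 3] with b hb hb3
  have hb3' : (3 : ℝ) ≤ b := by exact_mod_cast hb3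
  have hb0 : (0 : ℝ) < b := by linarith
  have hlogb : 1 ≤ Real.log b := by
    rw [Real.le_log_iff_exp_le hb0]
    have := Real.exp_one_lt_d9
    linarith
  have hbE : (1 : ℝ) ≤ (b : ℝ) ^ E := one_le_pow₀ (by linarith)
  have h1 : Real.logb 2 (a * (b : ℝ) ^ E + 2) ≤ C1 / Real.log 2 * Real.log b := by
    have e1 : a * (b : ℝ) ^ E + 2 ≤ (a + 2) * (b : ℝ) ^ E := by nlinarith
    have e2 : Real.logb 2 (a * (b : ℝ) ^ E + 2) ≤ Real.logb 2 ((a + 2) * (b : ℝ) ^ E) :=
      Real.logb_le_logb_of_le (by norm_num) (by positivity) e1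
    have e3 : Real.logb 2 ((a + 2) * (b : ℝ) ^ E) =
        Real.logb 2 (a + 2) + E * Real.logb 2 b := by
      rw [Real.logb_mul (by positivity) (by positivity), Real.logb_pow]
    have e4 : (1 : ℝ) ≤ Real.logb 2 b := by
      calc (1:ℝ) = Real.logb 2 2 := (Real.logb_self_eq_one (by norm_num)).symm
        _ ≤ _ := Real.logb_le_logb_of_le (by norm_num) (by norm_num) (by linarith)
    have e5 : 0 ≤ Real.logb 2 (a + 2) := Real.logb_nonneg (by norm_num) (by linarith)
    have e6 : Real.logb 2 (a + 2) + E * Real.logb 2 b ≤ C1 * Real.logb 2 b := by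
      rw [hC1, add_mul]
      have : Real.logb 2 (a + 2) ≤ Real.logb 2 (a + 2) * Real.logb 2 b := by nlinarith
      linarith
    calc _ ≤ _ := e2
      _ = _ := e3
      _ ≤ C1 * Real.logb 2 b := e6
      _ = C1 / Real.log 2 * Real.log b := by
          rw [← Real.log_div_log]; ring
  have h0 : 0 ≤ Real.logb 2 (a * (b : ℝ) ^ E + 2) := by
    apply Real.logb_nonneg (by norm_num)
    have : 0 ≤ a * (b : ℝ) ^ E := by positivity
    linarith
  have h2 : (2 * (G * Real.logb 2 (a * (b : ℝ) ^ E + 2))) ^ d ≤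
      (2 * (G * (C1 / Real.log 2))) ^ d * Real.log b ^ d := by
    rw [← mul_pow]
    apply pow_le_pow_left₀ (by positivity)
    calc 2 * (G * Real.logb 2 (a * (b : ℝ) ^ E + 2)) ≤
          2 * (G * (C1 / Real.log 2 * Real.log b)) := by
            apply mul_le_mul_of_nonneg_left _ (by norm_num)
            exact mul_le_mul_of_nonneg_left h1 hG
      _ = _ := by ring
  have h3 : (1:ℝ) ≤ Real.log b ^ d := one_le_pow₀ hlogb
  have h4 : (2 * (G * Real.logb 2 (a * (b : ℝ) ^ E + 2))) ^ d * S + S ≤ C * Real.log b ^ d := by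
    rw [hC, add_mul]
    have e1 := mul_le_mul_of_nonneg_right h2 (Nat.cast_nonneg (α := ℝ) S)
    have e2 : (S : ℝ) * 1 ≤ S * Real.log b ^ d := mul_le_mul_of_nonneg_left h3 (Nat.cast_nonneg S)
    linarith
  simp only [id, Real.norm_eq_abs] at hb
  rw [abs_of_nonneg (by positivity), abs_of_pos hb0] at hb
  calc _ ≤ C * Real.log b ^ d := h4
    _ ≤ C * (1 / (2 * (C + 1)) * b) := mul_le_mul_of_nonneg_left hb hCn
    _ = (C / (C + 1)) * (b / 2) := by field_simp
    _ ≤ 1 * (b / 2) := by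
        apply mul_le_mul_of_nonneg_right _ (by positivity)
        rw [div_le_one (by positivity)]; linarith
    _ < b := by linarith

lemma ev_exp (a : ℝ) : ∀ᶠ b : ℕ in atTop, a * b * Real.exp (-b) < 1 / 4 := by
  have h := (Real.tendsto_pow_mul_exp_neg_atTop_nhds_zero 1).comp (tendsto_natCast_atTop_atTop (R := ℝ))
  have h2 : Tendsto (fun b : ℕ => a * b * Real.exp (-(b:ℝ))) atTop (nhds 0) := by
    have := h.const_mul a
    simp only [mul_zero] at this
    refine this.congr ?_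
    intro b
    simp only [Function.comp, pow_one]
    ring
  exact h2.eventually_lt_const (by norm_num)

lemma ev_div (a : ℝ) : ∀ᶠ b : ℕ in atTop, a / b < 1 / 4 := by
  have h := tendsto_const_div_atTop_nhds_zero_nat a
  exact h.eventually_lt_const (by norm_num)

section
variable {D k b B : ℕ} {τ : Type} [Fintype τ] [Nonempty τ] [DecidableEq τ]

lemma card_pairs (k : ℕ) :
    2 * (Finset.univ.filter (fun p : Fin k × Fin k => p.1 < p.2)).card = k * k - k := by
  have h1 : (Finset.univ : Finset (Fin k)).offDiag =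
      (Finset.univ.filter (fun p : Fin k × Fin k => p.1 < p.2)) ∪
      (Finset.univ.filter (fun p : Fin k × Fin k => p.2 < p.1)) := by
    ext p
    simp only [Finset.mem_offDiag, Finset.mem_univ, true_and, Finset.mem_union, Finset.mem_filter]
    exact lt_or_lt_iff_ne.symm
  have h2 : (Finset.univ.filter (fun p : Fin k × Fin k => p.2 < p.1)).card =
      (Finset.univ.filter (fun p : Fin k × Fin k => p.1 < p.2)).card := by
    apply Finset.card_bij (fun p _ => (p.2, p.1))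
    · intro p hp; simpa using hp
    · intro p _ p' _ h
      simp only [Prod.mk.injEq] at h
      exact Prod.ext h.2 h.1
    · intro p hp
      exact ⟨(p.2, p.1), by simpa using hp, rfl⟩
  have h3 : (Finset.univ : Finset (Fin k)).offDiag.card = k * k - k := by
    rw [Finset.offDiag_card, Finset.card_univ, Fintype.card_fin]
  rw [← h3, h1, Finset.card_union_of_disjoint, h2]
  · ring
  · rw [Finset.disjoint_filter]
    intro p _ h h'
    exact absurd (h.trans h') (lt_irrefl _)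

lemma avg_noclique (A Mi : Finset τ) :
    avg (fun ω : Crd D (Vc k b B) → τ => ind (∃ u : Fin k → Vc k b B, (∀ i, grc (u i) = i) ∧
      ∀ i i', i < i' → rho A Mi maj0 D ω (fun _ _ => false) (u i) (u i') = true)) ≤
    ((b * B : ℕ) : ℝ) ^ k * ((Mi.card : ℝ) / Fintype.card τ) ^
      (Finset.univ.filter (fun p : Fin k × Fin k => p.1 < p.2)).card := by
  let Pw : (Fin k → Fin b × Fin B) → Finset (Vc k b B × Vc k b B) := fun w =>
    (Finset.univ.filter (fun p : Fin k × Fin k => p.1 < p.2)).image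
      (fun p => (((p.1, w p.1) : Vc k b B), ((p.2, w p.2) : Vc k b B)))
  have hPw : ∀ w, (Pw w).card = (Finset.univ.filter (fun p : Fin k × Fin k => p.1 < p.2)).card := by
    intro w
    apply Finset.card_image_of_injective
    intro p p' h
    simp only [Prod.mk.injEq] at h
    exact Prod.ext h.1.1 h.2.1
  calc _ ≤ avg (fun ω : Crd D (Vc k b B) → τ =>
        ∑ w : Fin k → Fin b × Fin B, ind (∀ q ∈ Pw w, ω (Sum.inr q) ∈ Mi)) := by
        apply avg_mono
        intro ω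
        refine le_trans (ind_mono ?_) (ind_exists_le Finset.univ _)
        rintro ⟨u, hu1, hu2⟩
        refine ⟨fun i => (u i).2, Finset.mem_univ _, ?_⟩
        intro q hq
        simp only [Pw, Finset.mem_image, Finset.mem_filter, Finset.mem_univ, true_and] at hq
        obtain ⟨p, hp, rfl⟩ := hq
        have e : ∀ i, ((i, (u i).2) : Vc k b B) = u i := by
          intro i
          exact Prod.ext (hu1 i).symm rfl
        rw [e, e]
        have := hu2 p.1 p.2 hp
        unfold rho rv maj0 at this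
        split_ifs at this
        simpa using this
    _ = ∑ w : Fin k → Fin b × Fin B, ((Mi.card : ℝ) / Fintype.card τ) ^
      (Finset.univ.filter (fun p : Fin k × Fin k => p.1 < p.2)).card := by
        rw [avg_sum]
        apply Finset.sum_congr rfl
        intro w _
        rw [avg_all_minority, hPw]
    _ = _ := by
        rw [Finset.sum_const, nsmul_eq_mul, Finset.card_univ, Fintype.card_fun, Fintype.card_prod,
          Fintype.card_fin, Fintype.card_fin, Fintype.card_fin]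
        push_cast
        ring

lemma avg_nosel (A : Finset τ) :
    avg (fun ω : Crd D (Vc k b B) → τ => ind (∃ (i : Fin k) (c : Fin b),
      ∀ j : Fin B, ¬ Al A D ω ((i, c, j) : Vc k b B))) ≤
    (k : ℝ) * b * (1 - ((A.card : ℝ) / Fintype.card τ) ^ D) ^ B := by
  calc _ ≤ avg (fun ω : Crd D (Vc k b B) → τ =>
        ∑ p : Fin k × Fin b, ind (∀ v ∈ Finset.univ.image (fun j : Fin B =>
          ((p.1, p.2, j) : Vc k b B)), ¬ Al A D ω v)) := by
        apply avg_mono
        intro ω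
        refine le_trans (ind_mono ?_) (ind_exists_le Finset.univ _)
        rintro ⟨i, c, h⟩
        refine ⟨(i, c), Finset.mem_univ _, ?_⟩
        intro v hv
        rw [Finset.mem_image] at hv
        obtain ⟨j, -, rfl⟩ := hv
        exact h j
    _ = ∑ p : Fin k × Fin b, (1 - ((A.card : ℝ) / Fintype.card τ) ^ D) ^ B := by
        rw [avg_sum]
        apply Finset.sum_congr rfl
        intro p _
        rw [avg_no_alive, Finset.card_image_of_injective, Finset.card_univ, Fintype.card_fin]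
        intro j j' h
        simpa using h
    _ = _ := by
        rw [Finset.sum_const, nsmul_eq_mul, Finset.card_univ, Fintype.card_prod,
          Fintype.card_fin, Fintype.card_fin]
        push_cast
        ring

end

theorem no_red (d : ℕ) : ¬ ParaAC0Red pCLIQUE (pLogSAT d) := by
  rintro ⟨D0, c0, f, g, hred⟩
  obtain ⟨D, hD⟩ : ∃ D, D = D0 + 4 := ⟨_, rfl⟩
  obtain ⟨S, hS⟩ : ∃ S, S = c0 * (d + 4) * (4 * D + 4) + 3 := ⟨_, rfl⟩
  have hS3 : 3 ≤ S := by omega
  obtain ⟨σ, hσ⟩ : ∃ σ, σ = sg S := ⟨_, rfl⟩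
  have hσ1 : 1 ≤ σ := by rw [hσ]; exact sg_pos hS3
  obtain ⟨e', he'⟩ : ∃ e', e' = 2 * σ * D + 3 := ⟨_, rfl⟩
  obtain ⟨k, hk⟩ : ∃ k, k = 2 * e' + 1 := ⟨_, rfl⟩
  obtain ⟨A1, hA1⟩ : ∃ A1 : ℕ, A1 = f k * (k + 2 + k ^ 2) ^ c0 + 1 := ⟨_, rfl⟩
  obtain ⟨E1, hE1⟩ : ∃ E1 : ℕ, E1 = c0 * (4 * σ * D + 4) := ⟨_, rfl⟩
  obtain ⟨C1, hC1⟩ : ∃ C1 : ℝ, C1 = (d + 6) * (2 * A1) ^ (d + 4) * 2 ^ (σ * S) := ⟨_, rfl⟩
  have hexp : E1 * (d + 4) + 1 ≤ σ * S := by
    have h1 : c0 * (4 * σ * D + 4) * (d + 4) ≤ σ * (c0 * (d + 4) * (4 * D + 4)) := by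
      calc c0 * (4 * σ * D + 4) * (d + 4) ≤ c0 * (4 * σ * D + 4 * σ) * (d + 4) := by
            apply Nat.mul_le_mul_right; apply Nat.mul_le_mul_left; omega
        _ = σ * (c0 * (d + 4) * (4 * D + 4)) := by ring
    have h2 : 1 ≤ σ * 3 := by omega
    have h3 : σ * S = σ * (c0 * (d + 4) * (4 * D + 4)) + σ * 3 := by rw [hS]; ring
    rw [hE1, h3]
    exact Nat.add_le_add h1 h2
  obtain ⟨b, hb2, hbC, hbexp, hb1, hblog⟩ : ∃ b : ℕ, 2 ≤ b ∧ C1 / b < 1 / 4 ∧
      (k : ℝ) * b * Real.exp (-b) < 1 / 4 ∧ (1 : ℝ) / b < 1 / 4 ∧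
      (2 * ((g k * 2 ^ (S ^ 2)) * Real.logb 2 (A1 * (b : ℝ) ^ E1 + 2))) ^ d * S + S < (b : ℝ) := by
    have := (((eventually_ge_atTop 2).and (ev_div C1)).and
      ((ev_exp (k : ℝ)).and ((ev_div 1).and
        (ev_log ((g k : ℝ) * 2 ^ (S ^ 2)) (A1 : ℝ) (by positivity) (by positivity) E1 d S)))).exists
    obtain ⟨b, ⟨h1, h2⟩, h3, h4, h5⟩ := this
    exact ⟨b, h1, h2, h3, h4, h5⟩
  have : NeZero b := ⟨by omega⟩
  have hb0 : (0 : ℝ) < b := by exact_mod_cast (by omega : 0 < b)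
  have hb1' : 1 ≤ b := by omega
  obtain ⟨B, hB⟩ : ∃ B, B = b ^ (2 * σ * D + 1) := ⟨_, rfl⟩
  have hB1 : 1 ≤ B := by rw [hB]; exact Nat.one_le_pow _ _ (by omega)
  have hcardV : Fintype.card (Vc k b B) = k * b ^ (2 * σ * D + 2) := by
    rw [Fintype.card_prod, Fintype.card_prod, Fintype.card_fin, Fintype.card_fin, Fintype.card_fin,
      hB]
    ring
  have hne : Nonempty (Vc k b B) := ⟨(⟨0, by omega⟩, ⟨0, by omega⟩, ⟨0, by omega⟩)⟩
  obtain ⟨m, out, hm, hout, hr⟩ :=
    hred (k + 1 + Fintype.card (Vc k b B) * Fintype.card (Vc k b B)) k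
  obtain ⟨n, hn⟩ : ∃ n, n = k + 1 + Fintype.card (Vc k b B) * Fintype.card (Vc k b B) := ⟨_, rfl⟩
  rw [← hn] at hm
  have hout' : ∀ i, (out i).depth ≤ D0 ∧ (out i).size ≤ f k * (n + 1) ^ c0 := by
    intro i; rw [hn]; exact hout i
  obtain ⟨X, hX⟩ : ∃ X, X = f k * (n + 1) ^ c0 + 1 := ⟨_, rfl⟩
  have hX1 : 1 ≤ X := by omega
  have hmX : m ≤ X := by omega
  have hDout : ∀ i, (out i).depth ≤ D0 := fun i => (hout i).1
  have hsz : ∀ i, (out i).size ≤ X := fun i => (hout' i).2.trans (by omega)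
  have hnb : n + 1 ≤ (k + 2 + k ^ 2) * b ^ (4 * σ * D + 4) := by
    have h1 : n + 1 = k + 2 + k ^ 2 * b ^ (4 * σ * D + 4) := by
      rw [hn, hcardV]; ring
    have h2 : 1 ≤ b ^ (4 * σ * D + 4) := Nat.one_le_pow _ _ (by omega)
    rw [h1]
    nlinarith
  have hXb : X ≤ A1 * b ^ E1 := by
    rw [hX, hA1, add_mul, one_mul]
    have h1 : (n + 1) ^ c0 ≤ ((k + 2 + k ^ 2) * b ^ (4 * σ * D + 4)) ^ c0 :=
      Nat.pow_le_pow_left hnb _
    have h2 : ((k + 2 + k ^ 2) * b ^ (4 * σ * D + 4)) ^ c0 = (k + 2 + k ^ 2) ^ c0 * b ^ E1 := by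
      rw [mul_pow, ← pow_mul, hE1]; congr 2; ring
    have h3 : 1 ≤ b ^ E1 := Nat.one_le_pow _ _ (by omega)
    calc f k * (n + 1) ^ c0 + 1 ≤ f k * ((k + 2 + k ^ 2) ^ c0 * b ^ E1) + b ^ E1 := by
          rw [← h2]; exact Nat.add_le_add (Nat.mul_le_mul_left _ h1) h3
      _ = _ := by ring
  -- parameters
  have hP1 := P1_inst (b := b) (S := S) hb2 hS3
  obtain ⟨δ, hδ⟩ : ∃ δ : ℝ, δ = ((2 / (b : ℝ)) ^ σ) ^ S := ⟨_, rfl⟩
  have hδ0 : 0 ≤ δ := by rw [hδ]; positivity
  have hcardτ : (Fintype.card (Tau b S) : ℝ) = (b : ℝ) ^ (2 * σ) := by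
    simp [Tau, Fintype.card_fin, hσ]
  have hAr : ((Aset b S).card : ℝ) / Fintype.card (Tau b S) = 1 / (b : ℝ) ^ (2 * σ) := by
    rw [hcardτ]; simp [Aset]
  have hMr : ((Mset b S).card : ℝ) / Fintype.card (Tau b S) = 1 / b := by
    rw [card_Mset b S hb1', hcardτ, ← hσ]
    have hpow : (b : ℝ) ^ (2 * σ) = b ^ (2 * σ - 1) * b := by
      rw [← pow_succ]; congr 1; omega
    rw [hpow]
    push_cast
    field_simp
  -- locality of a formula
  have hloc : ∀ φ : Fml (k + 1 + Fintype.card (Vc k b B) * Fintype.card (Vc k b B)), φ.depth ≤ D → ∀ z0 : ℕ, φ.size ≤ z0 →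
      avg (fun ω : Crd D (Vc k b B) → Tau b S => ind (¬ LocAt (Aset b S) S D ω
        (fun z => φ.Holds (inst (Aset b S) (Mset b S) D ω z)))) ≤ z0 * δ := by
    intro φ hφ z0 hz0
    have h1 := fml_local (D := D) (V := Vc k b B) hP1 maj0 (encC grc) (encC_henc grc) φ D le_rfl hφ
    refine h1.trans ?_
    rw [hδ, hσ]
    exact mul_le_mul_of_nonneg_right (by exact_mod_cast hz0) (by positivity)
  -- the bad event
  let bad : (Crd D (Vc k b B) → Tau b S) → Prop := fun ω =>
    ((∃ t ∈ (Finset.univ : Finset (Fin d → Fin (satN m) × Bool)), ¬ LocAt (Aset b S) S D ω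
      (fun z => (PF out (Finset.univ.image t)).Holds (inst (Aset b S) (Mset b S) D ω z))) ∨
    (∃ j ∈ (Finset.univ : Finset (Fin (satN m))), ¬ LocAt (Aset b S) S D ω
      (fun z => (usedF out j).Holds (inst (Aset b S) (Mset b S) D ω z)))) ∨
    ((¬ LocAt (Aset b S) S D ω (fun z => (WF out d).Holds (inst (Aset b S) (Mset b S) D ω z))) ∨
    ((∃ (i : Fin k) (c : Fin b), ∀ j : Fin B, ¬ Al (Aset b S) D ω ((i, c, j) : Vc k b B)) ∨
    (∃ u : Fin k → Vc k b B, (∀ i, grc (u i) = i) ∧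
      ∀ i i', i < i' → rho (Aset b S) (Mset b S) maj0 D ω (fun _ _ => false) (u i) (u i') = true)))
  have hXr : (1 : ℝ) ≤ X := by exact_mod_cast hX1
  have hPbound : avg (fun ω : Crd D (Vc k b B) → Tau b S =>
      ind (∃ t ∈ (Finset.univ : Finset (Fin d → Fin (satN m) × Bool)), ¬ LocAt (Aset b S) S D ω
      (fun z => (PF out (Finset.univ.image t)).Holds (inst (Aset b S) (Mset b S) D ω z)))) ≤
      (2 * X : ℝ) ^ (d + 4) * δ := by
    refine (avg_mono (fun ω => ind_exists_le _ _)).trans ?_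
    rw [avg_sum]
    have h1 : ∀ t ∈ (Finset.univ : Finset (Fin d → Fin (satN m) × Bool)),
        avg (fun ω : Crd D (Vc k b B) → Tau b S => ind (¬ LocAt (Aset b S) S D ω
        (fun z => (PF out (Finset.univ.image t)).Holds (inst (Aset b S) (Mset b S) D ω z)))) ≤
        ((4 * X ^ 3 : ℕ) : ℝ) * δ := fun t _ =>
      hloc _ ((depth_PF hDout _).trans hD.ge) _ (size_PF hX1 hsz hmX _)
    refine (Finset.sum_le_sum h1).trans ?_
    rw [Finset.sum_const, nsmul_eq_mul, ← mul_assoc]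
    apply mul_le_mul_of_nonneg_right _ hδ0
    rw [Finset.card_univ, Fintype.card_fun, Fintype.card_prod, Fintype.card_fin, Fintype.card_bool,
      Fintype.card_fin]
    have h2 : (satN m * 2) ^ d ≤ (2 * X) ^ d :=
      Nat.pow_le_pow_left (by have := (satN_le m).trans hmX; omega) _
    have h3 : (satN m * 2) ^ d * (4 * X ^ 3) ≤ (2 * X) ^ (d + 4) := by
      calc (satN m * 2) ^ d * (4 * X ^ 3) ≤ (2 * X) ^ d * (2 * X) ^ 4 := by
            apply Nat.mul_le_mul h2
            calc 4 * X ^ 3 ≤ 16 * (X ^ 3 * X) := by nlinarith [Nat.one_le_pow 3 X hX1]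
              _ = (2 * X) ^ 4 := by ring
        _ = _ := by rw [← pow_add]
    exact_mod_cast h3
  have hUbound : avg (fun ω : Crd D (Vc k b B) → Tau b S =>
      ind (∃ j ∈ (Finset.univ : Finset (Fin (satN m))), ¬ LocAt (Aset b S) S D ω
      (fun z => (usedF out j).Holds (inst (Aset b S) (Mset b S) D ω z)))) ≤
      (2 * X : ℝ) ^ (d + 4) * δ := by
    refine (avg_mono (fun ω => ind_exists_le _ _)).trans ?_
    rw [avg_sum]
    have h1 : ∀ j ∈ (Finset.univ : Finset (Fin (satN m))),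
        avg (fun ω : Crd D (Vc k b B) → Tau b S => ind (¬ LocAt (Aset b S) S D ω
        (fun z => (usedF out j).Holds (inst (Aset b S) (Mset b S) D ω z)))) ≤
        ((4 * X ^ 3 : ℕ) : ℝ) * δ := fun j _ =>
      hloc _ ((depth_usedF hDout _).trans hD.ge) _ (size_usedF hX1 hsz hmX _)
    refine (Finset.sum_le_sum h1).trans ?_
    rw [Finset.sum_const, nsmul_eq_mul, ← mul_assoc]
    apply mul_le_mul_of_nonneg_right _ hδ0
    rw [Finset.card_univ, Fintype.card_fin]
    have h3 : satN m * (4 * X ^ 3) ≤ (2 * X) ^ (d + 4) := by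
      calc satN m * (4 * X ^ 3) ≤ X * (4 * X ^ 3) :=
            Nat.mul_le_mul_right _ ((satN_le m).trans hmX)
        _ ≤ (2 * X) ^ 4 := by nlinarith [Nat.one_le_pow 4 X hX1]
        _ ≤ _ := Nat.pow_le_pow_right (by omega) (by omega)
    exact_mod_cast h3
  have hWbound : avg (fun ω : Crd D (Vc k b B) → Tau b S =>
      ind (¬ LocAt (Aset b S) S D ω
        (fun z => (WF out d).Holds (inst (Aset b S) (Mset b S) D ω z)))) ≤
      (d + 4) * (2 * X : ℝ) ^ (d + 4) * δ := by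
    refine (hloc _ ((depth_WF hDout d).trans hD.ge) _ (size_WF hX1 hsz hmX d)).trans ?_
    apply mul_le_mul_of_nonneg_right _ hδ0
    have : (d + 4) * (2 * X) ^ (d + 3) ≤ (d + 4) * (2 * X) ^ (d + 4) :=
      Nat.mul_le_mul_left _ (Nat.pow_le_pow_right (by omega) (by omega))
    exact_mod_cast this
  have htot : (d + 6) * (2 * X : ℝ) ^ (d + 4) * δ ≤ C1 / b := by
    have h1 : (2 * X : ℝ) ^ (d + 4) ≤ (2 * A1) ^ (d + 4) * (b : ℝ) ^ (E1 * (d + 4)) := by
      rw [pow_mul, ← mul_pow]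
      apply pow_le_pow_left₀ (by positivity)
      have : (X : ℝ) ≤ A1 * (b : ℝ) ^ E1 := by exact_mod_cast hXb
      linarith
    have h2 : δ = 2 ^ (σ * S) / (b : ℝ) ^ (σ * S) := by
      rw [hδ, ← pow_mul, div_pow]
    rw [h2]
    have h3 : (b : ℝ) ^ (E1 * (d + 4)) * b ≤ (b : ℝ) ^ (σ * S) := by
      rw [← pow_succ]
      exact pow_le_pow_right₀ (by exact_mod_cast hb1') hexp
    rw [hC1, mul_div_assoc', div_le_div_iff₀ (by positivity) hb0]
    have h4 : (0:ℝ) ≤ (d + 6) * 2 ^ (σ * S) := by positivity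
    calc (d + 6) * (2 * X : ℝ) ^ (d + 4) * 2 ^ (σ * S) * b
        = ((d + 6) * 2 ^ (σ * S)) * ((2 * X : ℝ) ^ (d + 4) * b) := by ring
      _ ≤ ((d + 6) * 2 ^ (σ * S)) * (((2 * A1) ^ (d + 4) * (b : ℝ) ^ (E1 * (d + 4))) * b) := by
          apply mul_le_mul_of_nonneg_left _ h4
          exact mul_le_mul_of_nonneg_right h1 hb0.le
      _ = ((d + 6) * 2 ^ (σ * S)) * ((2 * A1) ^ (d + 4)) * ((b : ℝ) ^ (E1 * (d + 4)) * b) := by ring
      _ ≤ ((d + 6) * 2 ^ (σ * S)) * ((2 * A1) ^ (d + 4)) * (b : ℝ) ^ (σ * S) := by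
          apply mul_le_mul_of_nonneg_left h3; positivity
      _ = _ := by ring
  have hselb : avg (fun ω : Crd D (Vc k b B) → Tau b S => ind (∃ (i : Fin k) (c : Fin b),
      ∀ j : Fin B, ¬ Al (Aset b S) D ω ((i, c, j) : Vc k b B))) < 1 / 4 := by
    refine lt_of_le_of_lt (avg_nosel (Aset b S)) (lt_of_le_of_lt ?_ hbexp)
    apply mul_le_mul_of_nonneg_left _ (by positivity)
    rw [hAr]
    set p : ℝ := (1 / (b : ℝ) ^ (2 * σ)) ^ D with hp
    have hp1 : p ≤ 1 := by
      apply pow_le_one₀ (by positivity)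
      rw [div_le_one (by positivity)]
      exact one_le_pow₀ (by exact_mod_cast hb1')
    have h1 : 1 - p ≤ Real.exp (-p) := by
      have := Real.add_one_le_exp (-p); linarith
    calc (1 - p) ^ B ≤ Real.exp (-p) ^ B := pow_le_pow_left₀ (by linarith) h1 B
      _ = Real.exp (-b) := by
          rw [← Real.exp_nat_mul]
          congr 1
          rw [hp, hB]
          push_cast
          rw [one_div, inv_pow, ← pow_mul]
          have : (b : ℝ) ^ (2 * σ * D + 1) = b ^ (2 * σ * D) * b := pow_succ _ _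
          rw [this]
          field_simp
  have hnob : avg (fun ω : Crd D (Vc k b B) → Tau b S => ind (∃ u : Fin k → Vc k b B,
      (∀ i, grc (u i) = i) ∧ ∀ i i', i < i' →
        rho (Aset b S) (Mset b S) maj0 D ω (fun _ _ => false) (u i) (u i') = true)) < 1 / 4 := by
    refine lt_of_le_of_lt (avg_noclique (Aset b S) (Mset b S)) (lt_of_le_of_lt ?_ hb1)
    rw [hMr]
    have hcp : (Finset.univ.filter (fun p : Fin k × Fin k => p.1 < p.2)).card = e' * k := by
      have h1 := card_pairs k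
      have h2 : k * k - k = 2 * (e' * k) := by
        have : k * k = 2 * (e' * k) + k := by
          conv_lhs => rw [hk]
          rw [hk]; ring
        omega
      omega
    rw [hcp]
    have h1 : ((b * B : ℕ) : ℝ) = (b : ℝ) ^ (2 * σ * D + 2) := by
      rw [hB]; push_cast; ring
    rw [h1, pow_mul, ← mul_pow]
    have h2 : (b : ℝ) ^ (2 * σ * D + 2) * (1 / b) ^ e' = 1 / b := by
      rw [he', one_div_pow]
      have : (b : ℝ) ^ (2 * σ * D + 3) = b ^ (2 * σ * D + 2) * b := pow_succ _ _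
      rw [this]
      field_simp
    rw [h2]
    calc (1 / (b : ℝ)) ^ k ≤ (1 / (b : ℝ)) ^ 1 := by
          apply pow_le_pow_of_le_one (by positivity) _ (by omega)
          rw [div_le_one hb0]; exact_mod_cast hb1'
      _ = 1 / b := pow_one _
  have hbad : avg (fun ω => ind (bad ω)) < 1 := by
    have h1 : ∀ ω, ind (bad ω) ≤ _ := fun ω => (ind_or_le _ _).trans
      (add_le_add (ind_or_le _ _) ((ind_or_le _ _).trans (add_le_add le_rfl (ind_or_le _ _))))
    refine lt_of_le_of_lt (avg_mono h1) ?_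
    rw [avg_add, avg_add, avg_add, avg_add]
    have h2 : (2 * X : ℝ) ^ (d + 4) * δ + (2 * X : ℝ) ^ (d + 4) * δ +
        (d + 4) * (2 * X : ℝ) ^ (d + 4) * δ = (d + 6) * (2 * X : ℝ) ^ (d + 4) * δ := by ring
    linarith
  obtain ⟨ω, hω⟩ := exists_not_of_avg_lt hbad
  simp only [bad, not_or, Finset.mem_univ, true_and, not_exists, not_not] at hω
  obtain ⟨⟨hω1, hω2⟩, hω3, hω4, hω5⟩ := hω
  refine contra (g := g k) (Aset b S) (Mset b S) ω out hω1 hω2 hω3 ?_ ?_ ?_
    (Y := (X : ℝ)) (by exact_mod_cast hmX) ?_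
  · intro i c
    have := hω4 i c
    push Not at this
    exact this
  · rintro ⟨u, hu⟩
    exact hω5 u hu
  · intro z
    exact hr _ (lead_encC _ _)
  · have hXb' : (X : ℝ) ≤ A1 * (b : ℝ) ^ E1 := by exact_mod_cast hXb
    refine lt_of_le_of_lt ?_ hblog
    have h1 : Real.logb 2 ((X : ℝ) + 2) ≤ Real.logb 2 (A1 * (b : ℝ) ^ E1 + 2) :=
      Real.logb_le_logb_of_le (by norm_num) (by positivity) (by linarith)
    have h0 : 0 ≤ Real.logb 2 ((X : ℝ) + 2) := Real.logb_nonneg (by norm_num) (by linarith)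
    have h2 : (2 * ((g k : ℝ) * Real.logb 2 ((X : ℝ) + 2) * 2 ^ (S ^ 2))) ^ d ≤
        (2 * ((g k * 2 ^ (S ^ 2)) * Real.logb 2 (A1 * (b : ℝ) ^ E1 + 2))) ^ d := by
      apply pow_le_pow_left₀ (by positivity)
      have : (g k : ℝ) * 2 ^ (S ^ 2) * Real.logb 2 ((X : ℝ) + 2) ≤
          g k * 2 ^ (S ^ 2) * Real.logb 2 (A1 * (b : ℝ) ^ E1 + 2) :=
        mul_le_mul_of_nonneg_left h1 (by positivity)
      linarith
    have := mul_le_mul_of_nonneg_right h2 (Nat.cast_nonneg (α := ℝ) S)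
    linarith

/-- the identity is a reduction -/
lemma ParaAC0Red.refl (P : ParamProblem) : ParaAC0Red P P := by
  refine ⟨0, 1, fun _ => 1, fun k => k, fun n k => ⟨n, fun i => Fml.lit i true, by simp, ?_, ?_⟩⟩
  · intro i
    simp [Fml.depth, Fml.size]
  · intro x hx
    have : applyF (fun i => Fml.lit i true) x = x := by
      funext i
      simp [applyF]
    rw [this]
    exact ⟨Iff.rfl, hx.le⟩

theorem W1_not_sub_M1 : ¬ W1AC0 ⊆ M1AC0 := by
  intro h
  obtain ⟨d, -, hd⟩ := h (show pCLIQUE ∈ W1AC0 from ParaAC0Red.refl _)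
  exact no_red d hd

end

end Pool.Agent.H592R2
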