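import Pool.Agent.H592R2.LogSat

set_option linter.unusedSectionVars false

/-! p-CLIQUE has no para-AC0 reduction to p-log-SAT(Gamma_{1,d}). -/

namespace Pool.Agent.H592R2

open Finset Classical

noncomputable section

/-- vertex set of the clique instances -/
abbrev Vc (k b B : ℕ) : Type := Fin k × Fin b × Fin B

instance instDecVc (k b B : ℕ) : DecidableEq (Vc k b B) := inferInstance
instance instFtVc (k b B : ℕ) : Fintype (Vc k b B) := inferInstance

/-- group of a vertex -/
def grc {k b B : ℕ} (v : Vc k b B) : Fin k := v.1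

/-- majority values: all zero -/
def maj0 {V : Type} : V → V → Bool := fun _ _ => false

section contra
variable {D k b B : ℕ} {τ : Type} [Fintype τ] [Nonempty τ] [DecidableEq τ]

/-- the instance after restriction -/
def inst (A Mi : Finset τ) (D : ℕ) (ω : Crd D (Vc k b B) → τ)
    (z : Vc k b B → Vc k b B → Bool) :
    Fin (k + 1 + Fintype.card (Vc k b B) * Fintype.card (Vc k b B)) → Bool :=
  encC grc (rho A Mi maj0 D ω z)

theorem contra {d S g m : ℕ} (A Mi : Finset τ) (ω : Crd D (Vc k b B) → τ)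
    (out : Fin m → Fml (k + 1 + Fintype.card (Vc k b B) * Fintype.card (Vc k b B)))
    (hP : ∀ t : Fin d → Fin (satN m) × Bool, LocAt A S D ω
      (fun z => (PF out (Finset.univ.image t)).Holds (inst A Mi D ω z)))
    (hU : ∀ j, LocAt A S D ω (fun z => (usedF out j).Holds (inst A Mi D ω z)))
    (hW : LocAt A S D ω (fun z => (WF out d).Holds (inst A Mi D ω z)))
    (hsel : ∀ (i : Fin k) (c : Fin b), ∃ j : Fin B, Al A D ω ((i, c, j) : Vc k b B))
    (hno : ¬ ∃ u : Fin k → Vc k b B, (∀ i, grc (u i) = i) ∧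
      ∀ i i', i < i' → rho A Mi maj0 D ω (fun _ _ => false) (u i) (u i') = true)
    (hred : ∀ z : Vc k b B → Vc k b B → Bool,
      (pCLIQUE.Q _ (inst A Mi D ω z) ↔ (pLogSAT d).Q m (applyF out (inst A Mi D ω z))) ∧
      (pLogSAT d).κ m (applyF out (inst A Mi D ω z)) ≤ g)
    {Y : ℝ} (hY : (m : ℝ) ≤ Y)
    (hsmall : (2 * (g * Real.logb 2 (Y + 2) * 2 ^ (S ^ 2))) ^ d * S + S < (b : ℝ)) : False := by
  choose sel hsel using hsel
  set J : Finset (Fin (satN m)) := Finset.univ.filter
    (fun j => ∃ z, (usedF out j).Holds (inst A Mi D ω z)) with hJ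
  have hJcard : (J.card : ℝ) ≤ g * Real.logb 2 (Y + 2) * 2 ^ (S ^ 2) := by
    apply card_sat_le (V := Vc k b B) (S := S)
      (G := fun j z => (usedF out j).Holds (inst A Mi D ω z))
    · intro j
      obtain ⟨K, h1, -, h3⟩ := hU j
      exact ⟨K, h1, h3⟩
    · intro z
      refine le_trans ?_ (occVars_le (d := d) (applyF out (inst A Mi D ω z)) (hred z).2 hY)
      have : (Finset.univ.filter (fun j => (usedF out j).Holds (inst A Mi D ω z))) =
          occVars (applyF out (inst A Mi D ω z)) := by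
        ext j
        rw [Finset.mem_filter, holds_usedF]
        simp
      rw [this]
  -- relevant tuples
  set TT : Finset (Fin d → Fin (satN m) × Bool) :=
    Fintype.piFinset (fun _ => J ×ˢ (Finset.univ : Finset Bool)) with hTT
  have hTTcard : TT.card = (2 * J.card) ^ d := by
    rw [hTT, Fintype.card_piFinset]
    simp [Finset.card_product, mul_comm]
  choose KP hKP1 hKP2 hKP3 using hP
  obtain ⟨KW, hKW1, hKW2, hKW3⟩ := hW
  let Ks : Finset (Vc k b B) := TT.biUnion KP ∪ KW
  have hKs : Ks.card ≤ TT.card * S + S := by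
    refine (Finset.card_union_le _ _).trans (Nat.add_le_add ?_ hKW1.le)
    exact Finset.card_biUnion_le_card_mul _ _ _ (fun t _ => (hKP1 t).le)
  have hKsb : Ks.card < b := by
    have h1 : (Ks.card : ℝ) ≤ (2 * (J.card : ℝ)) ^ d * S + S := by
      rw [hTTcard] at hKs
      exact_mod_cast hKs
    have h2 : (2 * (J.card : ℝ)) ^ d ≤ (2 * (g * Real.logb 2 (Y + 2) * 2 ^ (S ^ 2))) ^ d := by
      apply pow_le_pow_left₀ (by positivity)
      linarith
    have h3 : (Ks.card : ℝ) < b := by
      calc (Ks.card : ℝ) ≤ (2 * (J.card : ℝ)) ^ d * S + S := h1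
        _ ≤ (2 * (g * Real.logb 2 (Y + 2) * 2 ^ (S ^ 2))) ^ d * S + S := by
            have := mul_le_mul_of_nonneg_right h2 (Nat.cast_nonneg (α := ℝ) S)
            linarith
        _ < b := hsmall
    exact_mod_cast h3
  -- a free diagonal
  obtain ⟨c, hc⟩ : ∃ c : Fin b, c ∉ Ks.image (fun v => v.2.1) := by
    by_contra hcon
    push Not at hcon
    have h1 : (Finset.univ : Finset (Fin b)) ⊆ Ks.image (fun v => v.2.1) := fun c _ => hcon c
    have h2 := Finset.card_le_card h1
    rw [Finset.card_univ, Fintype.card_fin] at h2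
    exact absurd (h2.trans Finset.card_image_le) (by omega)
  let zc : Vc k b B → Vc k b B → Bool := fun v v' =>
    decide (v.2.1 = c ∧ v'.2.1 = c)
  have hzc : ∀ K : Finset (Vc k b B), K ⊆ Ks → ∀ v ∈ K, ∀ v' ∈ K,
      zc v v' = (fun _ _ => false : Vc k b B → Vc k b B → Bool) v v' := by
    intro K hK v hv v' _
    simp only [zc, decide_eq_false_iff_not, not_and]
    intro h1 _
    exact hc (Finset.mem_image.mpr ⟨v, hK hv, h1⟩)
  -- the clique at `zc`
  have hyes : pCLIQUE.Q _ (inst A Mi D ω zc) := by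
    unfold inst
    rw [clique_encC]
    refine ⟨fun i => (i, c, sel i c), fun i => rfl, ?_⟩
    intro i i' _
    unfold rho
    rw [if_pos ⟨hsel i c, hsel i' c⟩]
    simp [zc]
  have hnoc : ¬ pCLIQUE.Q _ (inst A Mi D ω (fun _ _ => false)) := by
    unfold inst
    rw [clique_encC]
    exact hno
  apply hnoc
  rw [(hred _).1]
  refine Q_of_rows (applyF out (inst A Mi D ω zc)) _ ?_ ?_ ((hred zc).1.1 hyes)
  · intro h
    rw [← holds_WF] at h ⊢
    exact hKW3 zc (fun _ _ => false) (hzc KW Finset.subset_union_right) h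
  · intro t ht
    rw [← holds_PF] at ht
    have htT : t ∈ TT := by
      rw [hTT, Fintype.mem_piFinset]
      intro a
      rw [Finset.mem_product]
      refine ⟨?_, Finset.mem_univ _⟩
      rw [hJ, Finset.mem_filter]
      refine ⟨Finset.mem_univ _, fun _ _ => false, ?_⟩
      rw [holds_usedF]
      rw [holds_PF] at ht
      obtain ⟨i, hi⟩ := ht
      unfold occVars
      rw [Finset.mem_filter]
      refine ⟨Finset.mem_univ _, i, (t a).2, ?_⟩
      rw [hi]
      exact Finset.mem_image.mpr ⟨a, Finset.mem_univ _, rfl⟩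
    rw [← holds_PF]
    refine hKP3 t (fun _ _ => false) zc ?_ ht
    intro v hv v' hv'
    refine (hzc (KP t) ?_ v hv v' hv').symm
    intro w hw
    exact Finset.mem_union_left _ (Finset.mem_biUnion.mpr ⟨t, htT, hw⟩)

end contra

end

end Pool.Agent.H592R2
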