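import Pool.Agent.H592R2.P2Main
import Pool.Agent.H592R2.CktBasics

set_option linter.unusedSectionVars false

/-! The value of a target circuit as a levelled predicate of the free bits. -/

namespace Pool.Agent.H592R2

open Finset Classical

noncomputable section

section excl
variable {I : Type} [Fintype I] [DecidableEq I] {w : ℕ}

lemma Jn.avg_ge {F : (I → Bool) → Prop} (h : Jn w F) (hne : ∃ x, F x) :
    (1 / 2 : ℝ) ^ w ≤ avg (fun x : I → Bool => ind (F x)) := by
  obtain ⟨K, h1, h2⟩ := h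
  obtain ⟨x0, hx0⟩ := hne
  calc (1 / 2 : ℝ) ^ w ≤ (1 / 2 : ℝ) ^ K.card :=
        pow_le_pow_of_le_one (by norm_num) (by norm_num) h1
    _ = avg (fun x : I → Bool => ind (∀ c ∈ K, x c ∈ (fun c => ({x0 c} : Finset Bool)) c)) := by
        rw [avg_box]
        simp
    _ ≤ _ := by
        apply avg_mono
        intro x
        apply ind_mono
        intro h
        refine h2 x0 x ?_ hx0
        intro i hi
        have := h i hi
        rw [Finset.mem_singleton] at this
        exact this.symm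

/-- at most `2 ^ w` nonzero pairwise exclusive `w`-juntas -/
lemma excl_card {ι : Type} [Fintype ι] (P : ι → (I → Bool) → Prop) (hP : ∀ c, Jn w (P c))
    (hex : ∀ c c' x, P c x → P c' x → c = c') :
    (Finset.univ.filter (fun c => ∃ x, P c x)).card ≤ 2 ^ w := by
  set 𝒞 := Finset.univ.filter (fun c => ∃ x, P c x) with h𝒞
  have h1 : ∑ c ∈ 𝒞, avg (fun x : I → Bool => ind (P c x)) ≤ 1 := by
    rw [← avg_sum]
    apply avg_le_of_le
    intro x
    by_cases hx : ∃ c ∈ 𝒞, P c x
    · obtain ⟨c, hc, hPc⟩ := hx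
      rw [Finset.sum_eq_single c]
      · exact ind_le_one _
      · intro c' _ hne
        exact ind_false fun h => hne (hex _ _ x h hPc)
      · intro h; exact absurd hc h
    · push Not at hx
      rw [Finset.sum_eq_zero (fun c hc => ind_false (hx c hc))]
      norm_num
  have h2 : (𝒞.card : ℝ) * (1 / 2) ^ w ≤ 1 := by
    refine le_trans ?_ h1
    rw [← nsmul_eq_mul, ← Finset.sum_const]
    exact Finset.sum_le_sum fun c hc => (hP c).avg_ge (Finset.mem_filter.mp hc).2
  have h3 : (𝒞.card : ℝ) ≤ 2 ^ w := by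
    rw [one_div_pow, mul_one_div, div_le_one (by positivity)] at h2
    exact h2
  exact_mod_cast h3

end excl

section cx
variable {I : Type} {A w : ℕ}

lemma Cx.congr {j e sz : ℕ} {F F' : (I → Bool) → Prop} (h : Cx A w j e sz F)
    (hF : ∀ x, F x ↔ F' x) : Cx A w j e sz F' := by
  have : F = F' := funext fun x => propext (hF x)
  rwa [← this]

lemma Cx.ofJn {F : (I → Bool) → Prop} (h : Jn w F) (j e sz : ℕ) : Cx A w j e sz F :=
  Cx.mono (Cx.jn h) (Nat.zero_le _) (Nat.zero_le _) (Nat.zero_le _)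

lemma Jn.const (p : Prop) : Jn w (fun _ : I → Bool => p) :=
  ⟨∅, by simp, fun _ _ _ h => h⟩

lemma Cx.not (hA : 2 ≤ A) {j e sz : ℕ} {F : (I → Bool) → Prop} (h : Cx A w j e sz F) :
    Cx A w j (e + 1) sz (fun x => ¬ F x) := by
  have := Cx.cb (ι := Unit) (A := A) (fun _ => F) (fun _ => sz) (fun v => ¬ v ())
    (by simp; omega) (fun _ => h)
  simpa using this

lemma Cx.and2 (hA : 2 ≤ A) {j e s1 s2 : ℕ} {F F' : (I → Bool) → Prop} (h : Cx A w j e s1 F)
    (h' : Cx A w j e s2 F') : Cx A w j (e + 1) (s1 + s2) (fun x => F x ∧ F' x) := by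
  have := Cx.cb (ι := Bool) (A := A) (fun b => if b then F else F')
    (fun b => if b then s1 else s2) (fun v => v true ∧ v false)
    (by simpa using hA) (fun b => by cases b <;> simpa)
  simpa using this

lemma Cx.or2 (hA : 2 ≤ A) {j e s1 s2 : ℕ} {F F' : (I → Bool) → Prop} (h : Cx A w j e s1 F)
    (h' : Cx A w j e s2 F') : Cx A w j (e + 1) (s1 + s2) (fun x => F x ∨ F' x) := by
  have := Cx.cb (ι := Bool) (A := A) (fun b => if b then F else F')
    (fun b => if b then s1 else s2) (fun v => v true ∨ v false)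
    (by simpa using hA) (fun b => by cases b <;> simpa)
  simpa using this

/-- exclusive selection -/
lemma Cx.select [Fintype I] [DecidableEq I] (hA : 2 ^ (w + 1) ≤ A) {j e s : ℕ} {ι : Type}
    [Fintype ι] (P f : ι → (I → Bool) → Prop) (hP : ∀ c, Jn w (P c))
    (hex : ∀ c c' x, P c x → P c' x → c = c') (hf : ∀ c, Cx A w j e s (f c)) :
    Cx A w j (e + 1) (2 ^ w * s) (fun x => ∃ c, P c x ∧ f c x) := by
  set 𝒞 := Finset.univ.filter (fun c => ∃ x, P c x) with h𝒞
  have hc := excl_card P hP hex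
  have h1 := Cx.cb (ι := {c // c ∈ 𝒞} × Bool) (A := A)
    (fun p => if p.2 then P p.1.1 else f p.1.1) (fun p => if p.2 then 0 else s)
    (fun v => ∃ c : {c // c ∈ 𝒞}, v (c, true) ∧ v (c, false)) (j := j) (e := e) (w := w)
    (by
      rw [Fintype.card_prod, Fintype.card_coe, Fintype.card_bool]
      calc 𝒞.card * 2 ≤ 2 ^ w * 2 := Nat.mul_le_mul_right _ hc
        _ = 2 ^ (w + 1) := by ring
        _ ≤ A := hA)
    (by
      rintro ⟨c, b⟩
      cases b
      · simpa using hf c.1
      · simpa using Cx.ofJn (hP c.1) j e 0)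
  refine Cx.mono (h1.congr ?_) le_rfl le_rfl ?_
  · intro x
    simp only [if_true, Bool.false_eq_true, if_false]
    constructor
    · rintro ⟨c, h2, h3⟩; exact ⟨c.1, h2, h3⟩
    · rintro ⟨c, h2, h3⟩
      exact ⟨⟨c, Finset.mem_filter.mpr ⟨Finset.mem_univ _, x, h2⟩⟩, h2, h3⟩
  · rw [Fintype.sum_prod_type]
    simp only [Fintype.sum_bool, if_true, Bool.false_eq_true, if_false, zero_add,
      Finset.sum_const, Finset.card_univ, Fintype.card_coe, smul_eq_mul]
    exact Nat.mul_le_mul_right _ hc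

lemma Cx.exC (hA : 2 ≤ A) {j e s : ℕ} {G : Type} (c : Finset G) (hc : c.card ≤ 2)
    (f : G → (I → Bool) → Prop) (hf : ∀ h, Cx A w j e s (f h)) :
    Cx A w j (e + 1) (2 * s) (fun x => ∃ h ∈ c, f h x) := by
  have h1 := Cx.cb (ι := {h // h ∈ c}) (A := A) (fun h => f h.1) (fun _ => s)
    (fun v => ∃ h, v h) (j := j) (e := e) (w := w)
    (by rw [Fintype.card_coe]; omega) (fun h => hf h.1)
  refine Cx.mono (h1.congr ?_) le_rfl le_rfl ?_
  · intro x
    simp only [Subtype.exists, exists_prop]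
  · simp only [Finset.sum_const, Finset.card_univ, Fintype.card_coe, smul_eq_mul]
    exact Nat.mul_le_mul_right _ hc

lemma Cx.allC (hA : 2 ≤ A) {j e s : ℕ} {G : Type} (c : Finset G) (hc : c.card ≤ 2)
    (f : G → (I → Bool) → Prop) (hf : ∀ h, Cx A w j e s (f h)) :
    Cx A w j (e + 1) (2 * s) (fun x => ∀ h ∈ c, f h x) := by
  have h1 := Cx.cb (ι := {h // h ∈ c}) (A := A) (fun h => f h.1) (fun _ => s)
    (fun v => ∀ h, v h) (j := j) (e := e) (w := w)
    (by rw [Fintype.card_coe]; omega) (fun h => hf h.1)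
  refine Cx.mono (h1.congr ?_) le_rfl le_rfl ?_
  · intro x
    simp only [Subtype.forall]
  · simp only [Finset.sum_const, Finset.card_univ, Fintype.card_coe, smul_eq_mul]
    exact Nat.mul_le_mul_right _ hc

end cx

/-- the value of a circuit whose local structure consists of juntas -/
theorem valR_cx {I : Type} [Fintype I] [DecidableEq I] {A w N : ℕ} (hA : 2 ^ (w + 1) ≤ A)
    (C : (I → Bool) → Ckt (Fin N)) (hkind : ∀ i κ, Jn w (fun q => (C q).kind i = κ))
    (hwire : ∀ h i, Jn w (fun q => (C q).wire h i))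
    (hins : ∀ i (c : {c : Finset (Fin N) // c.card ≤ 2}), Jn w (fun q => (C q).ins i = c.1))
    (hlarge : ∀ i, Jn w (fun q => 2 < ((C q).ins i).card)) (S : Finset (Fin N)) :
    ∀ (r t : ℕ) (i : Fin N), Cx A w t (8 * r) ((6 * 2 ^ w + 2 * N + 2) ^ r)
      (fun q => (C q).valR S t r i) := by
  have hA2 : 2 ≤ A := by
    have : 2 ≤ 2 ^ (w + 1) := by
      calc 2 = 2 ^ 1 := rfl
        _ ≤ 2 ^ (w + 1) := Nat.pow_le_pow_right (by norm_num) (by omega)
    omega
  have hbase : ∀ i j e s, Cx A w j e s (fun q => (C q).kind i = Kind.inp ∧ i ∈ S) := by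
    intro i j e s
    by_cases hi : i ∈ S
    · exact (Cx.ofJn (hkind i Kind.inp) j e s).congr (by intro x; simp [hi])
    · exact (Cx.ofJn (Jn.const False) j e s).congr (by intro x; simp [hi])
  intro r
  induction r with
  | zero => intro t i; exact hbase i _ _ _
  | succ r ih =>
    intro t i
    set s := (6 * 2 ^ w + 2 * N + 2) ^ r with hs
    have hs1 : 1 ≤ s := Nat.one_le_pow _ _ (by omega)
    have hneg : ∀ j e, Cx A w j e 0 (fun q => (C q).kind i = Kind.neg) := fun j e =>
      Cx.ofJn (hkind i _) j e 0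
    have hconj : ∀ j e, Cx A w j e 0 (fun q => (C q).kind i = Kind.conj) := fun j e =>
      Cx.ofJn (hkind i _) j e 0
    have hdisj : ∀ j e, Cx A w j e 0 (fun q => (C q).kind i = Kind.disj) := fun j e =>
      Cx.ofJn (hkind i _) j e 0
    have hR : ∀ c : {c : Finset (Fin N) // c.card ≤ 2}, Cx A w t (8 * r + 5) (6 * s)
        (fun q => ((C q).kind i = Kind.neg ∧ ¬ ∃ h ∈ c.1, (C q).valR S t r h) ∨
          ((C q).kind i = Kind.conj ∧ ∀ h ∈ c.1, (C q).valR S t r h) ∨
          ((C q).kind i = Kind.disj ∧ ∃ h ∈ c.1, (C q).valR S t r h)) := by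
      intro c
      have e1 := Cx.exC hA2 c.1 c.2 (fun h q => (C q).valR S t r h) (ih t)
      have e2 := Cx.allC hA2 c.1 c.2 (fun h q => (C q).valR S t r h) (ih t)
      have e3 := Cx.and2 hA2 (hneg t (8 * r + 2)) (e1.not hA2)
      have e4 := Cx.and2 hA2 (hconj t (8 * r + 1)) e2
      have e5 := Cx.and2 hA2 (hdisj t (8 * r + 1)) e1
      have e6 := Cx.or2 hA2 e4 e5
      have e7 := Cx.or2 hA2 (Cx.mono e3 le_rfl (by omega : 8 * r + 2 + 1 ≤ 8 * r + 4) le_rfl)
        (Cx.mono e6 le_rfl (by omega : 8 * r + 1 + 1 + 1 ≤ 8 * r + 4) le_rfl)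
      exact Cx.mono e7 le_rfl (by omega) (by omega)
    have hsel := Cx.select hA (fun (c : {c : Finset (Fin N) // c.card ≤ 2}) q =>
      (C q).ins i = c.1) _ (hins i) (fun c c' x h h' => Subtype.ext (h.symm.trans h')) hR
    obtain _ | t := t
    · -- weft zero
      have e1 := Cx.or2 hA2 (hbase i 0 (8 * r + 5 + 1) 0) hsel
      refine (Cx.mono e1 le_rfl (by omega) ?_).congr ?_
      · rw [pow_succ, ← hs]
        calc 0 + 2 ^ w * (6 * s) = s * (6 * 2 ^ w) := by ring
          _ ≤ s * (6 * 2 ^ w + 2 * N + 2) := Nat.mul_le_mul_left _ (by omega)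
      · intro q
        simp only [Ckt.valR]
        have : ¬ (1 : ℕ) ≤ 0 := by omega
        simp only [this, false_and, or_false]
    · have hall : Cx A w (t + 1) (8 * r + 2) (N * s + 1)
          (fun q => ∃ h, (C q).wire h i ∧ ¬ (C q).valR S t r h) := by
        have h1 : ∀ h, Cx A w t (8 * r + 2) s
            (fun q => (C q).wire h i ∧ ¬ (C q).valR S t r h) := by
          intro h
          have := Cx.and2 hA2 (Cx.ofJn (hwire h i) t (8 * r + 1) 0) ((ih t h).not hA2)
          simpa using this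
        have h2 := Cx.or (fun h q => (C q).wire h i ∧ ¬ (C q).valR S t r h) (fun _ => s) h1
        simpa using h2
      have hex : Cx A w (t + 1) (8 * r + 2) (N * s + 1)
          (fun q => ∃ h, (C q).wire h i ∧ (C q).valR S t r h) := by
        have h1 : ∀ h, Cx A w t (8 * r + 2) s
            (fun q => (C q).wire h i ∧ (C q).valR S t r h) := by
          intro h
          have := Cx.and2 hA2 (Cx.ofJn (hwire h i) t (8 * r) 0) (ih t h)
          exact Cx.mono this le_rfl (by omega) (by omega)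
        have h2 := Cx.or (fun h q => (C q).wire h i ∧ (C q).valR S t r h) (fun _ => s) h1
        simpa using h2
      have e1 := Cx.and2 hA2 (hconj (t + 1) (8 * r + 3)) (hall.not hA2)
      have e2 := Cx.and2 hA2 (hdisj (t + 1) (8 * r + 2)) hex
      have e3 := Cx.or2 hA2 e1 (Cx.mono e2 le_rfl (by omega : _ ≤ 8 * r + 3 + 1) le_rfl)
      have e4 := Cx.and2 hA2 (Cx.ofJn (hlarge i) (t + 1) (8 * r + 3 + 1 + 1) 0) e3
      have e5 := Cx.or2 hA2 hsel e4
      have e6 := Cx.or2 hA2 (hbase i (t + 1) (8 * r + 5 + 1 + 1) 0) e5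
      refine (Cx.mono e6 le_rfl (by omega) ?_).congr ?_
      · rw [pow_succ, ← hs]
        calc 0 + (2 ^ w * (6 * s) + (0 + (0 + (N * s + 1) + (0 + (N * s + 1)))))
            = s * (6 * 2 ^ w + 2 * N) + 2 := by ring
          _ ≤ s * (6 * 2 ^ w + 2 * N) + s * 2 := by omega
          _ = s * (6 * 2 ^ w + 2 * N + 2) := by ring
      · intro q
        simp only [Ckt.valR]
        have : (1 : ℕ) ≤ t + 1 := by omega
        simp only [this, true_and, Nat.add_sub_cancel]

end

end Pool.Agent.H592R2
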