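import Pool.Agent.H592R2.FmlTools
import Pool.Agent.H592R2.CktBasics

set_option linter.unusedSectionVars false

/-! Constant-depth formulas for the local structure of an encoded circuit. -/

namespace Pool.Agent.H592R2

open Finset Classical

noncomputable section

/-- definable by a formula of depth at most `D` and size at most `X ^ a` -/
def PD {n : ℕ} (X D a : ℕ) (P : (Fin n → Bool) → Prop) : Prop :=
  ∃ φ : Fml n, φ.depth ≤ D ∧ φ.size ≤ X ^ a ∧ ∀ x, φ.Holds x ↔ P x

namespace PD

variable {n X D a : ℕ} {P Q : (Fin n → Bool) → Prop}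

lemma mono (hX : 1 ≤ X) {D' a' : ℕ} (h : PD X D a P) (hD : D ≤ D') (ha : a ≤ a') :
    PD X D' a' P := by
  obtain ⟨φ, h1, h2, h3⟩ := h
  exact ⟨φ, h1.trans hD, h2.trans (Nat.pow_le_pow_right hX ha), h3⟩

lemma congr (h : PD X D a P) (hPQ : ∀ x, P x ↔ Q x) : PD X D a Q := by
  have : P = Q := funext fun x => propext (hPQ x)
  rwa [← this]

lemma not (h : PD X D a P) : PD X D a (fun x => ¬ P x) := by
  obtain ⟨φ, h1, h2, h3⟩ := h
  exact ⟨φ.neg, by rwa [Fml.depth_neg], by rwa [Fml.size_neg], fun x => by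
    rw [Fml.holds_neg, h3]⟩

lemma all (hX : 2 ≤ X) {ι : Type} [Fintype ι] {c : ℕ} (hι : Fintype.card ι ≤ X ^ c)
    {R : ι → (Fin n → Bool) → Prop} (h : ∀ i, PD X D a (R i)) :
    PD X (D + 1) (a + c + 1) (fun x => ∀ i, R i x) := by
  choose φ h1 h2 h3 using h
  refine ⟨andF φ, depth_andF_le h1, (size_andF_le h2).trans ?_, fun x => ?_⟩
  · calc Fintype.card ι * X ^ a + 1 ≤ X ^ c * X ^ a + X ^ (a + c) :=
          Nat.add_le_add (Nat.mul_le_mul_right _ hι) (Nat.one_le_pow _ _ (by omega))
      _ = X ^ (a + c) * 2 := by rw [pow_add]; ring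
      _ ≤ X ^ (a + c) * X := Nat.mul_le_mul_left _ hX
      _ = _ := by rw [pow_succ]
  · rw [holds_andF]
    exact forall_congr' fun i => h3 i x

lemma ex (hX : 2 ≤ X) {ι : Type} [Fintype ι] {c : ℕ} (hι : Fintype.card ι ≤ X ^ c)
    {R : ι → (Fin n → Bool) → Prop} (h : ∀ i, PD X D a (R i)) :
    PD X (D + 1) (a + c + 1) (fun x => ∃ i, R i x) := by
  refine (all hX hι (fun i => (h i).not)).not.congr ?_
  intro x
  push Not
  rfl

lemma and (hX : 2 ≤ X) (h : PD X D a P) (h' : PD X D a Q) :
    PD X (D + 1) (a + 2) (fun x => P x ∧ Q x) := by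
  have := all hX (ι := Bool) (c := 1) (by simpa using hX) (R := fun b => if b then P else Q)
    (D := D) (a := a) (fun b => by cases b <;> simpa)
  refine this.congr ?_
  intro x
  simp [and_comm]

lemma or (hX : 2 ≤ X) (h : PD X D a P) (h' : PD X D a Q) :
    PD X (D + 1) (a + 2) (fun x => P x ∨ Q x) := by
  refine (and hX h.not h'.not).not.congr ?_
  intro x
  tauto

lemma const (p : Prop) (hD : 1 ≤ D) (hX : 1 ≤ X) : PD X D a (fun _ : Fin n → Bool => p) := by
  by_cases hp : p
  · exact ⟨trueF, by rw [depth_trueF]; exact hD, by rw [size_trueF]; exact Nat.one_le_pow _ _ hX,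
      fun x => by simp [hp]⟩
  · exact ⟨falseF, by rw [depth_falseF]; exact hD,
      by rw [size_falseF]; exact Nat.one_le_pow _ _ hX, fun x => by simp [hp]⟩

end PD

section target
variable {n m D0 X : ℕ} (out : Fin m → Fml n) (hD : ∀ i, (out i).depth ≤ D0)
  (hs : ∀ i, (out i).size ≤ X) (hX : m + 4 ≤ X)

lemma gN_le (m j : ℕ) : gN m j + 1 ≤ m + 1 := by
  unfold gN
  have := Nat.sqrt_le_self (m - (j + 1) + 1)
  omega

include hD hs hX

lemma pd_bit (p : ℕ) : PD X (D0 + 1) 1 (fun x => bitN (applyF out x) p = true) :=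
  ⟨bitF out p, depth_bitF_le hD p, by
    rw [pow_one]; exact size_bitF_le (by omega) hs p, fun x => holds_bitF out p x⟩

lemma pd_bitv (p : ℕ) (b : Bool) : PD X (D0 + 1) 1 (fun x => bitN (applyF out x) p = b) := by
  cases b
  · refine (pd_bit out hD hs hX p).not.congr ?_
    intro x; simp
  · exact pd_bit out hD hs hX p

lemma pd_wire (j : ℕ) (h i : Fin (gN m j + 1)) :
    PD X (D0 + 1) 1 (fun x => (circOf (applyF out x) j).wire h i) := by
  by_cases hlt : h < i
  · refine (pd_bit out hD hs hX (j + 1 + (i.val * (gN m j + 3) + h.val))).congr ?_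
    intro x; simp [circOf, hlt]
  · refine (PD.const (X := X) (D := D0 + 1) (a := 1) False (by omega) (by omega)).congr ?_
    intro x; simp [circOf, hlt]

lemma pd_kind (j : ℕ) (i : Fin (gN m j + 1)) (κ : Kind) :
    PD X (D0 + 2) 3 (fun x => (circOf (applyF out x) j).kind i = κ) := by
  have h1 := pd_bitv out hD hs hX (j + 1 + (i.val * (gN m j + 3) + (gN m j + 1)))
  have h2 := pd_bitv out hD hs hX (j + 1 + (i.val * (gN m j + 3) + (gN m j + 2)))
  have key : ∀ a b : Bool, PD X (D0 + 2) 3 (fun x =>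
      bitN (applyF out x) (j + 1 + (i.val * (gN m j + 3) + (gN m j + 1))) = a ∧
      bitN (applyF out x) (j + 1 + (i.val * (gN m j + 3) + (gN m j + 2))) = b) := fun a b =>
    PD.and (by omega) (h1 a) (h2 b)
  have hk : ∀ (a b : Bool), (kindOf a b = Kind.inp ↔ a = false ∧ b = false) ∧
      (kindOf a b = Kind.neg ↔ a = true ∧ b = false) ∧
      (kindOf a b = Kind.conj ↔ a = false ∧ b = true) ∧
      (kindOf a b = Kind.disj ↔ a = true ∧ b = true) := by
    intro a b; cases a <;> cases b <;> simp [kindOf]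
  rcases κ with _ | _ | _ | _
  · exact (key false false).congr fun x => ((hk _ _).1).symm
  · exact (key true false).congr fun x => ((hk _ _).2.1).symm
  · exact (key false true).congr fun x => ((hk _ _).2.2.1).symm
  · exact (key true true).congr fun x => ((hk _ _).2.2.2).symm

lemma cardN_le (j : ℕ) : Fintype.card (Fin (gN m j + 1)) ≤ X ^ 1 := by
  have := gN_le m j
  rw [Fintype.card_fin, pow_one]; omega

lemma pd_ins (j : ℕ) (i : Fin (gN m j + 1)) (c : Finset (Fin (gN m j + 1))) :
    PD X (D0 + 2) 3 (fun x => (circOf (applyF out x) j).ins i = c) := by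
  have h1 : ∀ h : Fin (gN m j + 1), PD X (D0 + 1) 1
      (fun x => ((circOf (applyF out x) j).wire h i ↔ h ∈ c)) := by
    intro h
    by_cases hc : h ∈ c
    · exact (pd_wire out hD hs hX j h i).congr fun x => by simp [hc]
    · exact (pd_wire out hD hs hX j h i).not.congr fun x => by simp [hc]
  refine (PD.all (by omega) (cardN_le out hD hs hX j) h1).congr ?_
  intro x
  rw [Finset.ext_iff]
  exact forall_congr' fun h => by rw [Ckt.mem_ins]

lemma pd_large (j : ℕ) (i : Fin (gN m j + 1)) :
    PD X (D0 + 3) 7 (fun x => 2 < ((circOf (applyF out x) j).ins i).card) := by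
  have h1 : ∀ p : Fin (gN m j + 1) × Fin (gN m j + 1) × Fin (gN m j + 1), PD X (D0 + 2) 3
      (fun x => ∀ l : Fin 3, ((circOf (applyF out x) j).wire
        (if l = 0 then p.1 else if l = 1 then p.2.1 else p.2.2) i) ∧
        (p.1 ≠ p.2.1 ∧ p.1 ≠ p.2.2 ∧ p.2.1 ≠ p.2.2)) := by
    intro p
    refine PD.all (c := 1) (by omega) (by rw [Fintype.card_fin, pow_one]; omega) ?_
    intro l
    by_cases hp : (p.1 ≠ p.2.1 ∧ p.1 ≠ p.2.2 ∧ p.2.1 ≠ p.2.2)
    · exact (pd_wire out hD hs hX j (if l = 0 then p.1 else if l = 1 then p.2.1 else p.2.2)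
        i).congr fun x => by simp [hp]
    · refine (PD.const (X := X) (D := D0 + 1) (a := 1) False (by omega) (by omega)).congr ?_
      intro x
      simp only [hp, and_false]
  have h2 := PD.ex (c := 3) (X := X) (by omega) (by
    rw [Fintype.card_prod, Fintype.card_prod]
    have := cardN_le out hD hs hX j
    rw [pow_one] at this
    calc _ ≤ X * (X * X) := Nat.mul_le_mul this (Nat.mul_le_mul this this)
      _ = X ^ 3 := by ring) h1
  refine h2.congr ?_
  intro x
  rw [Finset.two_lt_card]
  constructor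
  · rintro ⟨p, hp⟩
    refine ⟨p.1, Ckt.mem_ins.2 ?_, p.2.1, Ckt.mem_ins.2 ?_, p.2.2, Ckt.mem_ins.2 ?_, (hp 0).2⟩
    · simpa using (hp 0).1
    · simpa using (hp 1).1
    · simpa using (hp 2).1
  · rintro ⟨a, ha, b, hb, c, hc, hne⟩
    refine ⟨(a, b, c), fun l => ⟨?_, hne⟩⟩
    fin_cases l
    · simpa using Ckt.mem_ins.1 ha
    · simpa using Ckt.mem_ins.1 hb
    · simpa using Ckt.mem_ins.1 hc

lemma pd_WF (j : ℕ) : PD X (D0 + 8) 13 (fun x => (circOf (applyF out x) j).WF) := by
  have hX2 : 2 ≤ X := by omega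
  have hN := cardN_le out hD hs hX j
  have h0 : ∀ i : Fin (gN m j + 1), PD X (D0 + 3) 5
      (fun x => ((circOf (applyF out x) j).ins i).card = 0) := fun i =>
    ((pd_ins out hD hs hX j i ∅).mono (by omega) (by omega) (by omega)).congr
      fun x => Finset.card_eq_zero.symm
  have h1 : ∀ i : Fin (gN m j + 1), PD X (D0 + 3) 5
      (fun x => ((circOf (applyF out x) j).ins i).card = 1) := by
    intro i
    refine (PD.ex hX2 hN (fun h : Fin (gN m j + 1) => pd_ins out hD hs hX j i {h})).congr ?_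
    intro x
    rw [Finset.card_eq_one]
  have h2 : ∀ i : Fin (gN m j + 1), PD X (D0 + 3) 5
      (fun x => 1 ≤ ((circOf (applyF out x) j).ins i).card) := by
    intro i
    refine (h0 i).not.congr ?_
    intro x
    omega
  have hk : ∀ (i : Fin (gN m j + 1)) (κ : Kind), PD X (D0 + 3) 5
      (fun x => (circOf (applyF out x) j).kind i = κ) := fun i κ =>
    (pd_kind out hD hs hX j i κ).mono (by omega) (by omega) (by omega)
  have h3 : ∀ i : Fin (gN m j + 1), PD X (D0 + 7) 11 (fun x =>
      (((circOf (applyF out x) j).kind i = Kind.inp →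
        ((circOf (applyF out x) j).ins i).card = 0) ∧
      ((circOf (applyF out x) j).kind i = Kind.neg →
        ((circOf (applyF out x) j).ins i).card = 1)) ∧
      ((circOf (applyF out x) j).kind i = Kind.conj ∨
        (circOf (applyF out x) j).kind i = Kind.disj →
        1 ≤ ((circOf (applyF out x) j).ins i).card)) := by
    intro i
    have a1 := PD.or hX2 (hk i Kind.inp).not (h0 i)
    have a2 := PD.or hX2 (hk i Kind.neg).not (h1 i)
    have a3 := PD.and hX2 a1 a2
    have a4 := PD.or hX2 (hk i Kind.conj) (hk i Kind.disj)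
    have a5 := PD.or hX2 a4.not ((h2 i).mono (by omega) (by omega : D0 + 3 ≤ D0 + 3 + 1)
      (by omega : 5 ≤ 5 + 2))
    have a6 := PD.and hX2 a3 a5
    refine (a6.mono (by omega) (by omega) (by omega)).congr ?_
    intro x
    tauto
  refine (PD.all hX2 hN h3).congr ?_
  intro x
  unfold Ckt.WF
  apply forall_congr'
  intro i
  tauto

lemma pd_okR (j : ℕ) : ∀ (r t : ℕ) (i : Fin (gN m j + 1)),
    PD X (D0 + 3 + 5 * r) (7 + 10 * r) (fun x => (circOf (applyF out x) j).okR t r i) := by
  have hX2 : 2 ≤ X := by omega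
  have hN := cardN_le out hD hs hX j
  intro r
  induction r with
  | zero =>
    intro t i
    exact (pd_kind out hD hs hX j i Kind.inp).mono (by omega) (by omega) (by omega)
  | succ r ih =>
    intro t i
    have hall : ∀ t', PD X (D0 + 3 + 5 * r + 1 + 1) (7 + 10 * r + 2 + 1 + 1) (fun x =>
        ∀ h, (circOf (applyF out x) j).wire h i → (circOf (applyF out x) j).okR t' r h) := by
      intro t'
      refine (PD.all hX2 hN (fun h => PD.or hX2 ((pd_wire out hD hs hX j h i).mono (by omega)
        (by omega : D0 + 1 ≤ D0 + 3 + 5 * r) (by omega : 1 ≤ 7 + 10 * r)).not (ih t' h))).congr ?_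
      intro x
      apply forall_congr'
      intro h
      tauto
    have hl : PD X (D0 + 3 + 5 * r + 1 + 1) (7 + 10 * r + 2 + 1 + 1)
        (fun x => 2 < ((circOf (applyF out x) j).ins i).card) :=
      (pd_large out hD hs hX j i).mono (by omega) (by omega) (by omega)
    have hk : PD X (D0 + 3 + 5 * r + 1 + 1 + 1 + 1) (7 + 10 * r + 2 + 1 + 1 + 2 + 2)
        (fun x => (circOf (applyF out x) j).kind i = Kind.inp) :=
      (pd_kind out hD hs hX j i Kind.inp).mono (by omega) (by omega) (by omega)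
    have a1 := PD.and hX2 hl.not (hall t)
    by_cases ht : 1 ≤ t
    · have a2 := PD.and hX2 hl (hall (t - 1))
      have a3 := PD.or hX2 a1 a2
      have a4 := PD.or hX2 hk a3
      refine (a4.mono (by omega) (by omega) (by omega)).congr ?_
      intro x
      simp only [Ckt.okR, ht, true_and]
    · have a4 := PD.or hX2 hk (a1.mono (by omega) (by omega : _ ≤ D0 + 3 + 5 * r + 1 + 1 + 1 + 1)
        (by omega : _ ≤ 7 + 10 * r + 2 + 1 + 1 + 2 + 2))
      refine (a4.mono (by omega) (by omega) (by omega)).congr ?_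
      intro x
      simp only [Ckt.okR, ht, false_and, and_false, or_false]

lemma lead_le {m : ℕ} (x : Fin m → Bool) : lead x ≤ m := by
  unfold lead
  apply Nat.find_min'
  simp [bitN]

lemma pd_lead (j : ℕ) : PD X (D0 + 3) 5 (fun x => lead (applyF out x) = j) := by
  have hX2 : 2 ≤ X := by omega
  by_cases hj : j ≤ m
  · have h1 : PD X (D0 + 1 + 1) (1 + 1 + 1) (fun x => ∀ p : Fin j,
        bitN (applyF out x) p.val = true) :=
      PD.all hX2 (by rw [Fintype.card_fin, pow_one]; omega)
        (fun p => pd_bit out hD hs hX p.val)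
    have h2 := PD.and hX2 h1 ((pd_bitv out hD hs hX j false).mono (by omega)
      (by omega : D0 + 1 ≤ D0 + 1 + 1) (by omega : 1 ≤ 1 + 1 + 1))
    refine (h2.mono (by omega) (by omega) (by omega)).congr ?_
    intro x
    unfold lead
    rw [Nat.find_eq_iff]
    constructor
    · rintro ⟨h3, h4⟩
      refine ⟨h4, ?_⟩
      intro p hp
      rw [h3 ⟨p, hp⟩]
      simp
    · rintro ⟨h3, h4⟩
      refine ⟨?_, h3⟩
      intro p
      have := h4 p.1 p.2
      simpa using this
  · refine (PD.const (X := X) (D := D0 + 3) (a := 5) False (by omega) (by omega)).congr ?_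
    intro x
    simp only [false_iff]
    intro h
    have := lead_le out hD hs hX (applyF out x)
    omega

end target

end

end Pool.Agent.H592R2
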