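import Pool.Agent.H592R2.Phase1Thm
import Pool.Agent.H592R2.TargetCx
import Pool.Agent.H592R2.TargetF

set_option linter.unusedSectionVars false

/-! The weighted satisfiability problem of weft `t + 1` has no para-AC0 reduction to weft `t`. -/

namespace Pool.Agent.H592R2

open Finset Classical Filter

noncomputable section

lemma card_small (N : ℕ) :
    Fintype.card {c : Finset (Fin N) // c.card ≤ 2} ≤ N ^ 2 + 1 := by
  let f : Option (Fin N × Fin N) → {c : Finset (Fin N) // c.card ≤ 2} := fun o =>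
    match o with
    | none => ⟨∅, by simp⟩
    | some p => ⟨{p.1, p.2}, Finset.card_le_two⟩
  have hf : Function.Surjective f := by
    rintro ⟨c, hc⟩
    have h3 : c.card = 0 ∨ c.card = 1 ∨ c.card = 2 := by omega
    rcases h3 with h | h | h
    · rw [Finset.card_eq_zero] at h
      exact ⟨none, Subtype.ext h.symm⟩
    · rw [Finset.card_eq_one] at h
      obtain ⟨a, rfl⟩ := h
      exact ⟨some (a, a), Subtype.ext (by simp [f])⟩
    · rw [Finset.card_eq_two] at h
      obtain ⟨a, b, -, rfl⟩ := h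
      exact ⟨some (a, b), rfl⟩
  have := Fintype.card_le_of_surjective f hf
  rw [Fintype.card_option, Fintype.card_prod, Fintype.card_fin] at this
  rw [pow_two]; exact this

/-- indices of the local predicates of a circuit with `N` gates -/
abbrev LI (N : ℕ) : Type :=
  (Unit ⊕ (Fin N × (Bool × Bool))) ⊕ ((Fin N × Fin N) ⊕
    ((Fin N × {c : Finset (Fin N) // c.card ≤ 2}) ⊕ Fin N))

/-- the local predicates -/
def lpred (t d j m : ℕ) (x : Fin m → Bool) : LI (gN m j + 1) → Prop
  | .inl (.inl _) => lead x = j ∧ (circOf x j).WF ∧ (circOf x j).okR t d (circOf x j).out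
  | .inl (.inr p) => (circOf x j).kind p.1 = kindOf p.2.1 p.2.2
  | .inr (.inl p) => (circOf x j).wire p.1 p.2
  | .inr (.inr (.inl p)) => (circOf x j).ins p.1 = p.2.1
  | .inr (.inr (.inr i)) => 2 < ((circOf x j).ins i).card

lemma pd_lpred {n m D0 X : ℕ} (out : Fin m → Fml n) (hD : ∀ i, (out i).depth ≤ D0)
    (hs : ∀ i, (out i).size ≤ X) (hX : m + 4 ≤ X) (t d j : ℕ) (i : LI (gN m j + 1)) :
    PD X (D0 + 10 + 5 * d) (17 + 10 * d) (fun x => lpred t d j m (applyF out x) i) := by
  have hX2 : 2 ≤ X := by omega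
  rcases i with (_ | p) | (p | (p | i))
  · have h1 := (pd_lead out hD hs hX j).mono (by omega) (by omega : D0 + 3 ≤ D0 + 9 + 5 * d)
      (by omega : 5 ≤ 15 + 10 * d)
    have h2 := (pd_WF out hD hs hX j).mono (by omega) (by omega : D0 + 8 ≤ D0 + 8 + 5 * d)
      (by omega : 13 ≤ 13 + 10 * d)
    have h3 := (pd_okR out hD hs hX j d t (Fin.last _)).mono (by omega)
      (by omega : D0 + 3 + 5 * d ≤ D0 + 8 + 5 * d) (by omega : 7 + 10 * d ≤ 13 + 10 * d)
    have h4 := (PD.and hX2 h2 h3).mono (by omega) (by omega : _ ≤ D0 + 9 + 5 * d)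
      (by omega : _ ≤ 15 + 10 * d)
    exact (PD.and hX2 h1 h4).mono (by omega) (by omega) (by omega)
  · exact (pd_kind out hD hs hX j p.1 _).mono (by omega) (by omega) (by omega)
  · exact (pd_wire out hD hs hX j p.1 p.2).mono (by omega) (by omega) (by omega)
  · exact (pd_ins out hD hs hX j p.1 p.2.1).mono (by omega) (by omega) (by omega)
  · exact (pd_large out hD hs hX j i).mono (by omega) (by omega) (by omega)

lemma card_LI {N X : ℕ} (hN : N ≤ X) (hX : 4 ≤ X) : Fintype.card (LI N) ≤ X ^ 5 := by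
  simp only [Fintype.card_sum, Fintype.card_prod, Fintype.card_unit, Fintype.card_fin,
    Fintype.card_bool]
  have h1 := card_small N
  set c := Fintype.card {c : Finset (Fin N) // c.card ≤ 2}
  have h2 : c ≤ X ^ 2 + 1 := h1.trans (Nat.add_le_add_right (Nat.pow_le_pow_left hN 2) 1)
  have h3 : N * c ≤ X * (X ^ 2 + 1) := Nat.mul_le_mul hN h2
  have h4 : N * N ≤ X * X := Nat.mul_le_mul hN hN
  have h5 : X ≤ X ^ 2 := by nlinarith
  have h6 : X ^ 2 ≤ X ^ 3 := Nat.pow_le_pow_right (by omega) (by norm_num)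
  have h7 : X ^ 5 = X ^ 3 * X ^ 2 := by ring
  have h8 : 16 ≤ X ^ 2 := by nlinarith
  have h9 : X ^ 3 * 16 ≤ X ^ 3 * X ^ 2 := Nat.mul_le_mul_left _ h8
  have h10 : X * (X ^ 2 + 1) = X ^ 3 + X := by ring
  have h11 : X * X = X ^ 2 := by ring
  rw [h7]
  omega

/-- acceptance in terms of local predicates and recursive values -/
lemma wsat_iff {m : ℕ} (x : Fin m → Bool) (t d g : ℕ) (hg : lead x ≤ g) :
    (pWSAT t d).Q m x ↔ ∃ (j : Fin (g + 1)) (σ : Fin j.val → Fin (gN m j.val + 1)),
      (lpred t d j.val m x (.inl (.inl ()))) ∧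
      (Finset.univ.image σ).card = j.val ∧
      (circOf x j.val).valR (Finset.univ.image σ) t d (circOf x j.val).out ∧
      ∀ l, (circOf x j.val).kind (σ l) = Kind.inp := by
  constructor
  · rintro ⟨h1, h2, h3⟩
    obtain ⟨hok, S, hS1, hS2, hS3⟩ := (Ckt.sat_iff (circOf x (lead x))
      (fun j i h => h.1) h1 t d (lead x)).1 ⟨h2, h3⟩
    refine ⟨⟨lead x, by omega⟩, fun l => (S.orderEmbOfFin hS1 l), ?_, ?_, ?_, ?_⟩
    · exact ⟨rfl, h1, hok⟩
    · have : Finset.univ.image (fun l => S.orderEmbOfFin hS1 l) = S := by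
        apply Finset.coe_injective
        rw [Finset.coe_image, Finset.coe_univ, Set.image_univ]
        exact Finset.range_orderEmbOfFin S hS1
      rw [this]; exact hS1
    · have : Finset.univ.image (fun l => S.orderEmbOfFin hS1 l) = S := by
        apply Finset.coe_injective
        rw [Finset.coe_image, Finset.coe_univ, Set.image_univ]
        exact Finset.range_orderEmbOfFin S hS1
      rw [this]; exact hS3
    · intro l
      exact hS2 _ (Finset.orderEmbOfFin_mem S hS1 l)
  · rintro ⟨⟨j, hj⟩, σ, ⟨h1, h2, h3⟩, h4, h5, h6⟩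
    simp only at h1 h2 h3 h4 h5 h6
    subst h1
    obtain ⟨h7, h8⟩ := (Ckt.sat_iff (circOf x (lead x))
      (fun j i h => h.1) h2 t d (lead x)).2 ⟨h3, Finset.univ.image σ, h4, (by
        intro i hi
        rw [Finset.mem_image] at hi
        obtain ⟨l, -, rfl⟩ := hi
        exact h6 l), h5⟩
    exact ⟨h2, h7, h8⟩

/-- the predicates of the final disjunction of conjunctions -/
def fpred {n m : ℕ} (out : Fin m → Fml n) (t d g : ℕ)
    (a : Σ j : Fin (g + 1), (Fin j.val → Fin (gN m j.val + 1))) (l : Fin 3 ⊕ Fin g)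
    (x : Fin n → Bool) : Prop :=
  match l with
  | .inl i => if i = 0 then lpred t d a.1.val m (applyF out x) (.inl (.inl ()))
      else if i = 1 then (Finset.univ.image a.2).card = a.1.val
      else (circOf (applyF out x) a.1.val).valR (Finset.univ.image a.2) t d
        (circOf (applyF out x) a.1.val).out
  | .inr i => ∀ h : i.val < a.1.val, (circOf (applyF out x) a.1.val).kind (a.2 ⟨i.val, h⟩) =
      Kind.inp

lemma fpred_iff {n m : ℕ} (out : Fin m → Fml n) (t d g : ℕ) (x : Fin n → Bool)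
    (hg : lead (applyF out x) ≤ g) :
    (pWSAT t d).Q m (applyF out x) ↔ ∃ a, ∀ l, fpred out t d g a l x := by
  rw [wsat_iff _ t d g hg]
  constructor
  · rintro ⟨j, σ, h1, h2, h3, h4⟩
    refine ⟨⟨j, σ⟩, ?_⟩
    rintro (i | i)
    · fin_cases i
      · simpa [fpred] using h1
      · simpa [fpred] using h2
      · simpa [fpred] using h3
    · intro h
      exact h4 _
  · rintro ⟨⟨j, σ⟩, h⟩
    refine ⟨j, σ, ?_, ?_, ?_, ?_⟩
    · simpa [fpred] using h (.inl 0)
    · simpa [fpred] using h (.inl 1)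
    · simpa [fpred] using h (.inl 2)
    · intro l
      have := h (.inr ⟨l.val, by have := l.2; have := j.2; omega⟩)
      exact this l.2

theorem no_redW (s d : ℕ) :
    ¬ ParaAC0Red (pWSAT (s + 1 + 1) (3 + 2 * (s + 1))) (pWSAT (s + 1) d) := by
  rintro ⟨D0, c0, f, g, hred⟩
  obtain ⟨D, hD⟩ : ∃ D, D = D0 + 10 + 5 * d := ⟨_, rfl⟩
  obtain ⟨as, has⟩ : ∃ as, as = 22 + 10 * d := ⟨_, rfl⟩
  obtain ⟨w0, α, hph⟩ := phase1 s D (c0 * as)
  obtain ⟨A, hA⟩ : ∃ A, A = 2 ^ (w0 + 1) := ⟨_, rfl⟩
  have hA1 : 1 ≤ A := by rw [hA]; exact Nat.one_le_two_pow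
  obtain ⟨k, hkmin, hk1, hph⟩ := hph (A ^ (8 * d) * w0 + 1)
  obtain ⟨gk, hgk⟩ : ∃ gk, gk = g k := ⟨_, rfl⟩
  have hph := hph ((gk + 1) * (f k + 4) ^ as)
  obtain ⟨Cn, hCn⟩ : ∃ Cn, Cn = k + 2 + 3 * (k ^ 2 + 3 * k + 2 + 2 * (s + 1 + 1)) ^ 2 := ⟨_, rfl⟩
  obtain ⟨C, hC⟩ : ∃ C, C = (gk + 1) * (3 + gk) * (6 * 2 ^ w0 + 4) ^ d *
    ((f k + 4) * Cn ^ c0) ^ (gk + d) := ⟨_, rfl⟩
  obtain ⟨G, hG⟩ : ∃ G, G = 4 * (α + 4) * (s + 1) * c0 * (gk + d) := ⟨_, rfl⟩
  have hp2 := p2main s A (8 * d) w0 C G ((α + 4) * s) (3 + gk) (1 / (k : ℝ)) hA1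
    (by have : (0 : ℝ) < k := by exact_mod_cast hk1
        positivity)
    (by rw [div_le_one (by exact_mod_cast hk1)]; exact_mod_cast hk1)
  obtain ⟨b, ⟨hb1, hb2⟩, hb3⟩ := ((hph.and hp2).and (eventually_ge_atTop 2)).exists
  obtain ⟨B, hB⟩ : ∃ B, B = b ^ (α + 1) := ⟨_, rfl⟩
  have hb1 := hb1 B hB
  have hcardE : Fintype.card (EE b (b ^ 2) B) = b ^ (α + 4) := by
    rw [Fintype.card_prod, Fintype.card_prod, Fintype.card_fin, Fintype.card_fin,
      Fintype.card_fin, hB]
    ring
  have hnLen : nLen k (Fin B) (EE b (b ^ 2) B) (s + 1) + 1 ≤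
      Cn * b ^ (4 * (α + 4) * (s + 1)) := by
    rw [hCn]
    exact nLen_le (by omega) (by omega) (by rw [Fintype.card_fin, hB]) hcardE
  obtain ⟨m, out, hm, hout, hr⟩ := hred (nLen k (Fin B) (EE b (b ^ 2) B) (s + 1)) k
  obtain ⟨n, hn⟩ : ∃ n, n = nLen k (Fin B) (EE b (b ^ 2) B) (s + 1) := ⟨_, rfl⟩
  rw [← hn] at hm hnLen
  obtain ⟨X, hX⟩ : ∃ X, X = f k * (n + 1) ^ c0 + 4 := ⟨_, rfl⟩
  have hmX : m + 4 ≤ X := by omega
  have hX4 : 4 ≤ X := by omega
  have hs : ∀ i, (out i).size ≤ X := fun i => (hout i).2.trans (by rw [hX, hn]; omega)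
  have hDo : ∀ i, (out i).depth ≤ D0 := fun i => (hout i).1
  have hXn : X ≤ (f k + 4) * (n + 1) ^ c0 := by
    rw [hX, add_mul]
    have : 1 ≤ (n + 1) ^ c0 := Nat.one_le_pow _ _ (by omega)
    omega
  have hNX : ∀ j, gN m j + 1 ≤ X := fun j => (gN_le m j).trans (by omega)
  -- the base formulas
  have hPD : ∀ i : (Σ j : Fin (gk + 1), LI (gN m j.val + 1)),
      PD X (D0 + 10 + 5 * d) (17 + 10 * d)
        (fun x => lpred (s + 1) d i.1.val m (applyF out x) i.2) := fun i =>
    pd_lpred out hDo hs hmX (s + 1) d i.1.val i.2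
  choose φ hφ1 hφ2 hφ3 using hPD
  have hsize : ∑ i, (φ i).size ≤ ((gk + 1) * (f k + 4) ^ as) * (n + 1) ^ (c0 * as) := by
    have h1 : ∑ i, (φ i).size ≤
        Fintype.card (Σ j : Fin (gk + 1), LI (gN m j.val + 1)) * X ^ (17 + 10 * d) := by
      have := Finset.sum_le_card_nsmul Finset.univ (fun i => (φ i).size) _ (fun i _ => hφ2 i)
      rwa [Finset.card_univ, smul_eq_mul] at this
    have h2 : Fintype.card (Σ j : Fin (gk + 1), LI (gN m j.val + 1)) ≤ (gk + 1) * X ^ 5 := by
      rw [Fintype.card_sigma]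
      have := Finset.sum_le_card_nsmul (Finset.univ : Finset (Fin (gk + 1)))
        (fun j => Fintype.card (LI (gN m j.val + 1))) (X ^ 5)
        (fun j _ => card_LI (hNX j.val) hX4)
      rwa [Finset.card_univ, Fintype.card_fin, smul_eq_mul] at this
    calc _ ≤ _ := h1
      _ ≤ (gk + 1) * X ^ 5 * X ^ (17 + 10 * d) := Nat.mul_le_mul_right _ h2
      _ = (gk + 1) * X ^ as := by
          rw [has, mul_assoc, ← pow_add]; congr 2; ring
      _ ≤ (gk + 1) * ((f k + 4) * (n + 1) ^ c0) ^ as :=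
          Nat.mul_le_mul_left _ (Nat.pow_le_pow_left hXn _)
      _ = _ := by rw [mul_pow, ← pow_mul, mul_assoc]
  obtain ⟨emb, hemb1, hemb2⟩ := hb1 _ φ (fun i => (hφ1 i).trans hD.ge)
    (hsize.trans_eq (by rw [hn]))
  have hjn : ∀ (j : Fin (gk + 1)) (i : LI (gN m j.val + 1)),
      Jn w0 (fun q => lpred (s + 1) d j.val m (applyF out (emb q)) i) := by
    intro j i
    have h1 := hemb2 ⟨j, i⟩
    have h2 : (fun q => (φ ⟨j, i⟩).Holds (emb q)) =
        (fun q => lpred (s + 1) d j.val m (applyF out (emb q)) i) := by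
      funext q
      exact propext (hφ3 ⟨j, i⟩ (emb q))
    rwa [h2] at h1
  -- the final family
  have hk0 : (0 : ℝ) < k := by exact_mod_cast hk1
  have hneF : Nonempty (Fin k) := ⟨⟨0, hk1⟩⟩
  refine hb2 (Fin (b ^ 2)) (Fin (b ^ 2) × Fin B) (Fin k) (by rw [Fintype.card_fin]) ?_ ?_ ?_
    (Σ j : Fin (gk + 1), (Fin j.val → Fin (gN m j.val + 1))) (Fin 3 ⊕ Fin gk) ?_
    (fun p q => fpred out (s + 1) d gk p.1 p.2 (emb q))
    (fun _ => (6 * 2 ^ w0 + 2 * X + 2) ^ d) ?_ ?_ ?_
  · rw [Fintype.card_prod, Fintype.card_fin, Fintype.card_fin]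
    apply Nat.le_mul_of_pos_right
    rw [hB]; positivity
  · rw [Lv.card_eq]
    have : Fintype.card (Fin b × (Fin (b ^ 2) × Fin B)) = b ^ (α + 4) := hcardE
    rw [this, ← pow_mul]
  · rw [Fintype.card_fin]
    apply div_le_div_of_nonneg_right _ hk0.le
    have : ((A ^ (8 * d) * w0 + 1 : ℕ) : ℝ) ≤ k := by exact_mod_cast hkmin
    push_cast at this ⊢
    linarith
  · rw [Fintype.card_sum, Fintype.card_fin, Fintype.card_fin]
  · rintro ⟨⟨j, σ⟩, l⟩
    rcases l with i | i
    · by_cases h0 : i = 0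
      · subst h0
        exact Cx.ofJn (hjn j (.inl (.inl ()))) _ _ _
      · by_cases h1 : i = 1
        · subst h1
          exact Cx.ofJn (Jn.const _) _ _ _
        · have h2 : i = 2 := by
            fin_cases i
            · exact absurd rfl h0
            · exact absurd rfl h1
            · rfl
          subst h2
          have hv := valR_cx (A := A) (w := w0) (by rw [hA])
            (fun q => circOf (applyF out (emb q)) j.val)
            (fun i κ => by
              have := hjn j (.inl (.inr (i, (kb1 κ, kb2 κ))))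
              simp only [lpred, kindOf_kb] at this
              exact this)
            (fun h i => hjn j (.inr (.inl (h, i))))
            (fun i c => hjn j (.inr (.inr (.inl (i, c)))))
            (fun i => hjn j (.inr (.inr (.inr i))))
            (Finset.univ.image σ) d (s + 1) (Fin.last _)
          refine Cx.mono hv le_rfl le_rfl ?_
          apply Nat.pow_le_pow_left
          have := hNX j.val
          omega
    · change Cx A w0 (s + 1) (8 * d) _ (fun q => ∀ h : i.val < j.val,
        (circOf (applyF out (emb q)) j.val).kind (σ ⟨i.val, h⟩) = Kind.inp)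
      by_cases h : i.val < j.val
      · have := hjn j (.inl (.inr (σ ⟨i.val, h⟩, (kb1 Kind.inp, kb2 Kind.inp))))
        simp only [lpred, kindOf_kb] at this
        refine (Cx.ofJn this _ _ _).congr ?_
        intro q
        exact ⟨fun h1 _ => h1, fun h1 => h1 h⟩
      · exact (Cx.ofJn (Jn.const True) _ _ _).congr (fun q => by simp [h])
  · rw [Finset.sum_const, Finset.card_univ, smul_eq_mul, Fintype.card_prod, Fintype.card_sum,
      Fintype.card_fin, Fintype.card_fin]
    have h1 : Fintype.card (Σ j : Fin (gk + 1), (Fin j.val → Fin (gN m j.val + 1))) ≤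
        (gk + 1) * X ^ gk := by
      rw [Fintype.card_sigma]
      have := Finset.sum_le_card_nsmul (Finset.univ : Finset (Fin (gk + 1)))
        (fun j => Fintype.card (Fin j.val → Fin (gN m j.val + 1))) (X ^ gk)
        (fun j _ => by
          rw [Fintype.card_fun, Fintype.card_fin, Fintype.card_fin]
          calc (gN m j.val + 1) ^ j.val ≤ X ^ j.val := Nat.pow_le_pow_left (hNX _) _
            _ ≤ X ^ gk := Nat.pow_le_pow_right (by omega) (by have := j.2; omega))
      rwa [Finset.card_univ, Fintype.card_fin, smul_eq_mul] at this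
    have h2 : (6 * 2 ^ w0 + 2 * X + 2) ^ d ≤ (6 * 2 ^ w0 + 4) ^ d * X ^ d := by
      rw [← mul_pow]
      apply Nat.pow_le_pow_left
      have h3 : 6 * 2 ^ w0 ≤ 6 * 2 ^ w0 * X := Nat.le_mul_of_pos_right _ (by omega)
      rw [add_mul]
      omega
    have h3 : X ≤ ((f k + 4) * Cn ^ c0) * b ^ (4 * (α + 4) * (s + 1) * c0) := by
      calc X ≤ (f k + 4) * (n + 1) ^ c0 := hXn
        _ ≤ (f k + 4) * (Cn * b ^ (4 * (α + 4) * (s + 1))) ^ c0 :=
            Nat.mul_le_mul_left _ (Nat.pow_le_pow_left hnLen _)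
        _ = _ := by rw [mul_pow, ← pow_mul]; ring
    calc _ ≤ ((gk + 1) * X ^ gk * (3 + gk)) * ((6 * 2 ^ w0 + 4) ^ d * X ^ d) :=
          Nat.mul_le_mul (Nat.mul_le_mul_right _ h1) h2
      _ = ((gk + 1) * (3 + gk) * (6 * 2 ^ w0 + 4) ^ d) * X ^ (gk + d) := by
          rw [pow_add]; ring
      _ ≤ ((gk + 1) * (3 + gk) * (6 * 2 ^ w0 + 4) ^ d) *
          (((f k + 4) * Cn ^ c0) * b ^ (4 * (α + 4) * (s + 1) * c0)) ^ (gk + d) :=
          Nat.mul_le_mul_left _ (Nat.pow_le_pow_left h3 _)
      _ = C * b ^ G := by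
          rw [hC, hG, mul_pow, ← pow_mul]; ring
  · intro q
    obtain ⟨h1, h2⟩ := hemb1 q
    have h3 := hr (emb q) h1
    have h4 : lead (applyF out (emb q)) ≤ gk := by rw [hgk]; exact h3.2
    rw [← h2, h3.1, fpred_iff out (s + 1) d gk (emb q) h4]

/-- the string of zeros is a no-instance -/
lemma not_wsat_zero (t d m : ℕ) : ¬ (pWSAT t d).Q m (fun _ => false) := by
  have hl : lead (fun _ : Fin m => false) = 0 := by
    unfold lead
    rw [Nat.find_eq_zero]
    unfold bitN
    split_ifs <;> rfl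
  have hb : ∀ p, bitN (fun _ : Fin m => false) p = false := by
    intro p; unfold bitN; split_ifs <;> rfl
  rintro ⟨-, -, v, -, hcard, hout⟩
  have hcard := hcard.trans hl
  rw [Finset.card_eq_zero] at hcard
  have : (circOf (fun _ : Fin m => false) (lead (fun _ : Fin m => false))).out ∈
      (Finset.univ.filter (fun i => (circOf (fun _ : Fin m => false)
        (lead (fun _ : Fin m => false))).kind i = Kind.inp ∧ v i)) := by
    rw [Finset.mem_filter]
    refine ⟨Finset.mem_univ _, ?_, hout⟩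
    simp only [circOf, hb, kindOf]
  rw [hcard] at this
  simp at this

/-- the hierarchy is increasing -/
theorem WAC0_mono (t : ℕ) : WAC0 t ⊆ WAC0 (t + 1) := by
  rintro P ⟨d, hd, D0, c0, f, g, hred⟩
  refine ⟨d, hd, D0 + 12 + 5 * d, c0 * (17 + 10 * d),
    fun k => (g k + 4) * (f k + 4) ^ (17 + 10 * d), g, ?_⟩
  intro n k
  obtain ⟨m, out, hm, hout, hr⟩ := hred n k
  obtain ⟨X, hX⟩ : ∃ X, X = f k * (n + 1) ^ c0 + 4 := ⟨_, rfl⟩
  have hmX : m + 4 ≤ X := by omega
  have hX4 : 4 ≤ X := by omega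
  have hs : ∀ i, (out i).size ≤ X := fun i => (hout i).2.trans (by rw [hX]; omega)
  have hDo : ∀ i, (out i).depth ≤ D0 := fun i => (hout i).1
  have hXn : X ≤ (f k + 4) * (n + 1) ^ c0 := by
    rw [hX, add_mul]
    have : 1 ≤ (n + 1) ^ c0 := Nat.one_le_pow _ _ (by omega)
    omega
  have hXX : X ≤ X ^ (17 + 10 * d) := by
    calc X = X ^ 1 := (pow_one X).symm
      _ ≤ _ := Nat.pow_le_pow_right (by omega) (by omega)
  have hbound : (g k + 4) * X ^ (17 + 10 * d) ≤
      (g k + 4) * (f k + 4) ^ (17 + 10 * d) * (n + 1) ^ (c0 * (17 + 10 * d)) := by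
    calc _ ≤ (g k + 4) * ((f k + 4) * (n + 1) ^ c0) ^ (17 + 10 * d) :=
          Nat.mul_le_mul_left _ (Nat.pow_le_pow_left hXn _)
      _ = _ := by rw [mul_pow, ← pow_mul, mul_assoc]
  have hPD : ∀ j : Fin (g k + 1), PD X (D0 + 10 + 5 * d) (17 + 10 * d)
      (fun x => lpred t d j.val m (applyF out x) (.inl (.inl ()))) := fun j =>
    pd_lpred out hDo hs hmX t d j.val _
  choose φ hφ1 hφ2 hφ3 using hPD
  refine ⟨m, fun i => andF (fun b : Bool => if b then out i else orF φ), ?_, ?_, ?_⟩
  · refine le_trans ?_ hbound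
    calc m ≤ X := by omega
      _ ≤ X ^ (17 + 10 * d) := hXX
      _ ≤ _ := Nat.le_mul_of_pos_left _ (by omega)
  · intro i
    constructor
    · have h12 : D0 + 12 + 5 * d = (D0 + 11 + 5 * d) + 1 := by omega
      rw [h12]
      apply depth_andF_le
      intro b
      cases b
      · simp only [Bool.false_eq_true, if_false]
        exact (depth_orF_le hφ1).trans (by omega)
      · simp only [if_true]
        exact (hDo i).trans (by omega)
    · refine le_trans ?_ hbound
      beta_reduce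
      rw [size_andF]
      simp only [Fintype.sum_bool, if_true, Bool.false_eq_true, if_false]
      have h1 := size_orF_le hφ2
      rw [Fintype.card_fin] at h1
      have h2 := hs i
      have h3 : 1 ≤ X ^ (17 + 10 * d) := Nat.one_le_pow _ _ (by omega)
      have h4 : (g k + 4) * X ^ (17 + 10 * d) = (g k + 1) * X ^ (17 + 10 * d) +
          3 * X ^ (17 + 10 * d) := by ring
      omega
  · intro x hx
    obtain ⟨h1, h2⟩ := hr x hx
    have h2' : lead (applyF out x) ≤ g k := h2
    have hV : (orF φ).Holds x ↔ lpred t d (lead (applyF out x)) m (applyF out x)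
        (.inl (.inl ())) := by
      rw [holds_orF]
      constructor
      · rintro ⟨j, hj⟩
        have h3 := (hφ3 j x).1 hj
        have h4 : lead (applyF out x) = j.val := h3.1
        rw [h4]; exact h3
      · intro h3
        exact ⟨⟨lead (applyF out x), by omega⟩, (hφ3 _ x).2 h3⟩
    by_cases hv : lpred t d (lead (applyF out x)) m (applyF out x) (.inl (.inl ()))
    · have h3 : applyF (fun i => andF (fun b : Bool => if b then out i else orF φ)) x =
          applyF out x := by
        funext i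
        simp only [applyF]
        congr 1
        apply propext
        rw [holds_andF]
        constructor
        · intro h; exact h true
        · intro h b
          cases b
          · exact hV.2 hv
          · exact h
      rw [h3]
      refine ⟨?_, h2⟩
      rw [h1]
      have hin : (circOf (applyF out x) (lead (applyF out x))).InC t d :=
        (Ckt.ok_iff hv.2.1 (fun i => i.val) (fun j i hji => hji.1) d t _).2 hv.2.2
      constructor
      · rintro ⟨h4, h5, h6⟩
        exact ⟨h4, fun l w hp => ⟨(h5 l w hp).1.trans (by omega), (h5 l w hp).2⟩, h6⟩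
      · rintro ⟨h4, h5, h6⟩
        exact ⟨h4, hin, h6⟩
    · have h3 : applyF (fun i => andF (fun b : Bool => if b then out i else orF φ)) x =
          fun _ => false := by
        funext i
        simp only [applyF, decide_eq_false_iff_not]
        rw [holds_andF]
        intro h
        exact hv (hV.1 (h false))
      rw [h3]
      constructor
      · rw [h1]
        constructor
        · rintro ⟨h4, h5, h6⟩
          exact absurd ⟨rfl, h4, (Ckt.ok_iff h4 (fun i => i.val)
            (fun j i hji => hji.1) d t _).1 h5⟩ hv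
        · intro h; exact absurd h (not_wsat_zero _ _ _)
      · have hl : lead (fun _ : Fin m => false) = 0 := by
          unfold lead
          rw [Nat.find_eq_zero]
          unfold bitN
          split_ifs <;> rfl
        change lead (fun _ : Fin m => false) ≤ g k
        omega

/-- the identity is a reduction -/
lemma ParaAC0Red.rfl' (P : ParamProblem) : ParaAC0Red P P := by
  refine ⟨0, 1, fun _ => 1, fun k => k, fun n k => ⟨n, fun i => Fml.lit i true, by simp, ?_, ?_⟩⟩
  · intro i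
    simp [Fml.depth, Fml.size]
  · intro x hx
    have : applyF (fun i => Fml.lit i true) x = x := by
      funext i
      simp [applyF]
    rw [this]
    exact ⟨Iff.rfl, hx.le⟩

/-- the W-hierarchy with respect to para-AC0 reductions is strict -/
theorem WAC0_strict (t : ℕ) (ht : 1 ≤ t) : WAC0 t ⊂ WAC0 (t + 1) := by
  obtain ⟨s, rfl⟩ : ∃ s, t = s + 1 := ⟨t - 1, by omega⟩
  refine ⟨WAC0_mono _, ?_⟩
  intro h
  obtain ⟨d, -, hd⟩ := h (show pWSAT (s + 1 + 1) (3 + 2 * (s + 1)) ∈ WAC0 (s + 1 + 1) from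
    ⟨3 + 2 * (s + 1), by omega, ParaAC0Red.rfl' _⟩)
  exact no_redW s d hd

end

end Pool.Agent.H592R2
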