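import Pool.Agent.H592R2.Round
import Pool.Agent.H592R2.Fml

set_option linter.unusedSectionVars false

/-! Phase 1: all rounds, for constant-depth formulas. -/

namespace Pool.Agent.H592R2

open Finset Classical

noncomputable section

variable {D : ℕ} {V : Type} [Fintype V] [DecidableEq V] {τ : Type} [Fintype τ] [Nonempty τ]
  [DecidableEq τ]

lemma Loc.not {K : Finset V} {G : (V → V → Bool) → Prop} (h : Loc K G) :
    Loc K (fun z => ¬ G z) := by
  intro z z' hzz' hn hG
  exact hn (h z' z (fun v hv v' hv' => (hzz' v hv v' hv').symm) hG)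

lemma LocAt.not {A : Finset τ} {S i : ℕ} {ω : Crd D V → τ} {G : (V → V → Bool) → Prop}
    (h : LocAt A S i ω G) : LocAt A S i ω (fun z => ¬ G z) := by
  obtain ⟨K, h1, h2, h3⟩ := h
  exact ⟨K, h1, h2, h3.not⟩

lemma LocAt.congr {A : Finset τ} {S i : ℕ} {ω : Crd D V → τ} {G G' : (V → V → Bool) → Prop}
    (h : LocAt A S i ω G) (hG : ∀ z, G z ↔ G' z) : LocAt A S i ω G' := by
  have : G = G' := by funext z; exact propext (hG z)
  rwa [← this]

/-- restricting a local function keeps it local -/
lemma LocAt_of_Loc (A Mi : Finset τ) (maj : V → V → Bool) {S i : ℕ} (ω : Crd D V → τ)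
    {K : Finset V} {G : (V → V → Bool) → Prop} (hK : K.card < S) (h : Loc K G) :
    LocAt A S i ω (fun z => G (rho A Mi maj i ω z)) := by
  refine ⟨K.filter (Al A i ω), (Finset.card_filter_le _ _).trans_lt hK,
    fun v hv => (Finset.mem_filter.mp hv).2, ?_⟩
  intro z z' hzz'
  apply h
  intro v hv v' hv'
  simp only [rho]
  split_ifs with hc
  · exact hzz' v (Finset.mem_filter.mpr ⟨hv, hc.1⟩) v' (Finset.mem_filter.mpr ⟨hv', hc.2⟩)
  · rfl

/-- parameters of Phase 1 -/
structure P1 (A Mi : Finset τ) (S : ℕ) (β c u : ℝ) : Prop where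
  hS : 3 ≤ S
  hβ0 : 0 ≤ β
  hβ1 : β ≤ 1
  hA : β ≤ ((Finset.univ \ A : Finset τ).card : ℝ) / Fintype.card τ
  hM : β ≤ (Mi.card : ℝ) / Fintype.card τ
  hM' : β ≤ ((Finset.univ \ Mi : Finset τ).card : ℝ) / Fintype.card τ
  hc : 0 ≤ c
  hc1 : c ≤ 1
  hu : 0 ≤ u
  hu1 : u ≤ 1
  hp : (A.card : ℝ) / Fintype.card τ = u * c
  huw : 2 ^ S * u ≤ β ^ (S + S ^ 2) / 2 ^ (S ^ 2)

/-- the restricted formula is local except with probability `size * c ^ S` -/
theorem fml_local {A Mi : Finset τ} {S : ℕ} {β c u : ℝ} (hP : P1 A Mi S β c u)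
    (maj : V → V → Bool) {n : ℕ} (enc : (V → V → Bool) → (Fin n → Bool))
    (henc : ∀ i : Fin n, ∃ v v' : V, Loc {v, v'} (fun z => enc z i = true)) (φ : Fml n) :
    ∀ i : ℕ, i ≤ D → φ.depth ≤ i →
      avg (fun ω : Crd D V → τ => ind (¬ LocAt A S i ω
        (fun z => φ.Holds (enc (rho A Mi maj i ω z))))) ≤ φ.size * c ^ S := by
  have hor : ∀ (m : ℕ) (G : Fin m → (V → V → Bool) → Prop) (sz : Fin m → ℕ) (i : ℕ), i < D →
      (∀ j, avg (fun ω : Crd D V → τ => ind (¬ LocAt A S i ω
        (fun z => G j (rho A Mi maj i ω z)))) ≤ sz j * c ^ S) →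
      avg (fun ω : Crd D V → τ => ind (¬ LocAt A S (i + 1) ω
        (fun z => ∃ j, G j (rho A Mi maj (i + 1) ω z)))) ≤ ((∑ j, sz j + 1 : ℕ) : ℝ) * c ^ S := by
    intro m G sz i hi hG
    have hrc := round_cond A Mi maj (⟨i, hi⟩ : Fin D) G (List.finRange m) (by linarith [hP.hS])
      hP.hβ0 hP.hβ1 hP.hA hP.hM hP.hM' hP.hc hP.hc1 hP.hu hP.hu1 hP.hp hP.huw
    simp only [List.mem_finRange, true_and, forall_const] at hrc
    have hpt : ∀ ω : Crd D V → τ, ind (¬ LocAt A S (i + 1) ω
        (fun z => ∃ j, G j (rho A Mi maj (i + 1) ω z))) ≤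
        (∑ j : Fin m, ind (¬ LocAt A S i ω (fun z => G j (rho A Mi maj i ω z)))) +
        ind ((∀ l, LocAt A S i ω (G l ∘ rho A Mi maj i ω)) ∧
          ¬ LocAt A S (i + 1) ω (fun z => ∃ l, G l (rho A Mi maj (i + 1) ω z))) := by
      intro ω
      by_cases hall : ∀ l, LocAt A S i ω (G l ∘ rho A Mi maj i ω)
      · have h0 : 0 ≤ ∑ j : Fin m, ind (¬ LocAt A S i ω (fun z => G j (rho A Mi maj i ω z))) :=
          Finset.sum_nonneg fun _ _ => ind_nonneg _
        have h1 : ind (¬ LocAt A S (i + 1) ω (fun z => ∃ j, G j (rho A Mi maj (i + 1) ω z))) ≤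
            ind ((∀ l, LocAt A S i ω (G l ∘ rho A Mi maj i ω)) ∧
          ¬ LocAt A S (i + 1) ω (fun z => ∃ l, G l (rho A Mi maj (i + 1) ω z))) :=
          ind_mono fun h => ⟨hall, h⟩
        linarith
      · push Not at hall
        obtain ⟨l, hl⟩ := hall
        have h1 : (1:ℝ) ≤ ∑ j : Fin m, ind (¬ LocAt A S i ω (fun z => G j (rho A Mi maj i ω z))) := by
          have := Finset.single_le_sum (f := fun j : Fin m =>
            ind (¬ LocAt A S i ω (fun z => G j (rho A Mi maj i ω z))))
            (fun _ _ => ind_nonneg _) (Finset.mem_univ l)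
          exact (ind_true (p := ¬ LocAt A S i ω (fun z => G l (rho A Mi maj i ω z))) hl).symm.le.trans
            this
        have h2 := ind_le_one (¬ LocAt A S (i + 1) ω
          (fun z => ∃ j, G j (rho A Mi maj (i + 1) ω z)))
        have h3 := ind_nonneg ((∀ l, LocAt A S i ω (G l ∘ rho A Mi maj i ω)) ∧
          ¬ LocAt A S (i + 1) ω (fun z => ∃ l, G l (rho A Mi maj (i + 1) ω z)))
        linarith
    refine (avg_mono hpt).trans ?_
    rw [avg_add, avg_sum]
    have h1 : ∑ j : Fin m, avg (fun ω : Crd D V → τ => ind (¬ LocAt A S i ω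
        (fun z => G j (rho A Mi maj i ω z)))) ≤ ∑ j : Fin m, (sz j : ℝ) * c ^ S :=
      Finset.sum_le_sum fun j _ => hG j
    rw [← Finset.sum_mul] at h1
    push_cast
    rw [add_mul, one_mul]
    exact add_le_add h1 hrc
  induction φ with
  | lit l b =>
    intro i hi hd
    have : (fun ω : Crd D V → τ => ind (¬ LocAt A S i ω
        (fun z => (Fml.lit l b).Holds (enc (rho A Mi maj i ω z))))) = fun _ => (0 : ℝ) := by
      funext ω
      apply ind_false
      rw [not_not]
      obtain ⟨v, v', hvv'⟩ := henc l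
      have hcard : ({v, v'} : Finset V).card < S :=
        lt_of_le_of_lt Finset.card_le_two (by linarith [hP.hS])
      have h1 := LocAt_of_Loc A Mi maj (i := i) ω hcard hvv'
      cases b
      · exact h1.not.congr (fun z => by simp [Fml.Holds])
      · exact h1.congr (fun z => by simp [Fml.Holds])
    rw [this, avg_const]
    exact mul_nonneg (Nat.cast_nonneg _) (pow_nonneg hP.hc _)
  | or m f ih =>
    intro i hi hd
    obtain _ | i := i
    · simp [Fml.depth] at hd
    have hd' : ∀ j, (f j).depth ≤ i := by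
      intro j
      have h1 : (f j).depth ≤ Finset.univ.sup fun j => (f j).depth :=
        Finset.le_sup (f := fun j => (f j).depth) (Finset.mem_univ j)
      simp only [Fml.depth] at hd
      omega
    have := hor m (fun j z => (f j).Holds (enc z)) (fun j => (f j).size) i (by omega)
      (fun j => ih j i (by omega) (hd' j))
    simpa [Fml.size, Fml.Holds] using this
  | and m f ih =>
    intro i hi hd
    obtain _ | i := i
    · simp [Fml.depth] at hd
    have hd' : ∀ j, (f j).depth ≤ i := by
      intro j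
      have h1 : (f j).depth ≤ Finset.univ.sup fun j => (f j).depth :=
        Finset.le_sup (f := fun j => (f j).depth) (Finset.mem_univ j)
      simp only [Fml.depth] at hd
      omega
    have := hor m (fun j z => ¬ (f j).Holds (enc z)) (fun j => (f j).size) i (by omega)
      (fun j => by
        refine (avg_mono ?_).trans (ih j i (by omega) (hd' j))
        intro ω
        apply ind_mono
        intro h h'
        exact h h'.not)
    refine (avg_mono ?_).trans (this.trans_eq ?_)
    · intro ω
      apply ind_mono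
      intro h h'
      apply h
      refine h'.not.congr ?_
      intro z
      simp [Fml.Holds]
    · simp [Fml.size]

end

end Pool.Agent.H592R2
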