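import Pool.Agent.H592R2.EmbW

set_option linter.unusedSectionVars false

/-! Phase 1 for the weighted satisfiability instances: the theorem. -/

namespace Pool.Agent.H592R2

open Finset Classical Filter

noncomputable section

lemma ev1 (a : ℝ) : ∀ᶠ b : ℕ in atTop, a / b < 1 / 8 := by
  have h := tendsto_const_div_atTop_nhds_zero_nat a
  exact h.eventually_lt_const (by norm_num)

lemma ev2 (a : ℝ) (L : ℕ) : ∀ᶠ b : ℕ in atTop, a * ((b : ℝ) ^ L * Real.exp (-b)) < 1 / 8 := by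
  have h := (Real.tendsto_pow_mul_exp_neg_atTop_nhds_zero L).comp
    (tendsto_natCast_atTop_atTop (R := ℝ))
  have h2 := h.const_mul a
  simp only [mul_zero] at h2
  exact h2.eventually_lt_const (by norm_num)

lemma ev3 (k : ℕ) : ∀ᶠ b : ℕ in atTop, (1 + 1 / (b : ℝ)) ^ k - 1 < 1 / 8 := by
  have h := tendsto_const_div_atTop_nhds_zero_nat (1 : ℝ)
  have h2 : Tendsto (fun b : ℕ => (1 + 1 / (b : ℝ)) ^ k - 1) atTop (nhds ((1 + 0) ^ k - 1)) :=
    ((tendsto_const_nhds.add h).pow k).sub tendsto_const_nhds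
  simp only [add_zero, one_pow, sub_self] at h2
  exact h2.eventually_lt_const (by norm_num)

theorem phase1 (s D Ex : ℕ) : ∃ w0 α : ℕ, ∀ kmin : ℕ, ∃ k : ℕ, kmin ≤ k ∧ 1 ≤ k ∧
    ∀ A1 : ℕ, ∀ᶠ b : ℕ in atTop, ∀ B : ℕ, B = b ^ (α + 1) → ∀ (ι : Type) [Fintype ι]
      (φ : ι → Fml (nLen k (Fin B) (EE b (b ^ 2) B) (s + 1))),
      (∀ i, (φ i).depth ≤ D) →
      (∑ i, (φ i).size ≤ A1 * (nLen k (Fin B) (EE b (b ^ 2) B) (s + 1) + 1) ^ Ex) →
      ∃ emb : ((Lv (EE b (b ^ 2) B) s × (Fin b × Fin (b ^ 2))) × Fin k → Bool) →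
        (Fin (nLen k (Fin B) (EE b (b ^ 2) B) (s + 1)) → Bool),
        (∀ q, lead (emb q) = k ∧ ((pWSAT (s + 1 + 1) (3 + 2 * (s + 1))).Q _ (emb q) ↔
          ¬ SipP s (fun c => ∃ e : Fin b × Fin (b ^ 2), ¬ ∃ i, q ((c, e), i) = true))) ∧
        ∀ i, Jn w0 (fun q => (φ i).Holds (emb q)) := by
  obtain ⟨t, ht⟩ : ∃ t, t = s + 1 := ⟨_, rfl⟩
  obtain ⟨S, hS⟩ : ∃ S, S = Ex * (4 * t * (2 * D + 4)) + 3 := ⟨_, rfl⟩
  have hS3 : 3 ≤ S := by omega
  obtain ⟨σ, hσ⟩ : ∃ σ, σ = sg S := ⟨_, rfl⟩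
  have hσ1 : 1 ≤ σ := by rw [hσ]; exact sg_pos hS3
  obtain ⟨α, hα⟩ : ∃ α, α = 2 * σ * D := ⟨_, rfl⟩
  refine ⟨S ^ 2, α, ?_⟩
  intro kmin
  obtain ⟨h, hh⟩ : ∃ h, h = kmin + (α + 4) * t + α + 2 := ⟨_, rfl⟩
  obtain ⟨k, hk⟩ : ∃ k, k = 2 * h + 1 := ⟨_, rfl⟩
  refine ⟨k, by omega, by omega, ?_⟩
  intro A1
  obtain ⟨Cn, hCn⟩ : ∃ Cn, Cn = k + 2 + 3 * (k ^ 2 + 3 * k + 2 + 2 * (t + 1)) ^ 2 := ⟨_, rfl⟩
  have hexp : 4 * (α + 4) * t * Ex + 1 ≤ σ * S := by
    have h1 : 4 * (α + 4) * t * Ex ≤ σ * (Ex * (4 * t * (2 * D + 4))) := by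
      rw [hα]
      calc 4 * (2 * σ * D + 4) * t * Ex ≤ 4 * (2 * σ * D + 4 * σ) * t * Ex := by
            apply Nat.mul_le_mul_right; apply Nat.mul_le_mul_right; apply Nat.mul_le_mul_left
            omega
        _ = σ * (Ex * (4 * t * (2 * D + 4))) := by ring
    have h2 : σ * S = σ * (Ex * (4 * t * (2 * D + 4))) + σ * 3 := by rw [hS]; ring
    rw [h2]
    exact Nat.add_le_add h1 (by omega)
  filter_upwards [eventually_ge_atTop 2, ev1 (A1 * (Cn : ℝ) ^ Ex * 2 ^ (σ * S)), ev2 k 0,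
    ev2 1 ((α + 4) * s + 3), ev3 k, ev1 1] with b hb2 hbA hbk hbL hb1k hb1
  intro B hB ι _ φ hdep hsize
  have : NeZero b := ⟨by omega⟩
  have hb1' : 1 ≤ b := by omega
  have hb0 : (0 : ℝ) < b := by exact_mod_cast (by omega : 0 < b)
  have hbr : (1 : ℝ) ≤ b := by exact_mod_cast hb1'
  have : NeZero B := ⟨by rw [hB]; exact pow_ne_zero _ (by omega)⟩
  have hB1 : 1 ≤ B := Nat.one_le_iff_ne_zero.mpr (NeZero.ne B)
  have hb21 : 1 ≤ b ^ 2 := Nat.one_le_pow _ _ hb1'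
  have hcardE : Fintype.card (EE b (b ^ 2) B) = b ^ (α + 4) := by
    rw [Fintype.card_prod, Fintype.card_prod, Fintype.card_fin, Fintype.card_fin,
      Fintype.card_fin, hB]
    ring
  have hnE : Nonempty (EE b (b ^ 2) B) := by
    rw [← Fintype.card_pos_iff, hcardE]; positivity
  have hnLen : nLen k (Fin B) (EE b (b ^ 2) B) t + 1 ≤ Cn * b ^ (4 * (α + 4) * t) := by
    rw [hCn]
    exact nLen_le hb1' (by omega) (by rw [Fintype.card_fin, hB]) hcardE
  have hP1 := P1_inst (b := b) (S := S) hb2 hS3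
  have hcardτ : (Fintype.card (Tau b S) : ℝ) = (b : ℝ) ^ (2 * σ) := by
    simp [Tau, Fintype.card_fin, hσ]
  have hAr : ((Aset b S).card : ℝ) / Fintype.card (Tau b S) = 1 / (b : ℝ) ^ (2 * σ) := by
    rw [hcardτ]; simp [Aset]
  have hMr : ((Mset b S).card : ℝ) / Fintype.card (Tau b S) = 1 / b := by
    rw [card_Mset b S hb1', hcardτ, ← hσ]
    have hpow : (b : ℝ) ^ (2 * σ) = b ^ (2 * σ - 1) * b := by
      rw [← pow_succ]; congr 1; omega
    rw [hpow]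
    push_cast
    field_simp
  have hpD : (1 - (((Aset b S).card : ℝ) / Fintype.card (Tau b S)) ^ D) ^ B ≤ Real.exp (-b) := by
    rw [hAr]
    set p : ℝ := (1 / (b : ℝ) ^ (2 * σ)) ^ D with hp
    have hp1 : p ≤ 1 := by
      apply pow_le_one₀ (by positivity)
      rw [div_le_one (by positivity)]
      exact one_le_pow₀ hbr
    have h1 : 1 - p ≤ Real.exp (-p) := by
      have := Real.add_one_le_exp (-p); linarith
    calc (1 - p) ^ B ≤ Real.exp (-p) ^ B := pow_le_pow_left₀ (by linarith) h1 B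
      _ = Real.exp (-b) := by
          rw [← Real.exp_nat_mul]
          congr 1
          rw [hp, hB, hα]
          push_cast
          rw [one_div, inv_pow, ← pow_mul]
          have : (b : ℝ) ^ (2 * σ * D + 1) = b ^ (2 * σ * D) * b := pow_succ _ _
          rw [this]
          field_simp
  have hv0 : Nonempty (Fin k × Fin B) := ⟨(⟨0, by omega⟩, ⟨0, by omega⟩)⟩
  obtain ⟨v0⟩ := hv0
  -- locality
  have hlocb : avg (fun ω : Crd D (Vt k (Fin B) (EE b (b ^ 2) B) (s + 1)) → Tau b S =>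
      ind (∃ i ∈ (Finset.univ : Finset ι), ¬ LocAt (Aset b S) S D ω
        (fun z => (φ i).Holds (encS v0 (rho (Aset b S) (Mset b S) majW D ω z))))) < 1 / 8 := by
    refine lt_of_le_of_lt ?_ hbA
    refine (avg_mono (fun ω => ind_exists_le _ _)).trans ?_
    rw [avg_sum]
    have h1 : ∀ i ∈ (Finset.univ : Finset ι),
        avg (fun ω : Crd D (Vt k (Fin B) (EE b (b ^ 2) B) (s + 1)) → Tau b S =>
          ind (¬ LocAt (Aset b S) S D ω
          (fun z => (φ i).Holds (encS v0 (rho (Aset b S) (Mset b S) majW D ω z))))) ≤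
          (φ i).size * ((2 / (b : ℝ)) ^ sg S) ^ S := fun i _ =>
      fml_local hP1 majW (encS v0) (encS_loc v0) (φ i) D le_rfl (hdep i)
    refine (Finset.sum_le_sum h1).trans ?_
    rw [← Finset.sum_mul]
    have h2 : (∑ i, ((φ i).size : ℝ)) ≤ A1 * ((Cn : ℝ) * b ^ (4 * (α + 4) * t)) ^ Ex := by
      have h3 : ∑ i, (φ i).size ≤ A1 * (Cn * b ^ (4 * (α + 4) * t)) ^ Ex := by
        refine hsize.trans (Nat.mul_le_mul_left _ (Nat.pow_le_pow_left ?_ _))
        rw [← ht]; exact hnLen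
      exact_mod_cast h3
    have h4 : ((2 / (b : ℝ)) ^ sg S) ^ S = 2 ^ (σ * S) / (b : ℝ) ^ (σ * S) := by
      rw [← hσ, ← pow_mul, div_pow]
    rw [h4]
    have h5 : (b : ℝ) ^ (4 * (α + 4) * t * Ex) * b ≤ (b : ℝ) ^ (σ * S) := by
      rw [← pow_succ]
      exact pow_le_pow_right₀ hbr hexp
    calc _ ≤ (A1 * ((Cn : ℝ) * b ^ (4 * (α + 4) * t)) ^ Ex) *
          (2 ^ (σ * S) / (b : ℝ) ^ (σ * S)) := mul_le_mul_of_nonneg_right h2 (by positivity)
      _ = (A1 * (Cn : ℝ) ^ Ex * 2 ^ (σ * S)) *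
          ((b : ℝ) ^ (4 * (α + 4) * t * Ex) / (b : ℝ) ^ (σ * S)) := by
          rw [mul_pow, ← pow_mul]; ring
      _ ≤ (A1 * (Cn : ℝ) ^ Ex * 2 ^ (σ * S)) * (1 / b) := by
          apply mul_le_mul_of_nonneg_left _ (by positivity)
          rw [div_le_div_iff₀ (by positivity) hb0]
          linarith
      _ = _ := by ring
  have hcolb : avg (fun ω : Crd D (Vt k (Fin B) (EE b (b ^ 2) B) (s + 1)) → Tau b S =>
      ind (∃ i : Fin k, ∀ j : Fin B, ¬ Al (Aset b S) D ω (Sum.inl (i, j)))) < 1 / 8 := by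
    refine lt_of_le_of_lt (avg_nocol (Aset b S)) (lt_of_le_of_lt ?_ hbk)
    rw [pow_zero, one_mul]
    exact mul_le_mul_of_nonneg_left hpD (by positivity)
  have hleafb : avg (fun ω : Crd D (Vt k (Fin B) (EE b (b ^ 2) B) (s + 1)) → Tau b S =>
      ind (∃ (c : Lv (EE b (b ^ 2) B) s) (p : Fin b × Fin (b ^ 2)), ∀ j : Fin B,
        ¬ Al (Aset b S) D ω (Sum.inr ((c, (p.1, (p.2, j))) : Lv (EE b (b ^ 2) B) (s + 1))))) <
      1 / 8 := by
    refine lt_of_le_of_lt (avg_noleaf (Aset b S)) (lt_of_le_of_lt ?_ hbL)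
    rw [one_mul, Lv.card_eq, hcardE]
    push_cast
    have h1 : ((b : ℝ) ^ (α + 4)) ^ s * (b * b ^ 2) = (b : ℝ) ^ ((α + 4) * s + 3) := by
      rw [← pow_mul, pow_add]; ring
    rw [h1]
    exact mul_le_mul_of_nonneg_left hpD (by positivity)
  have hbadb : avg (fun ω : Crd D (Vt k (Fin B) (EE b (b ^ 2) B) (s + 1)) → Tau b S =>
      ind (bad1 (Mset b S) (pick (Al (Aset b S) D ω)) ω ∨
        bad2 (Mset b S) (pick (Al (Aset b S) D ω)) ω)) < 1 / 8 + 1 / 8 := by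
    refine lt_of_le_of_lt (avg_bad12 hk (Aset b S) (Mset b S)) ?_
    rw [hMr]
    apply add_lt_add
    · refine lt_of_le_of_lt ?_ hb1k
      apply sub_le_sub_right
      apply pow_le_pow_left₀ (by positivity)
      apply add_le_add_right
      rw [hB]
      push_cast
      have h1 : ((1 : ℝ) / b) ^ h ≤ (1 / b) ^ (α + 2) := by
        apply pow_le_pow_of_le_one (by positivity) _ (by omega)
        rw [div_le_one hb0]; exact hbr
      calc (b : ℝ) ^ (α + 1) * (1 / b) ^ h ≤ (b : ℝ) ^ (α + 1) * (1 / b) ^ (α + 2) :=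
            mul_le_mul_of_nonneg_left h1 (by positivity)
        _ = 1 / b := by
            rw [one_div_pow]
            have : (b : ℝ) ^ (α + 2) = b ^ (α + 1) * b := pow_succ _ _
            rw [this]; field_simp
    · refine lt_of_le_of_lt ?_ hb1
      rw [Lv.card_eq, hcardE, ← ht]
      push_cast
      have h1 : ((1 : ℝ) / b) ^ k ≤ (1 / b) ^ ((α + 4) * t + 1) := by
        apply pow_le_pow_of_le_one (by positivity) _ (by omega)
        rw [div_le_one hb0]; exact hbr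
      calc ((b : ℝ) ^ (α + 4)) ^ t * (1 / b) ^ k ≤
            ((b : ℝ) ^ (α + 4)) ^ t * (1 / b) ^ ((α + 4) * t + 1) :=
            mul_le_mul_of_nonneg_left h1 (by positivity)
        _ = 1 / b := by
            rw [one_div_pow, ← pow_mul]
            have : (b : ℝ) ^ ((α + 4) * t + 1) = b ^ ((α + 4) * t) * b := pow_succ _ _
            rw [this]; field_simp
  -- a good restriction
  let bad : (Crd D (Vt k (Fin B) (EE b (b ^ 2) B) (s + 1)) → Tau b S) → Prop := fun ω =>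
    ((∃ i ∈ (Finset.univ : Finset ι), ¬ LocAt (Aset b S) S D ω
        (fun z => (φ i).Holds (encS v0 (rho (Aset b S) (Mset b S) majW D ω z)))) ∨
      (∃ i : Fin k, ∀ j : Fin B, ¬ Al (Aset b S) D ω (Sum.inl (i, j)))) ∨
    ((∃ (c : Lv (EE b (b ^ 2) B) s) (p : Fin b × Fin (b ^ 2)), ∀ j : Fin B,
        ¬ Al (Aset b S) D ω (Sum.inr ((c, (p.1, (p.2, j))) : Lv (EE b (b ^ 2) B) (s + 1)))) ∨
      (bad1 (Mset b S) (pick (Al (Aset b S) D ω)) ω ∨
        bad2 (Mset b S) (pick (Al (Aset b S) D ω)) ω))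
  have hbad : avg (fun ω => ind (bad ω)) < 1 := by
    have h1 : ∀ ω, ind (bad ω) ≤ _ := fun ω => (ind_or_le _ _).trans
      (add_le_add (ind_or_le _ _) (ind_or_le _ _))
    refine lt_of_le_of_lt (avg_mono h1) ?_
    rw [avg_add, avg_add, avg_add]
    linarith
  obtain ⟨ω, hω⟩ := exists_not_of_avg_lt hbad
  simp only [bad, not_or] at hω
  obtain ⟨⟨hω1, hω2⟩, hω3, hω4, hω5⟩ := hω
  push Not at hω1 hω2 hω3
  choose sel hsel using hω3
  have hn2 : Nonempty (Lv (EE b (b ^ 2) B) s) := by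
    rw [← Fintype.card_pos_iff, Lv.card_eq, hcardE]; positivity
  obtain ⟨c0⟩ := hn2
  have hnB : Nonempty (Fin B) := ⟨⟨0, by omega⟩⟩
  refine ⟨fun q => encS v0 (rho (Aset b S) (Mset b S) majW D ω
    (zq (pick (Al (Aset b S) D ω)) sel q)), ?_, ?_⟩
  · intro q
    refine ⟨lead_encS _ _, ?_⟩
    rw [wsat_encS (by omega) (by omega)]
    exact emb_correct (by omega) sel hω2 hsel hω4 hω5 q
  · intro i
    exact emb_junta ((c0, (⟨0, by omega⟩, ⟨0, by omega⟩)), ⟨0, by omega⟩)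
      (pick (Al (Aset b S) D ω)) sel (hω1 i (Finset.mem_univ i))

end

end Pool.Agent.H592R2
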