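import Pool.Agent.H592R2.SrcEnc

set_option linter.unusedSectionVars false

/-! Phase 1 for the weighted satisfiability instances: probabilities and the embedding. -/

namespace Pool.Agent.H592R2

open Finset Classical Filter

noncomputable section

section sizes

lemma card_Node_le (E : Type) [Fintype E] (t : ℕ) (hE : 1 ≤ Fintype.card E) :
    Fintype.card (Node E t) ≤ (t + 1) * Fintype.card E ^ t := by
  have h1 : Fintype.card (Node E t) ≤ Fintype.card (Σ j : Fin (t + 1), Lv E j.val) := by
    apply Fintype.card_le_of_injective (fun n : Node E t =>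
      ((⟨⟨n.1.1, by have := n.2.2; omega⟩, n.1.2⟩ : Σ j : Fin (t + 1), Lv E j.val)))
    rintro ⟨⟨j, c⟩, h⟩ ⟨⟨j', c'⟩, h'⟩ heq
    simp only [Sigma.mk.injEq, Fin.mk.injEq] at heq
    obtain ⟨rfl, h2⟩ := heq
    simp only [heq_eq_eq] at h2
    subst h2
    rfl
  refine h1.trans ?_
  rw [Fintype.card_sigma]
  have h2 : ∀ j ∈ (Finset.univ : Finset (Fin (t + 1))), Fintype.card (Lv E j.val) ≤
      Fintype.card E ^ t := by
    intro j _
    rw [Lv.card_eq]
    exact Nat.pow_le_pow_right hE (by have := j.2; omega)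
  have h3 := Finset.sum_le_card_nsmul _ _ _ h2
  rwa [Finset.card_univ, Fintype.card_fin, smul_eq_mul] at h3

lemma nGates_le (k : ℕ) (β E : Type) [Fintype β] [Fintype E] (t : ℕ) (hE : 1 ≤ Fintype.card E) :
    nGates k β E t ≤ 2 * (k * Fintype.card β) + (k * Fintype.card β) ^ 2 + k + 2 +
      2 * ((t + 1) * Fintype.card E ^ t) := by
  have h1 := Fintype.card_le_of_injective _ (gsum_inj (k := k) (β := β) (E := E) (t := t))
  refine h1.trans ?_
  simp only [Fintype.card_sum, Fintype.card_prod, Fintype.card_fin, Fintype.card_unit]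
  have h2 := card_Node_le E t hE
  nlinarith

lemma nLen_le {k b α t : ℕ} {β E : Type} [Fintype β] [Fintype E] (hb : 1 ≤ b) (ht : 1 ≤ t)
    (hβ : Fintype.card β = b ^ (α + 1)) (hE : Fintype.card E = b ^ (α + 4)) :
    nLen k β E t + 1 ≤ (k + 2 + 3 * (k ^ 2 + 3 * k + 2 + 2 * (t + 1)) ^ 2) *
      b ^ (4 * (α + 4) * t) := by
  have hE1 : 1 ≤ Fintype.card E := by rw [hE]; exact Nat.one_le_pow _ _ hb
  have h1 := nGates_le k β E t hE1
  rw [hβ, hE, ← pow_mul] at h1
  set Y := b ^ (2 * (α + 4) * t) with hY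
  have hY1 : 1 ≤ Y := Nat.one_le_pow _ _ hb
  have e1 : b ^ (α + 1) ≤ Y := Nat.pow_le_pow_right hb (by nlinarith)
  have e2 : (b ^ (α + 1)) ^ 2 ≤ Y := by
    rw [← pow_mul]; exact Nat.pow_le_pow_right hb (by nlinarith)
  have e3 : b ^ ((α + 4) * t) ≤ Y := Nat.pow_le_pow_right hb (by nlinarith)
  have h2 : nGates k β E t ≤ (k ^ 2 + 3 * k + 2 + 2 * (t + 1)) * Y := by
    calc nGates k β E t ≤ 2 * (k * b ^ (α + 1)) + (k * b ^ (α + 1)) ^ 2 + k + 2 +
          2 * ((t + 1) * b ^ ((α + 4) * t)) := h1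
      _ = 2 * k * b ^ (α + 1) + k ^ 2 * (b ^ (α + 1)) ^ 2 + (k + 2) +
          2 * (t + 1) * b ^ ((α + 4) * t) := by ring
      _ ≤ 2 * k * Y + k ^ 2 * Y + (k + 2) * Y + 2 * (t + 1) * Y := by
          have a1 := Nat.mul_le_mul_left (2 * k) e1
          have a2 := Nat.mul_le_mul_left (k ^ 2) e2
          have a3 := Nat.mul_le_mul_left (k + 2) hY1
          have a4 := Nat.mul_le_mul_left (2 * (t + 1)) e3
          omega
      _ = _ := by ring
  set Ck := k ^ 2 + 3 * k + 2 + 2 * (t + 1) with hCk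
  have hCk1 : 1 ≤ Ck := by omega
  have hYY : b ^ (4 * (α + 4) * t) = Y ^ 2 := by
    rw [hY, ← pow_mul]; congr 1; ring
  rw [hYY]
  have hCY : 1 ≤ Ck * Y := Nat.mul_pos hCk1 hY1
  calc nLen k β E t + 1 = k + 2 + nGates k β E t * (nGates k β E t + 2) := by
        unfold nLen; ring
    _ ≤ k + 2 + (Ck * Y) * (Ck * Y + 2 * (Ck * Y)) := by
        apply Nat.add_le_add_left
        apply Nat.mul_le_mul h2
        omega
    _ = (k + 2) * 1 + 3 * Ck ^ 2 * Y ^ 2 := by ring
    _ ≤ (k + 2) * Y ^ 2 + 3 * Ck ^ 2 * Y ^ 2 := by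
        apply Nat.add_le_add_right
        apply Nat.mul_le_mul_left
        exact Nat.one_le_pow _ _ hY1
    _ = _ := by ring

end sizes

section prob
variable {D k s B : ℕ} {E : Type} [Fintype E] [DecidableEq E] {τ : Type} [Fintype τ] [Nonempty τ]
  [DecidableEq τ] [NeZero B]

/-- majority values -/
def majW {k t : ℕ} {β E : Type} (v v' : Vt k β E t) : Bool := v.isRight && v'.isLeft

/-- the chosen alive column of each group -/
def pick {t : ℕ} (P : Vt k (Fin B) E t → Prop) (i : Fin k) : Fin B :=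
  if h : ∃ j, P (Sum.inl (i, j)) then h.choose else 0

lemma pick_spec {t : ℕ} {P : Vt k (Fin B) E t → Prop} {i : Fin k}
    (h : ∃ j, P (Sum.inl (i, j))) : P (Sum.inl (i, pick P i)) := by
  unfold pick
  rw [dif_pos h]
  exact h.choose_spec

/-- the pairs of indices that meet `J` -/
def prJ (J : Finset (Fin k)) : Finset (Fin k × Fin k) :=
  Finset.univ.filter (fun p => p.1 < p.2 ∧ (p.1 ∈ J ∨ p.2 ∈ J))

lemma card_prJ (J : Finset (Fin k)) : J.card * (k - 1) ≤ 2 * (prJ J).card := by
  have h1 : (J ×ˢ (Finset.univ : Finset (Fin k))).filter (fun p => p.1 ≠ p.2) ⊆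
      prJ J ∪ (prJ J).image Prod.swap := by
    intro p hp
    rw [Finset.mem_filter, Finset.mem_product] at hp
    rw [Finset.mem_union]
    rcases lt_or_gt_of_ne hp.2 with h | h
    · left
      exact Finset.mem_filter.mpr ⟨Finset.mem_univ _, h, Or.inl hp.1.1⟩
    · right
      rw [Finset.mem_image]
      exact ⟨(p.2, p.1), Finset.mem_filter.mpr ⟨Finset.mem_univ _, h, Or.inr hp.1.1⟩, rfl⟩
  have h2 : ((J ×ˢ (Finset.univ : Finset (Fin k))).filter (fun p => p.1 ≠ p.2)).card =
      J.card * (k - 1) := by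
    have h3 := Finset.card_filter_add_card_filter_not (s := J ×ˢ (Finset.univ : Finset (Fin k)))
      (fun p => p.1 ≠ p.2)
    have h4 : ((J ×ˢ (Finset.univ : Finset (Fin k))).filter (fun p => ¬ p.1 ≠ p.2)).card =
        J.card := by
      have : (J ×ˢ (Finset.univ : Finset (Fin k))).filter (fun p => ¬ p.1 ≠ p.2) =
          J.image (fun i => (i, i)) := by
        ext p
        rw [Finset.mem_filter, Finset.mem_product, Finset.mem_image]
        constructor
        · rintro ⟨⟨h5, -⟩, h6⟩
          exact ⟨p.1, h5, Prod.ext rfl (not_not.mp h6)⟩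
        · rintro ⟨i, hi, rfl⟩
          exact ⟨⟨hi, Finset.mem_univ _⟩, not_not.mpr rfl⟩
      rw [this, Finset.card_image_of_injective]
      intro i i' h
      exact (Prod.mk.injEq _ _ _ _ ▸ h).1
    rw [h4, Finset.card_product, Finset.card_univ, Fintype.card_fin] at h3
    rw [Nat.mul_sub, mul_one]
    omega
  rw [← h2]
  calc _ ≤ _ := Finset.card_le_card h1
    _ ≤ (prJ J).card + ((prJ J).image Prod.swap).card := Finset.card_union_le _ _
    _ ≤ (prJ J).card + (prJ J).card := Nat.add_le_add_left Finset.card_image_le _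
    _ = _ := by ring

/-- bad event 1 for a fixed tuple `us` -/
def bad1 {t : ℕ} (Mi : Finset τ) (us : Fin k → Fin B) (ω : Crd D (Vt k (Fin B) E t) → τ) : Prop :=
  ∃ u : Fin k → Fin B, u ≠ us ∧ ∀ i i', i < i' → (u i ≠ us i ∨ u i' ≠ us i') →
    ω (Sum.inr (Sum.inl (i, u i), Sum.inl (i', u i'))) ∈ Mi

/-- bad event 2 for a fixed tuple `us` -/
def bad2 {t : ℕ} (Mi : Finset τ) (us : Fin k → Fin B) (ω : Crd D (Vt k (Fin B) E t) → τ) : Prop :=
  ∃ c : Lv E t, ∀ i, ω (Sum.inr (Sum.inr c, Sum.inl (i, us i))) ∈ Mi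

lemma avg_bad1 {t h : ℕ} (hk : k = 2 * h + 1) (Mi : Finset τ) (us : Fin k → Fin B) :
    avg (fun ω : Crd D (Vt k (Fin B) E t) → τ => ind (bad1 Mi us ω)) ≤
      (1 + (B : ℝ) * ((Mi.card : ℝ) / Fintype.card τ) ^ h) ^ k - 1 := by
  set p : ℝ := (Mi.card : ℝ) / Fintype.card τ with hp
  have hp0 : 0 ≤ p := by positivity
  have hp1 : p ≤ 1 := by
    rw [hp, div_le_one (by exact_mod_cast Fintype.card_pos)]
    exact_mod_cast Finset.card_le_univ Mi
  let Jx : (Fin k → Fin B) → Finset (Fin k) := fun u => Finset.univ.filter (fun i => u i ≠ us i)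
  let PP : (Fin k → Fin B) → Finset (Vt k (Fin B) E t × Vt k (Fin B) E t) := fun u =>
    (prJ (Jx u)).image (fun q => (Sum.inl (q.1, u q.1), Sum.inl (q.2, u q.2)))
  have hPPcard : ∀ u, (PP u).card = (prJ (Jx u)).card := by
    intro u
    apply Finset.card_image_of_injective
    intro q q' hqq
    simp only [Prod.mk.injEq, Sum.inl.injEq] at hqq
    exact Prod.ext hqq.1.1 hqq.2.1
  have hterm : ∀ u, avg (fun ω : Crd D (Vt k (Fin B) E t) → τ =>
      ind (∀ q ∈ PP u, ω (Sum.inr q) ∈ Mi)) ≤
        ∏ i, (if u i = us i then (1 : ℝ) else p ^ h) := by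
    intro u
    rw [avg_all_minority, hPPcard, ← hp]
    have h1 := card_prJ (Jx u)
    have h2 : h * (Jx u).card ≤ (prJ (Jx u)).card := by
      have : k - 1 = 2 * h := by omega
      rw [this] at h1
      nlinarith
    have h3 : ∏ i, (if u i = us i then (1 : ℝ) else p ^ h) = (p ^ h) ^ (Jx u).card := by
      rw [Finset.prod_ite, Finset.prod_const_one, one_mul, Finset.prod_const]
    rw [h3, ← pow_mul]
    exact pow_le_pow_of_le_one hp0 hp1 h2
  have hsum : ∑ u : Fin k → Fin B, ∏ i, (if u i = us i then (1 : ℝ) else p ^ h) ≤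
      (1 + (B : ℝ) * p ^ h) ^ k := by
    have h1 := Finset.prod_univ_sum (fun _ : Fin k => (Finset.univ : Finset (Fin B)))
      (fun i v => if v = us i then (1 : ℝ) else p ^ h)
    rw [Fintype.piFinset_univ] at h1
    rw [← h1]
    calc ∏ i : Fin k, ∑ v : Fin B, (if v = us i then (1 : ℝ) else p ^ h) ≤
          ∏ _i : Fin k, (1 + (B : ℝ) * p ^ h) := by
          apply Finset.prod_le_prod
          · intro i _
            apply Finset.sum_nonneg
            intro v _
            split_ifs <;> positivity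
          · intro i _
            rw [Finset.sum_ite, Finset.sum_const, Finset.sum_const, nsmul_eq_mul, nsmul_eq_mul,
              mul_one]
            apply add_le_add
            · have : (Finset.univ.filter (fun v : Fin B => v = us i)).card ≤ 1 := by
                rw [Finset.filter_eq' Finset.univ (us i), if_pos (Finset.mem_univ _),
                  Finset.card_singleton]
              exact_mod_cast this
            · apply mul_le_mul_of_nonneg_right _ (by positivity)
              have : (Finset.univ.filter (fun v : Fin B => ¬ v = us i)).card ≤ B := by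
                refine (Finset.card_filter_le _ _).trans ?_
                rw [Finset.card_univ, Fintype.card_fin]
              exact_mod_cast this
      _ = _ := by rw [Finset.prod_const, Finset.card_univ, Fintype.card_fin]
  calc _ ≤ avg (fun ω : Crd D (Vt k (Fin B) E t) → τ =>
        ∑ u ∈ Finset.univ.erase us, ind (∀ q ∈ PP u, ω (Sum.inr q) ∈ Mi)) := by
        apply avg_mono
        intro ω
        refine le_trans (ind_mono ?_) (ind_exists_le _ _)
        rintro ⟨u, hu1, hu2⟩
        refine ⟨u, Finset.mem_erase.mpr ⟨hu1, Finset.mem_univ _⟩, ?_⟩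
        intro q hq
        simp only [PP, Finset.mem_image] at hq
        obtain ⟨⟨i, i'⟩, hi, rfl⟩ := hq
        simp only [prJ, Jx, Finset.mem_filter, Finset.mem_univ, true_and] at hi
        exact hu2 i i' hi.1 hi.2
    _ = ∑ u ∈ Finset.univ.erase us, avg (fun ω : Crd D (Vt k (Fin B) E t) → τ =>
          ind (∀ q ∈ PP u, ω (Sum.inr q) ∈ Mi)) := avg_sum _ _
    _ ≤ ∑ u ∈ Finset.univ.erase us, ∏ i, (if u i = us i then (1 : ℝ) else p ^ h) :=
        Finset.sum_le_sum fun u _ => hterm u
    _ = ∑ u : Fin k → Fin B, ∏ i, (if u i = us i then (1 : ℝ) else p ^ h) - 1 := by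
        rw [← Finset.sum_erase_add Finset.univ _ (Finset.mem_univ us)]
        simp
    _ ≤ _ := by linarith

lemma avg_bad2 {t : ℕ} (Mi : Finset τ) (us : Fin k → Fin B) :
    avg (fun ω : Crd D (Vt k (Fin B) E t) → τ => ind (bad2 Mi us ω)) ≤
      (Fintype.card (Lv E t) : ℝ) * ((Mi.card : ℝ) / Fintype.card τ) ^ k := by
  let PP : Lv E t → Finset (Vt k (Fin B) E t × Vt k (Fin B) E t) := fun c =>
    (Finset.univ : Finset (Fin k)).image (fun i => (Sum.inr c, Sum.inl (i, us i)))
  have hPPcard : ∀ c, (PP c).card = k := by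
    intro c
    simp only [PP]
    rw [Finset.card_image_of_injective, Finset.card_univ, Fintype.card_fin]
    intro i i' h
    simp only [Prod.mk.injEq, Sum.inl.injEq, true_and] at h
    exact h.1
  calc _ ≤ avg (fun ω : Crd D (Vt k (Fin B) E t) → τ =>
        ∑ c : Lv E t, ind (∀ q ∈ PP c, ω (Sum.inr q) ∈ Mi)) := by
        apply avg_mono
        intro ω
        refine le_trans (ind_mono ?_) (ind_exists_le _ _)
        rintro ⟨c, hc⟩
        refine ⟨c, Finset.mem_univ _, ?_⟩
        intro q hq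
        simp only [PP, Finset.mem_image] at hq
        obtain ⟨i, -, rfl⟩ := hq
        exact hc i
    _ = ∑ c : Lv E t, ((Mi.card : ℝ) / Fintype.card τ) ^ k := by
        rw [avg_sum]
        apply Finset.sum_congr rfl
        intro c _
        rw [avg_all_minority, hPPcard]
    _ = _ := by rw [Finset.sum_const, nsmul_eq_mul, Finset.card_univ]

/-- the status coordinates -/
def Rst (D : ℕ) (V : Type) : Set (Crd D V) := {c | ∃ q, c = Sum.inl q}

lemma Al_mix_st {V : Type} [Fintype V] [DecidableEq V] (A : Finset τ) (i : ℕ)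
    (a b : Crd D V → τ) : Al A i (mix (Rst D V) a b) = Al A i a := by
  funext v
  apply propext
  have : ∀ i' : Fin D, mix (Rst D V) a b (Sum.inl (i', v)) = a (Sum.inl (i', v)) := fun i' =>
    mix_mem (T := fun _ => τ) ⟨_, rfl⟩
  unfold Al
  constructor
  · intro h i' hi'; rw [← this i']; exact h i' hi'
  · intro h i' hi'; rw [this i']; exact h i' hi'

lemma avg_bad12 {t h : ℕ} (hk : k = 2 * h + 1) (A Mi : Finset τ) :
    avg (fun ω : Crd D (Vt k (Fin B) E t) → τ =>
      ind (bad1 Mi (pick (Al A D ω)) ω ∨ bad2 Mi (pick (Al A D ω)) ω)) ≤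
      ((1 + (B : ℝ) * ((Mi.card : ℝ) / Fintype.card τ) ^ h) ^ k - 1) +
      (Fintype.card (Lv E t) : ℝ) * ((Mi.card : ℝ) / Fintype.card τ) ^ k := by
  rw [← avg_mix (T := fun _ => τ) (Rst D (Vt k (Fin B) E t))]
  apply avg_le_of_le
  intro a
  refine le_trans ?_ (add_le_add (avg_bad1 (D := D) (E := E) (t := t) hk Mi (pick (Al A D a)))
    (avg_bad2 (D := D) (E := E) (t := t) Mi (pick (Al A D a))))
  rw [← avg_add]
  apply avg_mono
  intro b
  refine le_trans (le_of_eq ?_) (ind_or_le _ _)
  rw [Al_mix_st]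
  have h1 : ∀ q, mix (Rst D (Vt k (Fin B) E t)) a b (Sum.inr q) = b (Sum.inr q) := fun q =>
    mix_not_mem (T := fun _ => τ) (by rintro ⟨q', hq'⟩; simp at hq')
  simp only [bad1, bad2, h1]

/-- no alive column in some group -/
lemma avg_nocol {t : ℕ} (A : Finset τ) :
    avg (fun ω : Crd D (Vt k (Fin B) E t) → τ => ind (∃ i : Fin k, ∀ j : Fin B,
      ¬ Al A D ω (Sum.inl (i, j)))) ≤
    (k : ℝ) * (1 - ((A.card : ℝ) / Fintype.card τ) ^ D) ^ B := by
  calc _ ≤ avg (fun ω : Crd D (Vt k (Fin B) E t) → τ =>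
        ∑ i : Fin k, ind (∀ v ∈ Finset.univ.image (fun j : Fin B =>
          (Sum.inl (i, j) : Vt k (Fin B) E t)), ¬ Al A D ω v)) := by
        apply avg_mono
        intro ω
        refine le_trans (ind_mono ?_) (ind_exists_le Finset.univ _)
        rintro ⟨i, h⟩
        refine ⟨i, Finset.mem_univ _, ?_⟩
        intro v hv
        rw [Finset.mem_image] at hv
        obtain ⟨j, -, rfl⟩ := hv
        exact h j
    _ = ∑ i : Fin k, (1 - ((A.card : ℝ) / Fintype.card τ) ^ D) ^ B := by
        rw [avg_sum]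
        apply Finset.sum_congr rfl
        intro i _
        rw [avg_no_alive, Finset.card_image_of_injective, Finset.card_univ, Fintype.card_fin]
        intro j j' h
        simpa using h
    _ = _ := by
        rw [Finset.sum_const, nsmul_eq_mul, Finset.card_univ, Fintype.card_fin]

/-- no alive leaf in some class -/
lemma avg_noleaf {b b2 : ℕ} (A : Finset τ) :
    avg (fun ω : Crd D (Vt k (Fin B) (Fin b × (Fin b2 × Fin B)) (s + 1)) → τ =>
      ind (∃ (c : Lv (Fin b × (Fin b2 × Fin B)) s) (p : Fin b × Fin b2), ∀ j : Fin B,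
      ¬ Al A D ω (Sum.inr ((c, (p.1, (p.2, j))) : Lv (Fin b × (Fin b2 × Fin B)) (s + 1))))) ≤
    ((Fintype.card (Lv (Fin b × (Fin b2 × Fin B)) s) : ℝ) * (b * b2)) *
      (1 - ((A.card : ℝ) / Fintype.card τ) ^ D) ^ B := by
  calc _ ≤ avg (fun ω : Crd D (Vt k (Fin B) (Fin b × (Fin b2 × Fin B)) (s + 1)) → τ =>
        ∑ p : Lv (Fin b × (Fin b2 × Fin B)) s × (Fin b × Fin b2), ind (∀ v ∈ Finset.univ.image
          (fun j : Fin B => (Sum.inr ((p.1, (p.2.1, (p.2.2, j))) :
            Lv (Fin b × (Fin b2 × Fin B)) (s + 1)) :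
            Vt k (Fin B) (Fin b × (Fin b2 × Fin B)) (s + 1))), ¬ Al A D ω v)) := by
        apply avg_mono
        intro ω
        refine le_trans (ind_mono ?_) (ind_exists_le Finset.univ _)
        rintro ⟨c, p, h⟩
        refine ⟨(c, p), Finset.mem_univ _, ?_⟩
        intro v hv
        rw [Finset.mem_image] at hv
        obtain ⟨j, -, rfl⟩ := hv
        exact h j
    _ = ∑ p : Lv (Fin b × (Fin b2 × Fin B)) s × (Fin b × Fin b2),
          (1 - ((A.card : ℝ) / Fintype.card τ) ^ D) ^ B := by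
        rw [avg_sum]
        apply Finset.sum_congr rfl
        intro p _
        rw [avg_no_alive, Finset.card_image_of_injective, Finset.card_univ, Fintype.card_fin]
        intro j j' h
        simp only [Sum.inr.injEq] at h
        have h2 := congrArg (fun q : Lv (Fin b × (Fin b2 × Fin B)) s ×
          (Fin b × (Fin b2 × Fin B)) => q.2.2.2) h
        exact h2
    _ = _ := by
        rw [Finset.sum_const, nsmul_eq_mul, Finset.card_univ, Fintype.card_prod,
          Fintype.card_prod, Fintype.card_fin, Fintype.card_fin]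
        push_cast
        ring

end prob

end

end Pool.Agent.H592R2
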