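import Pool.Agent.H592R2.Collapse

set_option linter.unusedSectionVars false

/-! Phase 1: random restrictions of adjacency-matrix inputs, one round. -/

namespace Pool.Agent.H592R2

open Finset Classical

noncomputable section

/-- coordinates of the restriction: statuses for `D` rounds, and one value per pair -/
abbrev Crd (D : ℕ) (V : Type) := (Fin D × V) ⊕ (V × V)

instance instDecCrd (D : ℕ) (V : Type) [DecidableEq V] : DecidableEq (Crd D V) := inferInstance
instance instFtCrd (D : ℕ) (V : Type) [Fintype V] : Fintype (Crd D V) := inferInstance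

/-- `G` depends only on the pairs inside `K` -/
def Loc {V : Type} (K : Finset V) (G : (V → V → Bool) → Prop) : Prop :=
  ∀ z z' : V → V → Bool, (∀ v ∈ K, ∀ v' ∈ K, z v v' = z' v v') → G z → G z'

variable {D : ℕ} {V : Type} [Fintype V] [DecidableEq V] {τ : Type} [Fintype τ] [Nonempty τ]
  [DecidableEq τ]

/-- alive after `i` rounds -/
def Al (A : Finset τ) (i : ℕ) (ω : Crd D V → τ) (v : V) : Prop :=
  ∀ i' : Fin D, i'.val < i → ω (Sum.inl (i', v)) ∈ A

/-- the random values -/
def rv (maj : V → V → Bool) (Mi : Finset τ) (ω : Crd D V → τ) (v v' : V) : Bool :=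
  xor (maj v v') (decide (ω (Sum.inr (v, v')) ∈ Mi))

/-- the restriction after `i` rounds -/
def rho (A Mi : Finset τ) (maj : V → V → Bool) (i : ℕ) (ω : Crd D V → τ) (z : V → V → Bool) :
    V → V → Bool :=
  fun v v' => if Al A i ω v ∧ Al A i ω v' then z v v' else rv maj Mi ω v v'

/-- local with fewer than `S` alive vertices after `i` rounds -/
def LocAt (A : Finset τ) (S i : ℕ) (ω : Crd D V → τ) (G : (V → V → Bool) → Prop) : Prop :=
  ∃ K : Finset V, K.card < S ∧ (∀ v ∈ K, Al A i ω v) ∧ Loc K G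

/-- the pairs inside `K` -/
def resK (K : Finset V) (z : V → V → Bool) : V → V → Bool :=
  fun v v' => if v ∈ K ∧ v' ∈ K then z v v' else false

lemma resK_eq_iff {K : Finset V} {z z' : V → V → Bool} :
    resK K z = resK K z' ↔ ∀ v ∈ K, ∀ v' ∈ K, z v v' = z' v v' := by
  constructor
  · intro h v hv v' hv'
    have := congrFun (congrFun h v) v'
    simpa [resK, hv, hv'] using this
  · intro h
    funext v v'
    by_cases hv : v ∈ K ∧ v' ∈ K
    · simp [resK, hv.1, hv.2, h v hv.1 v' hv.2]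
    · simp [resK, hv]

lemma card_image_resK (K : Finset V) :
    ((Finset.univ : Finset (V → V → Bool)).image (resK K)).card ≤ 2 ^ (K.card ^ 2) := by
  have h1 : (Finset.univ : Finset (V → V → Bool)).image (resK K) ⊆
      (Finset.univ : Finset (K × K → Bool)).image
        (fun f v v' => if h : v ∈ K ∧ v' ∈ K then f (⟨v, h.1⟩, ⟨v', h.2⟩) else false) := by
    intro y hy
    rw [Finset.mem_image] at hy ⊢
    obtain ⟨z, -, rfl⟩ := hy
    refine ⟨fun p => z p.1 p.2, Finset.mem_univ _, ?_⟩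
    funext v v'
    by_cases h : v ∈ K ∧ v' ∈ K
    · simp [resK, h.1, h.2]
    · simp [resK, h]
  calc _ ≤ _ := Finset.card_le_card h1
    _ ≤ (Finset.univ : Finset (K × K → Bool)).card := Finset.card_image_le
    _ = 2 ^ (K.card ^ 2) := by
        rw [Finset.card_univ, Fintype.card_fun, Fintype.card_prod, Fintype.card_bool,
          Fintype.card_coe, pow_two]

/-- the system of one round -/
def rsys {ι : Type} (A Mi : Finset τ) (maj : V → V → Bool) (i : Fin D) (a : Crd D V → τ)
    (K : ι → Finset V) (f : ι → (V → V → Bool) → Prop) (P : ι → Prop) :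
    Sys (Crd D V) (fun _ => τ) V (V → V → Bool) ι where
  K := K
  cs := fun j => {c | (∃ v ∈ K j, c = Sum.inl (i, v)) ∨
    ∃ v ∈ K j, ∃ v' ∈ K j, c = Sum.inr (v, v')}
  al := fun ω v => Al A i.val a v ∧ ω (Sum.inl (i, v)) ∈ A
  Φ := fun j ω z => P j ∧ f j (rho A Mi maj i.val a (fun v v' =>
    if (Al A i.val a v ∧ ω (Sum.inl (i, v)) ∈ A) ∧ (Al A i.val a v' ∧ ω (Sum.inl (i, v')) ∈ A)
    then z v v' else rv maj Mi ω v v'))
  res := resK

lemma rsys_good {ι : Type} (A Mi : Finset τ) (maj : V → V → Bool) (i : Fin D) (a : Crd D V → τ)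
    (K : ι → Finset V) (f : ι → (V → V → Bool) → Prop) (P : ι → Prop) {S : ℕ} {β : ℝ}
    (hK : ∀ j, (K j).card ≤ S) (hloc : ∀ j, P j → Loc (K j) (f j ∘ rho A Mi maj i.val a))
    (hβ0 : 0 ≤ β) (hβ1 : β ≤ 1)
    (hA : β ≤ ((Finset.univ \ A : Finset τ).card : ℝ) / Fintype.card τ)
    (hM : β ≤ (Mi.card : ℝ) / Fintype.card τ)
    (hM' : β ≤ ((Finset.univ \ Mi : Finset τ).card : ℝ) / Fintype.card τ) :
    (rsys A Mi maj i a K f P).Good S S (2 ^ (S ^ 2)) ((A.card : ℝ) / Fintype.card τ)
      (β ^ (S + S ^ 2)) where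
  hloc := by
    intro j ω ω' hag
    have h1 : ∀ v ∈ K j, ω (Sum.inl (i, v)) = ω' (Sum.inl (i, v)) := fun v hv =>
      hag _ (Or.inl ⟨v, hv, rfl⟩)
    have h2 : ∀ v ∈ K j, ∀ v' ∈ K j, ω (Sum.inr (v, v')) = ω' (Sum.inr (v, v')) :=
      fun v hv v' hv' => hag _ (Or.inr ⟨v, hv, v', hv', rfl⟩)
    refine ⟨fun z => ?_, fun v hv => ?_⟩
    · simp only [rsys]
      apply and_congr_right
      intro hP
      have key : ∀ v ∈ K j, ∀ v' ∈ K j,
          (if (Al A i.val a v ∧ ω (Sum.inl (i, v)) ∈ A) ∧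
            (Al A i.val a v' ∧ ω (Sum.inl (i, v')) ∈ A)
            then z v v' else rv maj Mi ω v v') =
          (if (Al A i.val a v ∧ ω' (Sum.inl (i, v)) ∈ A) ∧
            (Al A i.val a v' ∧ ω' (Sum.inl (i, v')) ∈ A)
            then z v v' else rv maj Mi ω' v v') := by
        intro v hv v' hv'
        simp only [h1 v hv, h1 v' hv', rv, h2 v hv v' hv']
      constructor
      · intro h; exact hloc j hP _ _ key h
      · intro h; exact hloc j hP _ _ (fun v hv v' hv' => (key v hv v' hv').symm) h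
    · simp only [rsys, h1 v hv]
  hres := by
    intro j ω z z' hzz'
    have hzz := resK_eq_iff.1 hzz'
    simp only [rsys]
    rintro ⟨hP, h⟩
    refine ⟨hP, hloc j hP _ _ ?_ h⟩
    intro v hv v' hv'
    split_ifs with hc
    · apply hzz v _ v' _
      · exact Finset.mem_filter.mpr ⟨hv, hc.1⟩
      · exact Finset.mem_filter.mpr ⟨hv', hc.2⟩
    · rfl
  hmono := by
    intro K1 K2 h12 z z' h
    rw [show (rsys A Mi maj i a K f P).res = resK from rfl] at h ⊢
    rw [resK_eq_iff] at h ⊢
    exact fun v hv v' hv' => h v (h12 hv) v' (h12 hv')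
  hM := by
    intro K' hK'
    have h1 := card_image_resK K'
    have h2 : 2 ^ (K'.card ^ 2) ≤ 2 ^ (S ^ 2) :=
      Nat.pow_le_pow_right (by norm_num) (Nat.pow_le_pow_left hK'.le 2)
    exact_mod_cast h1.trans h2
  hw := hK
  hnew := by
    intro H ω0 j N hN hNH
    have hinj : Function.Injective (fun v : V => (Sum.inl (i, v) : Crd D V)) := by
      intro v v' h; simpa using h
    calc avg (fun b => ind (∀ v ∈ N, (rsys A Mi maj i a K f P).al
          (mix ((rsys A Mi maj i a K f P).R H) ω0 b) v))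
        ≤ avg (fun b : Crd D V → τ => ind (∀ c ∈ N.image (fun v : V => (Sum.inl (i, v) : Crd D V)),
            b c ∈ (fun _ : Crd D V => A) c)) := by
          apply avg_mono
          intro b
          apply ind_mono
          intro h c hc
          rw [Finset.mem_image] at hc
          obtain ⟨v, hv, rfl⟩ := hc
          have h1 := (h v hv).2
          have h2 : (Sum.inl (i, v) : Crd D V) ∉ (rsys A Mi maj i a K f P).R H := by
            rintro ⟨j', hj', hc'⟩
            rcases hc' with ⟨v', hv', he⟩ | ⟨v', hv', v'', hv'', he⟩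
            · simp only [Sum.inl.injEq, Prod.mk.injEq, true_and] at he
              subst he
              exact hNH v hv ⟨j', hj', hv'⟩
            · exact absurd he (by simp)
          rwa [mix_not_mem h2] at h1
      _ = ((A.card : ℝ) / Fintype.card τ) ^ N.card := by
          rw [avg_box, Finset.prod_const, Finset.card_image_of_injective _ hinj]
  hsat := by
    intro H ω1 j z hΦ
    set s := rsys A Mi maj i a K f P with hs
    obtain ⟨hP, hf⟩ := hΦ
    set x : V → V → Bool := fun v v' =>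
      if (Al A i.val a v ∧ ω1 (Sum.inl (i, v)) ∈ A) ∧ (Al A i.val a v' ∧ ω1 (Sum.inl (i, v')) ∈ A)
      then z v v' else rv maj Mi ω1 v v' with hx
    let F : Finset (Crd D V) :=
      ((K j).filter (fun v => ¬ ∃ i ∈ H, v ∈ K i)).image (fun v => Sum.inl (i, v)) ∪
      ((K j ×ˢ K j).filter (fun q => (Sum.inr q : Crd D V) ∉ s.R H)).image (fun q => Sum.inr q)
    let B : Crd D V → Finset τ := fun c => match c with
      | Sum.inl _ => Finset.univ \ A
      | Sum.inr q => if x q.1 q.2 = maj q.1 q.2 then Finset.univ \ Mi else Mi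
    have hcard : F.card ≤ S + S ^ 2 := by
      refine (Finset.card_union_le _ _).trans ?_
      apply Nat.add_le_add
      · exact Finset.card_image_le.trans ((Finset.card_filter_le _ _).trans (hK j))
      · refine Finset.card_image_le.trans ((Finset.card_filter_le _ _).trans ?_)
        rw [Finset.card_product, pow_two]
        exact Nat.mul_le_mul (hK j) (hK j)
    have hbox : β ^ (S + S ^ 2) ≤ avg (fun b : Crd D V → τ => ind (∀ c ∈ F, b c ∈ B c)) := by
      rw [avg_box]
      calc β ^ (S + S ^ 2) ≤ β ^ F.card := pow_le_pow_of_le_one hβ0 hβ1 hcard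
        _ = ∏ _c ∈ F, β := by rw [Finset.prod_const]
        _ ≤ _ := by
          apply Finset.prod_le_prod (fun _ _ => hβ0)
          intro c _
          rcases c with c | q
          · exact hA
          · simp only [B]
            split_ifs
            · exact hM'
            · exact hM
    refine hbox.trans (avg_mono ?_)
    intro b
    apply ind_mono
    intro hb
    have hstat : ∀ v ∈ K j, (¬ ∃ i ∈ H, v ∈ K i) → (Sum.inl (i, v) : Crd D V) ∉ s.R H := by
      intro v hv hvH
      rintro ⟨j', hj', hc'⟩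
      rcases hc' with ⟨v', hv', he⟩ | ⟨v', hv', v'', hv'', he⟩
      · simp only [Sum.inl.injEq, Prod.mk.injEq, true_and] at he
        subst he
        exact hvH ⟨j', hj', hv'⟩
      · exact absurd he (by simp)
    have hdead : ∀ v ∈ K j, (¬ ∃ i ∈ H, v ∈ K i) → ¬ s.al (mix (s.R H) ω1 b) v := by
      intro v hv hvH hal
      have h1 := hal.2
      rw [mix_not_mem (hstat v hv hvH)] at h1
      have h2 := hb (Sum.inl (i, v)) (Finset.mem_union_left _ (Finset.mem_image_of_mem _
        (Finset.mem_filter.mpr ⟨hv, hvH⟩)))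
      simp only [B, Finset.mem_sdiff, Finset.mem_univ, true_and] at h2
      exact h2 h1
    refine ⟨hdead, hP, ?_⟩
    refine hloc j hP _ _ ?_ hf
    intro v hv v' hv'
    -- statuses of revealed vertices agree
    have hstat2 : ∀ u ∈ K j, (∃ i ∈ H, u ∈ K i) →
        (mix (s.R H) ω1 b) (Sum.inl (i, u)) = ω1 (Sum.inl (i, u)) := by
      rintro u hu ⟨j', hj', huj'⟩
      exact mix_mem ⟨j', hj', Or.inl ⟨u, huj', rfl⟩⟩
    by_cases hal : s.al (mix (s.R H) ω1 b) v ∧ s.al (mix (s.R H) ω1 b) v'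
    · -- both alive, hence revealed
      have hvr : ∃ i ∈ H, v ∈ K i := by
        by_contra h; exact hdead v hv h hal.1
      have hvr' : ∃ i ∈ H, v' ∈ K i := by
        by_contra h; exact hdead v' hv' h hal.2
      have e1 := hstat2 v hv hvr
      have e2 := hstat2 v' hv' hvr'
      have h1 : Al A i.val a v ∧ ω1 (Sum.inl (i, v)) ∈ A := ⟨hal.1.1, e1 ▸ hal.1.2⟩
      have h2 : Al A i.val a v' ∧ ω1 (Sum.inl (i, v')) ∈ A := ⟨hal.2.1, e2 ▸ hal.2.2⟩
      have hal1 : (Al A i.val a v ∧ (mix (s.R H) ω1 b) (Sum.inl (i, v)) ∈ A) := hal.1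
      have hal2 : (Al A i.val a v' ∧ (mix (s.R H) ω1 b) (Sum.inl (i, v')) ∈ A) := hal.2
      rw [hx]
      simp only
      rw [if_pos ⟨h1, h2⟩, if_pos ⟨hal1, hal2⟩]
    · have hal' : ¬ ((Al A i.val a v ∧ (mix (s.R H) ω1 b) (Sum.inl (i, v)) ∈ A) ∧
        (Al A i.val a v' ∧ (mix (s.R H) ω1 b) (Sum.inl (i, v')) ∈ A)) := hal
      rw [if_neg hal']
      by_cases hrev : (Sum.inr (v, v') : Crd D V) ∈ s.R H
      · -- the pair is revealed, so are the statuses
        have hrev' := hrev
        obtain ⟨j', hj', hc'⟩ := hrev'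
        rcases hc' with ⟨u, hu, he⟩ | ⟨u, hu, u', hu', he⟩
        · exact absurd he (by simp)
        · simp only [Sum.inr.injEq, Prod.mk.injEq] at he
          obtain ⟨rfl, rfl⟩ := he
          have e1 := hstat2 v hv ⟨j', hj', hu⟩
          have e2 := hstat2 v' hv' ⟨j', hj', hu'⟩
          have hnal : ¬ ((Al A i.val a v ∧ ω1 (Sum.inl (i, v)) ∈ A) ∧
              (Al A i.val a v' ∧ ω1 (Sum.inl (i, v')) ∈ A)) := by
            intro h
            rw [e1, e2] at hal'
            exact hal' h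
          rw [hx]
          simp only
          rw [if_neg hnal]
          simp only [rv]
          rw [mix_mem hrev]
      · have h2 := hb (Sum.inr (v, v')) (Finset.mem_union_right _ (Finset.mem_image_of_mem _
          (Finset.mem_filter.mpr ⟨Finset.mem_product.mpr ⟨hv, hv'⟩, hrev⟩)))
        simp only [B] at h2
        simp only [rv]
        rw [mix_not_mem hrev]
        by_cases hm : x v v' = maj v v'
        · rw [if_pos hm] at h2
          have : b (Sum.inr (v, v')) ∉ Mi := (Finset.mem_sdiff.mp h2).2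
          simp [this, hm]
        · rw [if_neg hm] at h2
          simp only [h2, decide_true, Bool.xor_true]
          revert hm
          cases x v v' <;> cases maj v v' <;> simp

/-- coordinates revealed before round `i` -/
def Rbef (A : Finset τ) (i : Fin D) (a : Crd D V → τ) : Set (Crd D V) :=
  {c | (∃ i' v, i' ≠ i ∧ c = Sum.inl (i', v)) ∨
    ∃ v v', ¬ (Al A i.val a v ∧ Al A i.val a v') ∧ c = Sum.inr (v, v')}

lemma Al_mix (A : Finset τ) (i : Fin D) (a b : Crd D V → τ) (v : V) :
    Al A i.val (mix (Rbef A i a) a b) v ↔ Al A i.val a v := by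
  have : ∀ i' : Fin D, i'.val < i.val →
      mix (Rbef A i a) a b (Sum.inl (i', v)) = a (Sum.inl (i', v)) := by
    intro i' hi'
    apply mix_mem (T := fun _ => τ)
    left
    exact ⟨i', v, by intro h; subst h; exact lt_irrefl _ hi', rfl⟩
  unfold Al
  constructor
  · intro h i' hi'; rw [← this i' hi']; exact h i' hi'
  · intro h i' hi'; rw [this i' hi']; exact h i' hi'

lemma Rbef_mix (A : Finset τ) (i : Fin D) (a b : Crd D V → τ) :
    Rbef A i (mix (Rbef A i a) a b) = Rbef A i a := by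
  unfold Rbef
  simp only [← Rbef.eq_def, Al_mix]

lemma inl_not_mem_Rbef (A : Finset τ) (i : Fin D) (a : Crd D V → τ) (v : V) :
    (Sum.inl (i, v) : Crd D V) ∉ Rbef A i a := by
  rintro (⟨i', v', h, he⟩ | ⟨v1, v2, h, he⟩)
  · simp only [Sum.inl.injEq, Prod.mk.injEq] at he
    exact h he.1.symm
  · exact absurd he (by simp)

lemma inr_mem_Rbef {A : Finset τ} {i : Fin D} {a : Crd D V → τ} {v v' : V} :
    (Sum.inr (v, v') : Crd D V) ∈ Rbef A i a ↔ ¬ (Al A i.val a v ∧ Al A i.val a v') := by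
  constructor
  · rintro (⟨i', v1, h, he⟩ | ⟨v1, v2, h, he⟩)
    · exact absurd he (by simp)
    · simp only [Sum.inr.injEq, Prod.mk.injEq] at he
      obtain ⟨rfl, rfl⟩ := he
      exact h
  · intro h; exact Or.inr ⟨v, v', h, rfl⟩

lemma rho_mix (A Mi : Finset τ) (maj : V → V → Bool) (i : Fin D) (a b : Crd D V → τ) :
    rho A Mi maj i.val (mix (Rbef A i a) a b) = rho A Mi maj i.val a := by
  funext z v v'
  simp only [rho, Al_mix]
  split_ifs with h
  · rfl
  · simp only [rv]
    rw [mix_mem (T := fun _ => τ) (inr_mem_Rbef.mpr h)]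

lemma Al_succ (A : Finset τ) (i : Fin D) (ω : Crd D V → τ) (v : V) :
    Al A (i.val + 1) ω v ↔ Al A i.val ω v ∧ ω (Sum.inl (i, v)) ∈ A := by
  unfold Al
  constructor
  · intro h
    exact ⟨fun i' hi' => h i' (by omega), h i (by omega)⟩
  · rintro ⟨h1, h2⟩ i' hi'
    rcases Nat.lt_succ_iff_lt_or_eq.mp hi' with h | h
    · exact h1 i' h
    · have : i' = i := Fin.ext h
      subst this; exact h2

lemma rho_step (A Mi : Finset τ) (maj : V → V → Bool) (i : Fin D) (a b : Crd D V → τ)
    (z : V → V → Bool) :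
    rho A Mi maj i.val a (fun v v' =>
      if (Al A i.val a v ∧ b (Sum.inl (i, v)) ∈ A) ∧ (Al A i.val a v' ∧ b (Sum.inl (i, v')) ∈ A)
      then z v v' else rv maj Mi b v v') =
    rho A Mi maj (i.val + 1) (mix (Rbef A i a) a b) z := by
  funext v v'
  have hs : ∀ u, Al A (i.val + 1) (mix (Rbef A i a) a b) u ↔
      Al A i.val a u ∧ b (Sum.inl (i, u)) ∈ A := by
    intro u
    rw [Al_succ, Al_mix, mix_not_mem (T := fun _ => τ) (inl_not_mem_Rbef A i a u)]
  simp only [rho, hs]
  by_cases h1 : Al A i.val a v ∧ Al A i.val a v'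
  · rw [if_pos h1]
    split_ifs with h2
    · rfl
    · simp only [rv]
      rw [mix_not_mem (T := fun _ => τ) (by rw [inr_mem_Rbef]; exact not_not.mpr h1)]
  · rw [if_neg h1]
    have h2 : ¬ ((Al A i.val a v ∧ b (Sum.inl (i, v)) ∈ A) ∧
        (Al A i.val a v' ∧ b (Sum.inl (i, v')) ∈ A)) := fun h => h1 ⟨h.1.1, h.2.1⟩
    rw [if_neg h2]
    simp only [rv]
    rw [mix_mem (T := fun _ => τ) (inr_mem_Rbef.mpr h1)]

/-- Conditional round lemma. -/
theorem round_cond {ι : Type} (A Mi : Finset τ) (maj : V → V → Bool) (i : Fin D)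
    (f : ι → (V → V → Bool) → Prop) (L : List ι) {S : ℕ} {β c u : ℝ} (hS : 1 ≤ S)
    (hβ0 : 0 ≤ β) (hβ1 : β ≤ 1)
    (hA : β ≤ ((Finset.univ \ A : Finset τ).card : ℝ) / Fintype.card τ)
    (hM : β ≤ (Mi.card : ℝ) / Fintype.card τ)
    (hM' : β ≤ ((Finset.univ \ Mi : Finset τ).card : ℝ) / Fintype.card τ)
    (hc : 0 ≤ c) (hc1 : c ≤ 1) (hu : 0 ≤ u) (hu1 : u ≤ 1)
    (hp : (A.card : ℝ) / Fintype.card τ = u * c)
    (huw : 2 ^ S * u ≤ β ^ (S + S ^ 2) / 2 ^ (S ^ 2)) :
    avg (fun ω : Crd D V → τ => ind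
      ((∀ l ∈ L, LocAt A S i.val ω (f l ∘ rho A Mi maj i.val ω)) ∧
        ¬ LocAt A S (i.val + 1) ω (fun z => ∃ l ∈ L, f l (rho A Mi maj (i.val + 1) ω z)))) ≤
      c ^ S := by
  rw [← avg_mix_adaptive (T := fun _ => τ) (Rbef A i) (Rbef_mix A i)]
  apply avg_le_of_le
  intro a
  by_cases hE1 : ∀ l ∈ L, LocAt A S i.val a (f l ∘ rho A Mi maj i.val a)
  swap
  · refine (avg_le_of_le (c := 0) ?_).trans (pow_nonneg hc _)
    intro b
    refine le_of_eq (ind_false ?_)
    rintro ⟨h, -⟩
    apply hE1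
    intro l hl
    obtain ⟨K, hK1, hK2, hK3⟩ := h l hl
    refine ⟨K, hK1, fun v hv => (Al_mix A i a b v).1 (hK2 v hv), ?_⟩
    rwa [rho_mix] at hK3
  · choose K hK1 hK2 hK3 using hE1
    let K' : ι → Finset V := fun l => if hl : l ∈ L then K l hl else ∅
    have hg := rsys_good A Mi maj i a K' f (fun l => l ∈ L) (S := S) (β := β)
      (by
        intro j
        by_cases hj : j ∈ L
        · simp only [K', dif_pos hj]; exact (hK1 j hj).le
        · simp [K', dif_neg hj])
      (by
        intro j hj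
        simp only [K', dif_pos hj]; exact hK3 j hj)
      hβ0 hβ1 hA hM hM'
    have hcol := Sys.collapse hg (c := c) (u := u) (by exact_mod_cast Nat.one_le_two_pow) hc hc1 hu
      hu1 hp (by exact_mod_cast huw) hS L
    refine le_trans (avg_mono ?_) hcol
    intro b
    apply ind_mono
    rintro ⟨-, hno⟩ ⟨K2, hc2, hal2, hloc2⟩
    apply hno
    refine ⟨K2, hc2, ?_, ?_⟩
    · intro v hv
      rw [Al_succ, Al_mix, mix_not_mem (T := fun _ => τ) (inl_not_mem_Rbef A i a v)]
      exact (hal2 v hv).1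
    · intro z z' hzz'
      rintro ⟨l, hl, hf⟩
      have h1 : ∃ j ∈ L, (rsys A Mi maj i a K' f (fun l => l ∈ L)).Φ j b z := by
        refine ⟨l, hl, hl, ?_⟩
        rw [rho_step]; exact hf
      obtain ⟨l', hl', -, hf'⟩ := hloc2 z z' (resK_eq_iff.mpr hzz') h1
      rw [rho_step] at hf'
      exact ⟨l', hl', hf'⟩

end

end Pool.Agent.H592R2
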