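import Pool.Agent.H592R2.P2Main
import Pool.Agent.H592R2.CktBasics

set_option linter.unusedSectionVars false

/-! The source circuits of weft `t + 1`. -/

namespace Pool.Agent.H592R2

open Finset Classical

noncomputable section

/-- child of a node -/
def child {E : Type} (n : Σ j, Lv E j) (e : E) : Σ j, Lv E j := ⟨n.1 + 1, (n.2, e)⟩

/-- nodes of level `1, ..., t` -/
abbrev Node (E : Type) (t : ℕ) : Type := {n : Σ j, Lv E j // 1 ≤ n.1 ∧ n.1 ≤ t}

/-- gates of the source circuit -/
inductive Gt (k : ℕ) (β E : Type) (t : ℕ) : Type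
  | x (v : Fin k × β)
  | nx (v : Fin k × β)
  | pr (v v' : Fin k × β)
  | gr (i : Fin k)
  | zr
  | hd (n : Node E t)
  | nh (n : Node E t)
  | top

section
variable {k t : ℕ} {β E : Type}

/-- kinds of the gates -/
def gkind : Gt k β E t → Kind
  | .x _ => .inp
  | .nx _ => .neg
  | .pr _ _ => .disj
  | .gr _ => .disj
  | .zr => .conj
  | .hd _ => .disj
  | .nh _ => .neg
  | .top => .conj

/-- the vertices of the random restriction: columns and leaves -/
abbrev Vt (k : ℕ) (β E : Type) (t : ℕ) : Type := (Fin k × β) ⊕ Lv E t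

/-- wires of the source circuit -/
def gwire (v0 : Fin k × β) (z : Vt k β E t → Vt k β E t → Bool) :
    Gt k β E t → Gt k β E t → Prop
  | .x v, .nx v' => v = v'
  | .nx v, .pr a b => v = a ∨ v = b
  | .x v, .gr i => v.1 = i
  | .x v, .zr => v = v0
  | .nx v, .zr => v = v0
  | .x v, .hd n => ∃ c : Lv E t, n.1 = ⟨t, c⟩ ∧ z (Sum.inr c) (Sum.inl v) = true
  | .zr, .hd n => n.1.1 = t
  | .nh n, .hd n' => ∃ e, n.1 = child n'.1 e
  | .hd n, .nh n' => n = n'
  | .gr _, .top => True
  | .pr v v', .top => v.1 < v'.1 ∧ z (Sum.inl v) (Sum.inl v') = false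
  | .hd n, .top => n.1.1 = 1
  | _, _ => False

/-- ranks of the gates -/
def grank : Gt k β E t → ℕ
  | .x _ => 0
  | .nx _ => 1
  | .pr _ _ => 2
  | .gr _ => 2
  | .zr => 2
  | .hd n => 3 + 2 * (t - n.1.1)
  | .nh n => 4 + 2 * (t - n.1.1)
  | .top => 3 + 2 * t

/-- bound on the number of large gates on a path to a gate -/
def gweft : Gt k β E t → ℕ
  | .x _ => 0
  | .nx _ => 0
  | .pr _ _ => 0
  | .gr _ => 1
  | .zr => 0
  | .hd n => t - n.1.1 + 1
  | .nh n => t - n.1.1 + 1
  | .top => t + 1

/-- the source circuit -/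
def srcC (v0 : Fin k × β) (z : Vt k β E t → Vt k β E t → Bool) : Ckt (Gt k β E t) where
  kind := gkind
  wire := gwire v0 z
  out := .top

lemma grank_lt (v0 : Fin k × β) (z : Vt k β E t → Vt k β E t → Bool) (g g' : Gt k β E t)
    (h : gwire v0 z g g') : grank g < grank g' := by
  rcases g with v | v | ⟨v, v'⟩ | i | _ | n | n | _ <;>
  rcases g' with w | w | ⟨w, w'⟩ | i' | _ | n' | n' | _ <;>
  simp only [gwire] at h <;> simp only [grank]
  all_goals try omega
  · subst h; omega
  · obtain ⟨e, he⟩ := h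
    have h2 := n.2.2
    rw [he] at h2 ⊢
    simp only [child] at h2 ⊢
    omega

/-- the true tuple condition -/
def SrcSat (t : ℕ) (z : Vt k β E t → Vt k β E t → Bool) : Prop :=
  ∃ u : Fin k → β, (∀ i i', i < i' → z (Sum.inl (i, u i)) (Sum.inl (i', u i')) = true) ∧
    ¬ SipP t (fun c => ∃ i, z (Sum.inr c) (Sum.inl (i, u i)) = true)

/-- evaluation of the alternation from node values -/
lemma sip_chain (hv : (Σ j, Lv E j) → Prop)
    (hstep : ∀ n : Σ j, Lv E j, 1 ≤ n.1 → n.1 < t → (hv n ↔ ∃ e, ¬ hv (child n e))) :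
    ∀ m j : ℕ, 1 ≤ j → j + m = t →
      (SipP t (fun c => hv ⟨t, c⟩) ↔ SipP j (fun c => hv ⟨j, c⟩)) := by
  intro m
  induction m with
  | zero => intro j _ hj; simp only [Nat.add_zero] at hj; subst hj; exact Iff.rfl
  | succ m ih =>
    intro j hj1 hj
    rw [ih (j + 1) (by omega) (by omega)]
    change SipP j (fun c => ∃ e, ¬ hv ⟨j + 1, (c, e)⟩) ↔ _
    apply SipP_congr
    intro c
    exact (hstep ⟨j, c⟩ hj1 (by simp only; omega)).symm

lemma sip_top (ht : 1 ≤ t) (hv : (Σ j, Lv E j) → Prop)
    (hstep : ∀ n : Σ j, Lv E j, 1 ≤ n.1 → n.1 < t → (hv n ↔ ∃ e, ¬ hv (child n e))) :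
    SipP t (fun c => hv ⟨t, c⟩) ↔ ∃ e, ¬ hv ⟨1, ((), e)⟩ := by
  rw [sip_chain hv hstep (t - 1) 1 le_rfl (by omega)]
  exact Iff.rfl

section fin
variable [Fintype β] [Fintype E]

instance : Finite (Node E t) := by
  apply Finite.of_injective (fun n : Node E t =>
    ((⟨⟨n.1.1, by have := n.2.2; omega⟩, n.1.2⟩ : Σ j : Fin (t + 1), Lv E j.val)))
  rintro ⟨⟨j, c⟩, h⟩ ⟨⟨j', c'⟩, h'⟩ heq
  simp only [Sigma.mk.injEq, Fin.mk.injEq] at heq
  obtain ⟨rfl, h2⟩ := heq
  simp only [heq_eq_eq] at h2
  subst h2
  rfl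

noncomputable instance : Fintype (Node E t) := Fintype.ofFinite _

/-- the gates as a sum type -/
def gsum : Gt k β E t → ((Fin k × β) ⊕ (Fin k × β)) ⊕ (((Fin k × β) × (Fin k × β)) ⊕
    (Fin k ⊕ (Unit ⊕ ((Node E t ⊕ Node E t) ⊕ Unit))))
  | .x v => .inl (.inl v)
  | .nx v => .inl (.inr v)
  | .pr v v' => .inr (.inl (v, v'))
  | .gr i => .inr (.inr (.inl i))
  | .zr => .inr (.inr (.inr (.inl ())))
  | .hd n => .inr (.inr (.inr (.inr (.inl (.inl n)))))
  | .nh n => .inr (.inr (.inr (.inr (.inl (.inr n)))))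
  | .top => .inr (.inr (.inr (.inr (.inr ()))))

lemma gsum_inj : Function.Injective (gsum : Gt k β E t → _) := by
  intro g g' h
  rcases g with v | v | ⟨v, v'⟩ | i | _ | n | n | _ <;>
  rcases g' with w | w | ⟨w, w'⟩ | i' | _ | n' | n' | _ <;>
  simp [gsum] at h ⊢ <;> assumption

instance : Finite (Gt k β E t) := Finite.of_injective _ gsum_inj

noncomputable instance : Fintype (Gt k β E t) := Fintype.ofFinite _

variable {v0 : Fin k × β} {z : Vt k β E t → Vt k β E t → Bool}

lemma srcC_WF [Nonempty β] [Nonempty E] (hk : 1 ≤ k) : (srcC v0 z).WF := by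
  have hne : ∀ g j : Gt k β E t, gwire v0 z j g → 1 ≤ ((srcC v0 z).ins g).card := by
    intro g j h
    exact Finset.card_pos.mpr ⟨j, Ckt.mem_ins.2 h⟩
  have hone : ∀ g j : Gt k β E t, (∀ j', gwire v0 z j' g ↔ j' = j) →
      ((srcC v0 z).ins g).card = 1 := by
    intro g j h
    rw [Finset.card_eq_one]
    refine ⟨j, ?_⟩
    ext j'
    rw [Ckt.mem_ins, Finset.mem_singleton]
    exact h j'
  intro g
  rcases g with v | v | ⟨v, v'⟩ | i | _ | n | n | _ <;> simp only [srcC, gkind] <;>
    simp only [reduceCtorEq, false_imp_iff, true_imp_iff, or_false, or_true, or_self, true_and,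
      and_true, forall_const]
  · rw [Finset.card_eq_zero, Finset.eq_empty_iff_forall_notMem]
    intro j hj
    rw [Ckt.mem_ins] at hj
    change gwire v0 z j (.x v) at hj
    rcases j with w | w | ⟨w, w'⟩ | i' | _ | n' | n' | _ <;> simp [gwire] at hj
  · apply hone _ (.x v)
    intro j
    rcases j with w | w | ⟨w, w'⟩ | i' | _ | n' | n' | _ <;> simp [gwire]
  · exact hne _ (.nx v) (by simp [gwire])
  · obtain ⟨b⟩ := (inferInstance : Nonempty β)
    exact hne _ (.x (i, b)) (by simp [gwire])
  · exact hne _ (.x v0) (by simp [gwire])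
  · by_cases hn : n.1.1 = t
    · exact hne _ .zr (by simp [gwire, hn])
    · obtain ⟨e⟩ := (inferInstance : Nonempty E)
      have h2 := n.2
      refine hne _ (.nh ⟨child n.1 e, ?_⟩) ⟨e, rfl⟩
      simp only [child]
      omega
  · apply hone _ (.hd n)
    intro j
    rcases j with w | w | ⟨w, w'⟩ | i' | _ | n' | n' | _ <;> simp [gwire]
  · exact hne _ (.gr ⟨0, hk⟩) (by simp [gwire])

lemma srcC_large {g : Gt k β E t} (h : (srcC v0 z).Large g) :
    (∃ i, g = .gr i) ∨ (∃ n, g = .hd n) ∨ g = .top := by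
  obtain ⟨h1, h2⟩ := h
  have h3 : ∀ s : Finset (Gt k β E t), (∀ j, gwire v0 z j g → j ∈ s) → s.card ≤ 2 → False := by
    intro s hs hc
    have : (srcC v0 z).ins g ⊆ s := fun j hj => hs j (Ckt.mem_ins.1 hj)
    have := Finset.card_le_card this
    omega
  rcases g with v | v | ⟨v, v'⟩ | i | _ | n | n | _
  · simp [srcC, gkind] at h1
  · simp [srcC, gkind] at h1
  · exfalso
    apply h3 {.nx v, .nx v'} _ Finset.card_le_two
    intro j hj
    rcases j with w | w | ⟨w, w'⟩ | i' | _ | n' | n' | _ <;> simp [gwire] at hj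
    rcases hj with rfl | rfl <;> simp
  · exact Or.inl ⟨i, rfl⟩
  · exfalso
    apply h3 {.x v0, .nx v0} _ Finset.card_le_two
    intro j hj
    rcases j with w | w | ⟨w, w'⟩ | i' | _ | n' | n' | _ <;> simp [gwire] at hj
    · subst hj; simp
    · subst hj; simp
  · exact Or.inr (Or.inl ⟨n, rfl⟩)
  · simp [srcC, gkind] at h1
  · exact Or.inr (Or.inr rfl)

lemma srcC_path (ht : 1 ≤ t) {g : Gt k β E t} {l w : ℕ} (h : (srcC v0 z).PathTo g l w) :
    w ≤ gweft g ∧ l ≤ grank g := by
  induction h with
  | start i _ => exact ⟨Nat.zero_le _, Nat.zero_le _⟩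
  | step j i l w _ hw ih =>
    have h1 := grank_lt v0 z j i hw
    refine ⟨?_, by omega⟩
    have hw' : gwire v0 z j i := hw
    have h2 : gweft j ≤ gweft i := by
      rcases j with v | v | ⟨v, v'⟩ | i' | _ | n | n | _ <;>
      rcases i with w | w | ⟨w, w'⟩ | i'' | _ | n' | n' | _ <;>
      simp only [gwire] at hw' <;> simp only [gweft]
      all_goals try omega
      · subst hw'; omega
      · obtain ⟨e, he⟩ := hw'
        have h2 := n.2.2
        rw [he] at h2 ⊢
        simp only [child] at h2 ⊢
        omega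
    split_ifs with hL
    · have h3 : gweft j + 1 ≤ gweft i := by
        rcases srcC_large hL with ⟨i', rfl⟩ | ⟨n, rfl⟩ | rfl
        · rcases j with v | v | ⟨v, v'⟩ | i' | _ | n | n | _ <;>
            simp only [gwire] at hw' <;> simp only [gweft] <;> omega
        · rcases j with v | v | ⟨v, v'⟩ | i' | _ | n' | n' | _ <;>
            simp only [gwire] at hw' <;> simp only [gweft]
          all_goals try omega
          obtain ⟨e, he⟩ := hw'
          have h2 := n'.2.2
          rw [he] at h2 ⊢
          simp only [child] at h2 ⊢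
          omega
        · rcases j with v | v | ⟨v, v'⟩ | i' | _ | n' | n' | _ <;>
            simp only [gwire] at hw' <;> simp only [gweft] <;> omega
      omega
    · omega

lemma srcC_InC (ht : 1 ≤ t) : (srcC v0 z).InC (t + 1) (3 + 2 * t) := fun _ _ h =>
  srcC_path ht h


/-- correctness of the source circuit -/
theorem srcC_sat (ht : 1 ≤ t) : (srcC v0 z).Sat k ↔ SrcSat t z := by
  constructor
  · rintro ⟨v, hv, hcard, hout⟩
    have hv' : ∀ g : Gt k β E t,
        (gkind g = Kind.neg → (v g ↔ ¬ ∃ j, gwire v0 z j g ∧ v j)) ∧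
        (gkind g = Kind.conj → (v g ↔ ∀ j, gwire v0 z j g → v j)) ∧
        (gkind g = Kind.disj → (v g ↔ ∃ j, gwire v0 z j g ∧ v j)) := hv
    have htop : ∀ j, gwire v0 z j .top → v j := ((hv' .top).2.1 rfl).1 hout
    have hnx : ∀ a, v (.nx a) ↔ ¬ v (.x a) := by
      intro a
      rw [(hv' (.nx a)).1 rfl]
      apply not_congr
      constructor
      · rintro ⟨j, hj, hvj⟩
        rcases j with w | w | ⟨w, w'⟩ | i' | _ | n' | n' | _ <;> simp [gwire] at hj
        subst hj; exact hvj
      · intro h; exact ⟨.x a, by simp [gwire], h⟩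
    have hgr : ∀ i, ∃ b, v (.x (i, b)) := by
      intro i
      have h1 := htop (.gr i) (by simp [gwire])
      rw [(hv' (.gr i)).2.2 rfl] at h1
      obtain ⟨j, hj, hvj⟩ := h1
      rcases j with w | w | ⟨w, w'⟩ | i' | _ | n' | n' | _ <;> simp [gwire] at hj
      subst hj
      exact ⟨w.2, hvj⟩
    choose u hu using hgr
    have hX : ∀ w : Fin k × β, v (.x w) ↔ w.2 = u w.1 := by
      have h1 : (Finset.univ : Finset (Fin k)).image (fun i => (Gt.x (i, u i) : Gt k β E t)) =
          Finset.univ.filter (fun g => (srcC v0 z).kind g = Kind.inp ∧ v g) := by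
        apply Finset.eq_of_subset_of_card_le
        · intro g hg
          rw [Finset.mem_image] at hg
          obtain ⟨i, -, rfl⟩ := hg
          rw [Finset.mem_filter]
          exact ⟨Finset.mem_univ _, rfl, hu i⟩
        · rw [hcard, Finset.card_image_of_injective, Finset.card_univ, Fintype.card_fin]
          intro i i' h
          simp only [Gt.x.injEq, Prod.mk.injEq] at h
          exact h.1
      intro w
      constructor
      · intro hw
        have h2 : (Gt.x w : Gt k β E t) ∈ Finset.univ.filter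
            (fun g => (srcC v0 z).kind g = Kind.inp ∧ v g) := by
          rw [Finset.mem_filter]; exact ⟨Finset.mem_univ _, rfl, hw⟩
        rw [← h1, Finset.mem_image] at h2
        obtain ⟨i, -, hi⟩ := h2
        simp only [Gt.x.injEq] at hi
        rw [← hi]
      · intro hw
        have : w = (w.1, u w.1) := Prod.ext rfl hw
        rw [this]; exact hu w.1
    have hzr : ¬ v .zr := by
      intro h
      rw [(hv' .zr).2.1 rfl] at h
      have h1 := h (.x v0) (by simp [gwire])
      have h2 := h (.nx v0) (by simp [gwire])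
      exact (hnx v0).1 h2 h1
    have hnh : ∀ n, v (.nh n) ↔ ¬ v (.hd n) := by
      intro n
      rw [(hv' (.nh n)).1 rfl]
      apply not_congr
      constructor
      · rintro ⟨j, hj, hvj⟩
        rcases j with w | w | ⟨w, w'⟩ | i' | _ | n' | n' | _ <;> simp [gwire] at hj
        subst hj; exact hvj
      · intro h; exact ⟨.hd n, by simp [gwire], h⟩
    refine ⟨u, ?_, ?_⟩
    · intro i i' hii'
      by_contra hc
      have hc' : z (Sum.inl (i, u i)) (Sum.inl (i', u i')) = false := by simpa using hc
      have h1 := htop (.pr (i, u i) (i', u i')) (by simp [gwire, hii', hc'])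
      rw [(hv' (.pr (i, u i) (i', u i'))).2.2 rfl] at h1
      obtain ⟨j, hj, hvj⟩ := h1
      rcases j with w | w | ⟨w, w'⟩ | i' | _ | n' | n' | _ <;> simp [gwire] at hj
      rw [hnx] at hvj
      rcases hj with rfl | rfl
      · exact hvj (hu _)
      · exact hvj (hu _)
    · let hvv : (Σ j, Lv E j) → Prop := fun n => ∃ h, v (.hd ⟨n, h⟩)
      have hleaf : ∀ c : Lv E t, (∃ i, z (Sum.inr c) (Sum.inl (i, u i)) = true) ↔
          hvv ⟨t, c⟩ := by
        intro c
        have hh : 1 ≤ (⟨t, c⟩ : Σ j, Lv E j).1 ∧ (⟨t, c⟩ : Σ j, Lv E j).1 ≤ t := ⟨ht, le_rfl⟩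
        have h1 : hvv ⟨t, c⟩ ↔ v (.hd ⟨⟨t, c⟩, hh⟩) :=
          ⟨fun ⟨_, h⟩ => h, fun h => ⟨hh, h⟩⟩
        rw [h1, (hv' (.hd ⟨⟨t, c⟩, hh⟩)).2.2 rfl]
        constructor
        · rintro ⟨i, hi⟩
          exact ⟨.x (i, u i), ⟨c, rfl, hi⟩, hu i⟩
        · rintro ⟨j, hj, hvj⟩
          rcases j with w | w | ⟨w, w'⟩ | i' | _ | n' | n' | _ <;> simp only [gwire] at hj
          · obtain ⟨c', hc', hz⟩ := hj
            simp only [Sigma.mk.injEq, heq_eq_eq, true_and] at hc'
            subst hc'
            refine ⟨w.1, ?_⟩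
            rw [hX] at hvj
            rw [← hvj]; exact hz
          · exact absurd hvj hzr
          · obtain ⟨e, he⟩ := hj
            have h2 := n'.2.2
            rw [he] at h2
            simp only [child] at h2
            omega
      rw [SipP_congr hleaf, sip_top ht hvv]
      · push Not
        intro e
        have hh : 1 ≤ (⟨1, ((), e)⟩ : Σ j, Lv E j).1 ∧ (⟨1, ((), e)⟩ : Σ j, Lv E j).1 ≤ t :=
          ⟨le_rfl, ht⟩
        exact ⟨hh, htop (.hd ⟨⟨1, ((), e)⟩, hh⟩) (by simp [gwire])⟩
      · intro n hn1 hn2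
        have hh : 1 ≤ n.1 ∧ n.1 ≤ t := ⟨hn1, hn2.le⟩
        have h1 : hvv n ↔ v (.hd ⟨n, hh⟩) := ⟨fun ⟨_, h⟩ => h, fun h => ⟨hh, h⟩⟩
        rw [h1, (hv' (.hd ⟨n, hh⟩)).2.2 rfl]
        constructor
        · rintro ⟨j, hj, hvj⟩
          rcases j with w | w | ⟨w, w'⟩ | i' | _ | n' | n' | _ <;> simp only [gwire] at hj
          · obtain ⟨c', hc', hz⟩ := hj
            rw [hc'] at hn2
            simp at hn2
          · omega
          · obtain ⟨e, he⟩ := hj
            refine ⟨e, ?_⟩
            rintro ⟨h3, h4⟩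
            rw [hnh] at hvj
            apply hvj
            have : n' = ⟨child n e, h3⟩ := Subtype.ext he
            rw [this]; exact h4
        · rintro ⟨e, he⟩
          have h3 : 1 ≤ (child n e).1 ∧ (child n e).1 ≤ t := by
            simp only [child]; omega
          refine ⟨.nh ⟨child n e, h3⟩, ⟨e, rfl⟩, ?_⟩
          rw [hnh]
          intro h4
          exact he ⟨h3, h4⟩
  · rintro ⟨u, hu1, hu2⟩
    let LV : (Σ j, Lv E j) → Prop := fun n =>
      ∃ c : Lv E t, n = ⟨t, c⟩ ∧ ∃ i, z (Sum.inr c) (Sum.inl (i, u i)) = true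
    let Hm : ℕ → (Σ j, Lv E j) → Prop := fun m => Nat.rec LV
      (fun _ H n => ∃ e, ¬ H (child n e)) m
    let H : (Σ j, Lv E j) → Prop := fun n => Hm (t - n.1) n
    have hHstep : ∀ n : Σ j, Lv E j, 1 ≤ n.1 → n.1 < t → (H n ↔ ∃ e, ¬ H (child n e)) := by
      intro n _ hn2
      have h1 : t - n.1 = (t - (n.1 + 1)) + 1 := by omega
      change Hm (t - n.1) n ↔ _
      rw [h1]
      exact Iff.rfl
    have hHleaf : ∀ c : Lv E t, H ⟨t, c⟩ ↔ ∃ i, z (Sum.inr c) (Sum.inl (i, u i)) = true := by
      intro c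
      change Hm (t - t) ⟨t, c⟩ ↔ _
      rw [Nat.sub_self]
      constructor
      · rintro ⟨c', hc', h⟩
        simp only [Sigma.mk.injEq, heq_eq_eq, true_and] at hc'
        subst hc'; exact h
      · intro h; exact ⟨c, rfl, h⟩
    have hHtop : ∀ e, H ⟨1, ((), e)⟩ := by
      rw [SipP_congr (fun c => (hHleaf c).symm), sip_top ht H hHstep] at hu2
      push Not at hu2
      exact hu2
    let v : Gt k β E t → Prop := fun g => match g with
      | .x w => w.2 = u w.1
      | .nx w => ¬ w.2 = u w.1
      | .pr a b => (¬ a.2 = u a.1) ∨ (¬ b.2 = u b.1)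
      | .gr _ => True
      | .zr => False
      | .hd n => H n.1
      | .nh n => ¬ H n.1
      | .top => True
    refine ⟨v, ?_, ?_, trivial⟩
    · change ∀ g : Gt k β E t,
        (gkind g = Kind.neg → (v g ↔ ¬ ∃ j, gwire v0 z j g ∧ v j)) ∧
        (gkind g = Kind.conj → (v g ↔ ∀ j, gwire v0 z j g → v j)) ∧
        (gkind g = Kind.disj → (v g ↔ ∃ j, gwire v0 z j g ∧ v j))
      intro g
      rcases g with a | a | ⟨a, b⟩ | i | _ | n | n | _
      · simp [gkind]
      · refine ⟨fun _ => ?_, fun h => by simp [gkind] at h, fun h => by simp [gkind] at h⟩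
        change (¬ a.2 = u a.1) ↔ _
        apply not_congr
        constructor
        · intro h; exact ⟨.x a, by simp [gwire], h⟩
        · rintro ⟨j, hj, hvj⟩
          rcases j with w | w | ⟨w, w'⟩ | i' | _ | n' | n' | _ <;> simp [gwire] at hj
          subst hj; exact hvj
      · refine ⟨fun h => by simp [gkind] at h, fun h => by simp [gkind] at h, fun _ => ?_⟩
        change ((¬ a.2 = u a.1) ∨ (¬ b.2 = u b.1)) ↔ _
        constructor
        · rintro (h | h)
          · exact ⟨.nx a, by simp [gwire], h⟩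
          · exact ⟨.nx b, by simp [gwire], h⟩
        · rintro ⟨j, hj, hvj⟩
          rcases j with w | w | ⟨w, w'⟩ | i' | _ | n' | n' | _ <;> simp [gwire] at hj
          rcases hj with rfl | rfl
          · exact Or.inl hvj
          · exact Or.inr hvj
      · refine ⟨fun h => by simp [gkind] at h, fun h => by simp [gkind] at h, fun _ => ?_⟩
        change True ↔ _
        simp only [true_iff]
        exact ⟨.x (i, u i), by simp [gwire], rfl⟩
      · refine ⟨fun h => by simp [gkind] at h, fun _ => ?_, fun h => by simp [gkind] at h⟩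
        change False ↔ _
        simp only [false_iff]
        intro h
        have h1 : v0.2 = u v0.1 := h (.x v0) (by simp [gwire])
        have h2 : ¬ v0.2 = u v0.1 := h (.nx v0) (by simp [gwire])
        exact h2 h1
      · refine ⟨fun h => by simp [gkind] at h, fun h => by simp [gkind] at h, fun _ => ?_⟩
        change H n.1 ↔ _
        by_cases hn : n.1.1 = t
        · obtain ⟨⟨j, c⟩, hjc⟩ := n
          simp only at hn
          subst hn
          rw [hHleaf]
          constructor
          · rintro ⟨i, hi⟩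
            exact ⟨.x (i, u i), ⟨c, rfl, hi⟩, rfl⟩
          · rintro ⟨j', hj, hvj⟩
            rcases j' with w | w | ⟨w, w'⟩ | i' | _ | n' | n' | _ <;> simp only [gwire] at hj
            · obtain ⟨c', hc', hz⟩ := hj
              simp only [Sigma.mk.injEq, heq_eq_eq, true_and] at hc'
              subst hc'
              refine ⟨w.1, ?_⟩
              have h5 : w.2 = u w.1 := hvj
              rw [← h5]; exact hz
            · exact absurd hvj id
            · obtain ⟨e, he⟩ := hj
              have h2 := n'.2.2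
              rw [he] at h2
              simp only [child] at h2
              omega
        · have hn2 : n.1.1 < t := lt_of_le_of_ne n.2.2 hn
          rw [hHstep n.1 n.2.1 hn2]
          constructor
          · rintro ⟨e, he⟩
            have h3 : 1 ≤ (child n.1 e).1 ∧ (child n.1 e).1 ≤ t := by
              simp only [child]; omega
            exact ⟨.nh ⟨child n.1 e, h3⟩, ⟨e, rfl⟩, he⟩
          · rintro ⟨j', hj, hvj⟩
            rcases j' with w | w | ⟨w, w'⟩ | i' | _ | n' | n' | _ <;> simp only [gwire] at hj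
            · obtain ⟨c', hc', hz⟩ := hj
              rw [hc'] at hn2
              simp at hn2
            · omega
            · obtain ⟨e, he⟩ := hj
              refine ⟨e, ?_⟩
              rw [← he]; exact hvj
      · refine ⟨fun _ => ?_, fun h => by simp [gkind] at h, fun h => by simp [gkind] at h⟩
        change (¬ H n.1) ↔ _
        apply not_congr
        constructor
        · intro h; exact ⟨.hd n, by simp [gwire], h⟩
        · rintro ⟨j, hj, hvj⟩
          rcases j with w | w | ⟨w, w'⟩ | i' | _ | n' | n' | _ <;> simp [gwire] at hj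
          subst hj; exact hvj
      · refine ⟨fun h => by simp [gkind] at h, fun _ => ?_, fun h => by simp [gkind] at h⟩
        change True ↔ _
        simp only [true_iff]
        intro j hj
        rcases j with w | w | ⟨w, w'⟩ | i' | _ | n' | n' | _ <;> simp only [gwire] at hj
        · obtain ⟨h1, h2⟩ := hj
          change (¬ w.2 = u w.1) ∨ (¬ w'.2 = u w'.1)
          by_contra hc
          push Not at hc
          have h3 := hu1 w.1 w'.1 h1
          rw [← hc.1, ← hc.2] at h3
          rw [h2] at h3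
          simp at h3
        · trivial
        · change H n'.1
          obtain ⟨⟨j, c⟩, hjc⟩ := n'
          simp only at hj
          subst hj
          exact hHtop c.2
    · have h1 : (Finset.univ : Finset (Fin k)).image (fun i => (Gt.x (i, u i) : Gt k β E t)) =
          Finset.univ.filter (fun g => (srcC v0 z).kind g = Kind.inp ∧ v g) := by
        ext g
        rw [Finset.mem_image, Finset.mem_filter]
        constructor
        · rintro ⟨i, -, rfl⟩
          exact ⟨Finset.mem_univ _, rfl, rfl⟩
        · rintro ⟨-, hk, hg⟩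
          rcases g with w | w | ⟨w, w'⟩ | i' | _ | n' | n' | _
          · refine ⟨w.1, Finset.mem_univ _, ?_⟩
            have h5 : w.2 = u w.1 := hg
            rw [← h5]
          all_goals exact absurd hk (by simp [srcC, gkind])
      rw [← h1, Finset.card_image_of_injective, Finset.card_univ, Fintype.card_fin]
      intro i i' h
      simp only [Gt.x.injEq, Prod.mk.injEq] at h
      exact h.1

end fin

end

end

end Pool.Agent.H592R2
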