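import Pool.Agent.H592R2.SrcCkt
import Pool.Agent.H592R2.Params

set_option linter.unusedSectionVars false

/-! Encoding of circuits as strings. -/

namespace Pool.Agent.H592R2

open Finset Classical

noncomputable section

/-- an enumeration of the gates compatible with the rank -/
lemma exists_rank_equiv {G : Type} [Fintype G] (rank : G → ℕ) :
    ∃ e : G ≃ Fin (Fintype.card G), ∀ g g', rank g < rank g' → e g < e g' := by
  let f : G → ℕ ×ₗ Fin (Fintype.card G) := fun g => toLex (rank g, Fintype.equivFin G g)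
  have hf : Function.Injective f := by
    intro g g' h
    have h1 := congrArg (fun p => (ofLex p).2) h
    exact (Fintype.equivFin G).injective h1
  let _ : LinearOrder G := LinearOrder.lift' f hf
  let o : Fin (Fintype.card G) ≃o G := Fintype.orderIsoFinOfCardEq G rfl
  refine ⟨o.symm.toEquiv, ?_⟩
  intro g g' h
  have h1 : g < g' := by
    change f g < f g'
    exact Prod.Lex.toLex_lt_toLex.2 (Or.inl h)
  exact o.symm.lt_iff_lt.2 h1

/-- first kind bit -/
def kb1 : Kind → Bool
  | .inp => false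
  | .neg => true
  | .conj => false
  | .disj => true

/-- second kind bit -/
def kb2 : Kind → Bool
  | .inp => false
  | .neg => false
  | .conj => true
  | .disj => true

lemma kindOf_kb (κ : Kind) : kindOf (kb1 κ) (kb2 κ) = κ := by cases κ <;> rfl

section enc
variable {G : Type} {M : ℕ}

/-- matrix entry -/
def entry (e : G ≃ Fin M) (C : Ckt G) (i j : ℕ) : Bool :=
  if hi : i < M then
    (if hj : j < M then decide (C.wire (e.symm ⟨j, hj⟩) (e.symm ⟨i, hi⟩))
    else if j = M then kb1 (C.kind (e.symm ⟨i, hi⟩)) else kb2 (C.kind (e.symm ⟨i, hi⟩)))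
  else false

/-- the string encoding a circuit and `k` -/
def encK (k : ℕ) (e : G ≃ Fin M) (C : Ckt G) : Fin (k + 1 + M * (M + 2)) → Bool := fun p =>
  if p.val < k then true
  else if p.val = k then false
  else entry e C ((p.val - (k + 1)) / (M + 2)) ((p.val - (k + 1)) % (M + 2))

lemma lead_encK (k : ℕ) (e : G ≃ Fin M) (C : Ckt G) : lead (encK k e C) = k := by
  unfold lead
  rw [Nat.find_eq_iff]
  constructor
  · simp [bitN, encK]
  · intro p hp
    have hp' : p < k + 1 + M * (M + 2) := by omega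
    simp [bitN, encK, hp, hp']

lemma gN_encK (k : ℕ) (hM : 1 ≤ M) : gN (k + 1 + M * (M + 2)) k + 1 = M := by
  unfold gN
  have h1 : k + 1 + M * (M + 2) - (k + 1) + 1 = (M + 1) * (M + 1) := by
    rw [Nat.add_sub_cancel_left]; ring
  rw [h1, Nat.sqrt_eq]
  omega

lemma bit_encK (k : ℕ) (e : G ≃ Fin M) (C : Ckt G) {i j : ℕ} (hi : i < M) (hj : j < M + 2) :
    bitN (encK k e C) (k + 1 + (i * (M + 2) + j)) = entry e C i j := by
  have hlt : i * (M + 2) + j < M * (M + 2) := by
    calc i * (M + 2) + j < i * (M + 2) + (M + 2) := by omega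
      _ = (i + 1) * (M + 2) := by ring
      _ ≤ _ := Nat.mul_le_mul_right _ hi
  have e1 : (i * (M + 2) + j) / (M + 2) = i := by
    rw [mul_comm, Nat.mul_add_div (by omega), Nat.div_eq_of_lt hj, add_zero]
  have e2 : (i * (M + 2) + j) % (M + 2) = j := by
    rw [mul_comm, Nat.mul_add_mod, Nat.mod_eq_of_lt hj]
  unfold bitN
  rw [dif_pos (by omega : k + 1 + (i * (M + 2) + j) < k + 1 + M * (M + 2))]
  have h1 : ¬ (k + 1 + (i * (M + 2) + j) < k) := by omega
  have h2 : ¬ (k + 1 + (i * (M + 2) + j) = k) := by omega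
  simp only [encK, if_neg h1, if_neg h2, Nat.add_sub_cancel_left]
  rw [e1, e2]

lemma Ckt.ext' {G : Type} {C C' : Ckt G} (h1 : ∀ g, C.kind g = C'.kind g)
    (h2 : ∀ g g', C.wire g g' ↔ C'.wire g g') (h3 : C.out = C'.out) : C = C' := by
  cases C; cases C'
  simp only at h1 h2 h3
  congr
  · exact funext h1
  · exact funext fun g => funext fun g' => propext (h2 g g')

/-- decoding -/
lemma circOf_encK (k : ℕ) (hM : 1 ≤ M) (e : G ≃ Fin M) (C : Ckt G)
    (hw : ∀ g g', C.wire g g' → e g < e g') (hout : ∀ g, e g ≤ e C.out) :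
    circOf (encK k e C) k = C.map (e.trans (finCongr (gN_encK k hM).symm)) := by
  have hN := gN_encK k hM
  set e' := e.trans (finCongr (gN_encK k hM).symm) with he'
  have hval : ∀ g, (e' g).val = (e g).val := fun g => by simp [he']
  have hsymm : ∀ i : Fin (gN (k + 1 + M * (M + 2)) k + 1), ∀ h : i.val < M,
      e.symm ⟨i.val, h⟩ = e'.symm i := by
    intro i h
    rw [Equiv.symm_apply_eq]
    apply Fin.ext
    rw [← hval, Equiv.apply_symm_apply]
  have hlt : ∀ i : Fin (gN (k + 1 + M * (M + 2)) k + 1), i.val < M := fun i => by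
    have := i.2; omega
  have hbit : ∀ (i : Fin (gN (k + 1 + M * (M + 2)) k + 1)) (j : ℕ), j < M + 2 →
      bitN (encK k e C) (k + 1 + (i.val * (gN (k + 1 + M * (M + 2)) k + 3) + j)) =
        entry e C i.val j := by
    intro i j hj
    have h3 : gN (k + 1 + M * (M + 2)) k + 3 = M + 2 := by omega
    rw [h3]
    exact bit_encK k e C (hlt i) hj
  apply Ckt.ext'
  · intro i
    simp only [circOf, Ckt.map]
    rw [hbit i _ (by omega), hbit i _ (by omega)]
    unfold entry
    rw [dif_pos (hlt i), dif_pos (hlt i)]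
    have h1 : ¬ (gN (k + 1 + M * (M + 2)) k + 1 < M) := by omega
    have h2 : gN (k + 1 + M * (M + 2)) k + 1 = M := hN
    have h3 : ¬ (gN (k + 1 + M * (M + 2)) k + 2 < M) := by omega
    have h4 : ¬ (gN (k + 1 + M * (M + 2)) k + 2 = M) := by omega
    rw [dif_neg h1, if_pos h2, dif_neg h3, if_neg h4, hsymm i (hlt i), kindOf_kb]
  · intro j i
    simp only [circOf, Ckt.map]
    rw [hbit i _ (by have := j.2; omega)]
    unfold entry
    rw [dif_pos (hlt i), dif_pos (hlt j), hsymm i (hlt i), hsymm j (hlt j)]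
    simp only [decide_eq_true_eq]
    constructor
    · exact fun h => h.2
    · intro h
      refine ⟨?_, h⟩
      have h1 := hw _ _ h
      rw [Fin.lt_def, ← hval, ← hval, Equiv.apply_symm_apply, Equiv.apply_symm_apply] at h1
      exact h1
  · simp only [circOf, Ckt.map]
    apply Fin.ext
    rw [Fin.val_last, hval]
    obtain ⟨g, hg⟩ := e.surjective ⟨M - 1, by omega⟩
    have h1 := hout g
    rw [hg, Fin.le_def] at h1
    simp only at h1
    have h2 := (e C.out).2
    omega

end enc

section src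
variable {k t : ℕ} {β E : Type} [Fintype β] [DecidableEq β] [Fintype E] [DecidableEq E]

instance instFtVt : Fintype (Vt k β E t) := inferInstance
instance instDecVt : DecidableEq (Vt k β E t) := inferInstance

/-- number of gates -/
abbrev nGates (k : ℕ) (β E : Type) [Fintype β] [Fintype E] (t : ℕ) : ℕ :=
  Fintype.card (Gt k β E t)

/-- length of the instance strings -/
abbrev nLen (k : ℕ) (β E : Type) [Fintype β] [Fintype E] (t : ℕ) : ℕ :=
  k + 1 + nGates k β E t * (nGates k β E t + 2)

/-- enumeration of the gates -/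
def gEnum (k : ℕ) (β E : Type) [Fintype β] [Fintype E] (t : ℕ) :
    Gt k β E t ≃ Fin (nGates k β E t) :=
  (exists_rank_equiv (grank (k := k) (β := β) (E := E) (t := t))).choose

lemma gEnum_lt (g g' : Gt k β E t) (h : grank g < grank g') :
    gEnum k β E t g < gEnum k β E t g' :=
  (exists_rank_equiv (grank (k := k) (β := β) (E := E) (t := t))).choose_spec g g' h

/-- the source instance -/
def encS (v0 : Fin k × β) (z : Vt k β E t → Vt k β E t → Bool) : Fin (nLen k β E t) → Bool :=
  encK k (gEnum k β E t) (srcC v0 z)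

lemma lead_encS (v0 : Fin k × β) (z : Vt k β E t → Vt k β E t → Bool) :
    lead (encS v0 z) = k := lead_encK _ _ _

theorem wsat_encS [Nonempty β] [Nonempty E] (hk : 1 ≤ k) (ht : 1 ≤ t) (v0 : Fin k × β)
    (z : Vt k β E t → Vt k β E t → Bool) :
    (pWSAT (t + 1) (3 + 2 * t)).Q _ (encS v0 z) ↔ SrcSat t z := by
  have hM : 1 ≤ nGates k β E t := Fintype.card_pos_iff.mpr ⟨Gt.top⟩
  have hrank : ∀ g : Gt k β E t, g ≠ Gt.top → grank g < grank (Gt.top : Gt k β E t) := by
    intro g hg
    rcases g with v | v | ⟨v, v'⟩ | i | _ | n | n | _ <;> simp only [grank]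
    all_goals try omega
    exact absurd rfl hg
  have hcirc := circOf_encK k hM (gEnum k β E t) (srcC v0 z)
    (fun g g' h => gEnum_lt g g' (grank_lt v0 z g g' h))
    (fun g => by
      by_cases hg : g = Gt.top
      · rw [hg]; exact le_rfl
      · exact (gEnum_lt g Gt.top (hrank g hg)).le)
  change (circOf (encS v0 z) (lead (encS v0 z))).WF ∧ (circOf (encS v0 z) (lead (encS v0 z))).InC
    (t + 1) (3 + 2 * t) ∧ (circOf (encS v0 z) (lead (encS v0 z))).Sat (lead (encS v0 z)) ↔ _
  rw [lead_encS]
  have hcirc' : circOf (encS v0 z) k = (srcC v0 z).map _ := hcirc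
  rw [hcirc', Ckt.sat_map, srcC_sat ht]
  constructor
  · exact fun h => h.2.2
  · exact fun h => ⟨(srcC_WF hk).map _, (srcC_InC ht).map _, h⟩

/-- the wires depend on one pair of vertices -/
lemma gwire_loc (v0 : Fin k × β) (g g' : Gt k β E t) :
    ∃ v v' : Vt k β E t, Loc {v, v'} (fun z => gwire v0 z g g') := by
  have hconst : ∀ p : Prop, (∀ z, gwire v0 z g g' ↔ p) →
      ∃ v v' : Vt k β E t, Loc {v, v'} (fun z => gwire v0 z g g') := by
    intro p hp
    refine ⟨Sum.inl v0, Sum.inl v0, ?_⟩
    intro z z' _ h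
    rw [hp] at h ⊢
    exact h
  rcases g with v | v | ⟨v, v'⟩ | i | _ | n | n | _ <;>
  rcases g' with w | w | ⟨w, w'⟩ | i' | _ | n' | n' | _ <;>
  try exact hconst _ (fun z => Iff.rfl)
  · -- x v, hd n'
    by_cases hn : ∃ c : Lv E t, n'.1 = ⟨t, c⟩
    · obtain ⟨c, hc⟩ := hn
      refine ⟨Sum.inr c, Sum.inl v, ?_⟩
      intro z z' hzz'
      rintro ⟨c', hc', hz⟩
      refine ⟨c', hc', ?_⟩
      rw [hc] at hc'
      simp only [Sigma.mk.injEq, heq_eq_eq, true_and] at hc'
      subst hc'
      rw [← hzz' _ (Finset.mem_insert_self _ _) _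
        (Finset.mem_insert_of_mem (Finset.mem_singleton_self _))]
      exact hz
    · refine hconst False (fun z => ?_)
      simp only [iff_false]
      rintro ⟨c, hc, -⟩
      exact hn ⟨c, hc⟩
  · -- pr v v', top
    refine ⟨Sum.inl v, Sum.inl v', ?_⟩
    intro z z' hzz'
    rintro ⟨h1, h2⟩
    refine ⟨h1, ?_⟩
    rw [← hzz' _ (Finset.mem_insert_self _ _) _
        (Finset.mem_insert_of_mem (Finset.mem_singleton_self _))]
    exact h2

lemma encS_loc (v0 : Fin k × β) (p : Fin (nLen k β E t)) :
    ∃ v v' : Vt k β E t, Loc {v, v'} (fun z => encS v0 z p = true) := by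
  have hconst : ∀ b : Bool, (∀ z, encS v0 z p = b) →
      ∃ v v' : Vt k β E t, Loc {v, v'} (fun z => encS v0 z p = true) := by
    intro b hb
    refine ⟨Sum.inl v0, Sum.inl v0, ?_⟩
    intro z z' _ h
    rw [hb] at h ⊢
    exact h
  by_cases h1 : p.val < k
  · exact hconst true (fun z => by simp only [encS, encK, if_pos h1])
  by_cases h2 : p.val = k
  · exact hconst false (fun z => by simp only [encS, encK, if_neg h1, if_pos h2])
  by_cases h3 : (p.val - (k + 1)) / (nGates k β E t + 2) < nGates k β E t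
  swap
  · exact hconst false (fun z => by
      simp only [encS, encK, if_neg h1, if_neg h2, entry]
      rw [dif_neg h3])
  by_cases h4 : (p.val - (k + 1)) % (nGates k β E t + 2) < nGates k β E t
  · obtain ⟨v, v', hv⟩ := gwire_loc (t := t) v0 ((gEnum k β E t).symm ⟨_, h4⟩)
      ((gEnum k β E t).symm ⟨_, h3⟩)
    refine ⟨v, v', ?_⟩
    intro z z' hzz' h
    simp only [encS, encK, if_neg h1, if_neg h2, entry] at h ⊢
    rw [dif_pos h3, dif_pos h4, decide_eq_true_eq] at h ⊢
    exact hv z z' hzz' h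
  · refine hconst (if (p.val - (k + 1)) % (nGates k β E t + 2) = nGates k β E t
      then kb1 (gkind ((gEnum k β E t).symm ⟨_, h3⟩))
      else kb2 (gkind ((gEnum k β E t).symm ⟨_, h3⟩))) (fun z => ?_)
    simp only [encS, encK, if_neg h1, if_neg h2, entry]
    rw [dif_pos h3, dif_neg h4]
    rfl

end src

end

end Pool.Agent.H592R2
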